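import Pool.Agent.TH672.Defs

/-!
# Extending proofs, with bounds for the lengths
-/

set_option autoImplicit false

namespace Pool.Agent.TH672

open Form

/-- the length of a formula -/
def Form.len (φ : Form) : ℕ := φ.str.length

/-- the length of a list of formulas -/
def lens (L : List Form) : ℕ := (strs L).length

@[simp] theorem lens_nil : lens [] = 0 := rfl

@[simp] theorem lens_cons (φ : Form) (L : List Form) : lens (φ :: L) = φ.len + lens L := by
  simp [lens, strs, Form.len]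

@[simp] theorem lens_append (L L' : List Form) : lens (L ++ L') = lens L + lens L' := by
  simp [lens, strs]

/-- the list `L` of formulas (the last line first) is a correct continuation of `C` -/
def Adds (Γ C : List Form) : List Form → Prop
  | [] => _root_.True
  | φ :: L => Adds Γ C L ∧ Step Γ (L ++ C) φ

/-- `φ` can be derived from `Γ` and from the lines `C` with additional lines of length `m` -/
def Ext (Γ C : List Form) (m : ℕ) (φ : Form) : Prop :=
  ∃ L, Adds Γ C L ∧ φ ∈ L ++ C ∧ lens L ≤ m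

theorem Step.mono {Γ π π' : List Form} {φ : Form} (h : Step Γ π φ) (hs : ∀ ψ ∈ π, ψ ∈ π') :
    Step Γ π' φ := by
  rcases h with h | h | ⟨ψ, h1, h2⟩ | ⟨ψ, h1, x, h2⟩
  · exact Or.inl h
  · exact Or.inr (Or.inl h)
  · exact Or.inr (Or.inr (Or.inl ⟨ψ, hs _ h1, hs _ h2⟩))
  · exact Or.inr (Or.inr (Or.inr ⟨ψ, hs _ h1, x, h2⟩))

theorem Step.monoΓ {Γ Γ' π : List Form} {φ : Form} (h : Step Γ π φ) (hs : ∀ ψ ∈ Γ, ψ ∈ Γ') :
    Step Γ' π φ := by
  rcases h with h | h | h | h
  · exact Or.inl (hs _ h)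
  · exact Or.inr (Or.inl h)
  · exact Or.inr (Or.inr (Or.inl h))
  · exact Or.inr (Or.inr (Or.inr h))

theorem Adds.mono {Γ C C' : List Form} (hC : ∀ ψ ∈ C, ψ ∈ C') :
    ∀ {L : List Form}, Adds Γ C L → Adds Γ C' L
  | [], _ => trivial
  | _ :: L, h => ⟨Adds.mono hC h.1, h.2.mono fun ψ hψ => by
      rcases List.mem_append.1 hψ with h | h
      · exact List.mem_append_left _ h
      · exact List.mem_append_right _ (hC _ h)⟩

theorem Adds.append {Γ C : List Form} {L : List Form} (hL : Adds Γ C L) :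
    ∀ {L' : List Form}, Adds Γ (L ++ C) L' → Adds Γ C (L' ++ L)
  | [], _ => hL
  | φ :: L', h => ⟨Adds.append hL h.1, by
      have h2 := h.2
      rw [← List.append_assoc] at h2
      exact h2⟩

/-- drop the lines that are already there: a formula of the context may be used as a line -/
theorem Adds.cut {Γ C : List Form} {L : List Form} (hL : Adds Γ C L) {φ : Form}
    (hφ : φ ∈ L ++ C) {L' : List Form} (h : Adds Γ (φ :: C) L') : Adds Γ C (L' ++ L) := by
  refine Adds.append hL (Adds.mono ?_ h)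
  intro ψ hψ
  rcases List.mem_cons.1 hψ with rfl | hψ
  · exact hφ
  · exact List.mem_append_right _ hψ

theorem Adds.monoΓ {Γ Γ' C : List Form} (hs : ∀ ψ ∈ Γ, ψ ∈ Γ') :
    ∀ {L : List Form}, Adds Γ C L → Adds Γ' C L
  | [], _ => trivial
  | _ :: _, h => ⟨Adds.monoΓ hs h.1, h.2.monoΓ hs⟩

namespace Ext

variable {Γ C C' : List Form} {a b m m' : ℕ} {φ ψ χ : Form}

theorem mono (h : Ext Γ C m φ) (hC : ∀ ψ ∈ C, ψ ∈ C') (hm : m ≤ m') : Ext Γ C' m' φ := by
  obtain ⟨L, h1, h2, h3⟩ := h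
  refine ⟨L, h1.mono hC, ?_, h3.trans hm⟩
  rcases List.mem_append.1 h2 with h | h
  · exact List.mem_append_left _ h
  · exact List.mem_append_right _ (hC _ h)

theorem le (h : Ext Γ C m φ) (hm : m ≤ m') : Ext Γ C m' φ := h.mono (fun _ h => h) hm

theorem ctx (h : Ext Γ C m φ) (hC : ∀ ψ ∈ C, ψ ∈ C') : Ext Γ C' m φ := h.mono hC le_rfl

theorem monoΓ {Γ' : List Form} (h : Ext Γ C m φ) (hs : ∀ ψ ∈ Γ, ψ ∈ Γ') : Ext Γ' C m φ := by
  obtain ⟨L, h1, h2, h3⟩ := h
  exact ⟨L, h1.monoΓ hs, h2, h3⟩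

theorem hyp (h : φ ∈ C) : Ext Γ C 0 φ := ⟨[], trivial, by simpa using h, by simp⟩

theorem of_step (h : Step Γ C φ) : Ext Γ C φ.len φ :=
  ⟨[φ], ⟨trivial, by simpa using h⟩, by simp, by simp⟩

theorem ax (h : φ ∈ Γ) : Ext Γ C φ.len φ := of_step (Or.inl h)

theorem log (h : LogAx φ) : Ext Γ C φ.len φ := of_step (Or.inr (Or.inl h))

theorem cut (h : Ext Γ C a φ) (h' : Ext Γ (φ :: C) b ψ) : Ext Γ C (a + b) ψ := by
  obtain ⟨L, h1, h2, h3⟩ := h
  obtain ⟨L', h4, h5, h6⟩ := h'
  refine ⟨L' ++ L, Adds.cut h1 h2 h4, ?_, by rw [lens_append]; omega⟩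
  rcases List.mem_append.1 h5 with h | h
  · exact List.mem_append_left _ (List.mem_append_left _ h)
  · rcases List.mem_cons.1 h with rfl | h
    · rcases List.mem_append.1 h2 with h | h
      · exact List.mem_append_left _ (List.mem_append_right _ h)
      · exact List.mem_append_right _ h
    · exact List.mem_append_right _ h

theorem mp (h : Ext Γ C a (φ.imp ψ)) (h' : Ext Γ C b φ) : Ext Γ C (a + b + ψ.len) ψ := by
  have h1 : Ext Γ (φ :: φ.imp ψ :: C) ψ.len ψ :=
    of_step (Or.inr (Or.inr (Or.inl ⟨φ, by simp, by simp⟩)))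
  have h2 : Ext Γ (φ.imp ψ :: C) (b + ψ.len) ψ :=
    cut (h'.ctx fun _ h => List.mem_cons_of_mem _ h) h1
  exact (cut h h2).le (by omega)

theorem gen (x : ℕ) (h : Ext Γ C a φ) : Ext Γ C (a + (Form.all x φ).len) (Form.all x φ) :=
  cut h (of_step (Or.inr (Or.inr (Or.inr ⟨φ, by simp, x, rfl⟩))))

end Ext

/-- several cuts -/
theorem Ext.cuts {Γ C : List Form} {a b : ℕ} {ψ : Form} :
    ∀ {D : List Form}, (∀ φ ∈ D, Ext Γ C a φ) → Ext Γ (D ++ C) b ψ →
      Ext Γ C (D.length * a + b) ψ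
  | [], _, h => by simpa using h
  | φ :: D, hD, h => by
      have h1 : Ext Γ (φ :: C) (D.length * a + b) ψ :=
        Ext.cuts (D := D) (fun χ hχ => (hD χ (List.mem_cons_of_mem _ hχ)).ctx
          fun _ h => List.mem_cons_of_mem _ h) (h.ctx fun χ hχ => by
            simp only [List.mem_append, List.mem_cons, List.cons_append] at hχ ⊢
            tauto)
      refine ((hD φ (by simp)).cut h1).le ?_
      rw [List.length_cons, Nat.succ_mul]
      omega

theorem adds_isProof {Γ : List Form} : ∀ {L : List Form}, Adds Γ [] L → IsProof Γ L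
  | [], _ => trivial
  | _ :: _, h => ⟨adds_isProof h.1, by simpa using h.2⟩

theorem isProof_tail {Γ : List Form} : ∀ {L : List Form} {φ : Form}, IsProof Γ L → φ ∈ L →
    ∃ π, IsProof Γ (φ :: π) ∧ lens (φ :: π) ≤ lens L
  | ψ :: L, φ, h, hφ => by
      rcases List.mem_cons.1 hφ with rfl | h'
      · exact ⟨L, h, le_rfl⟩
      · obtain ⟨π, h1, h2⟩ := isProof_tail h.1 h'
        exact ⟨π, h1, h2.trans (by simp)⟩

theorem Ext.proves {Γ : List Form} {m : ℕ} {φ : Form} (h : Ext Γ [] m φ) : Proves Γ m φ := by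
  obtain ⟨L, h1, h2, h3⟩ := h
  obtain ⟨π, h4, h5⟩ := isProof_tail (adds_isProof h1) (by simpa using h2)
  exact ⟨π, h4, h5.trans h3⟩

/-! ### Derived rules -/

namespace Ext

variable {Γ C : List Form} {a b c : ℕ} {φ ψ χ θ : Form}

theorem len_imp (φ ψ : Form) : (φ.imp ψ).len = φ.len + ψ.len + 3 := by
  simp only [Form.len, Form.str, List.length_append, List.length_cons, List.length_nil]; omega

theorem len_all (x : ℕ) (φ : Form) : (Form.all x φ).len = φ.len + x + 4 := by
  simp only [Form.len, Form.str, varStr, List.length_append, List.length_cons, List.length_nil,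
    List.length_replicate]
  omega

theorem len_pos (φ : Form) : 0 < φ.len := by
  cases φ <;> simp [Form.len, Form.str]

/-- weakening -/
theorem weak (ψ : Form) (h : Ext Γ C a φ) :
    Ext Γ C (a + 3 * φ.len + 2 * ψ.len + 9) (ψ.imp φ) := by
  refine ((log (LogAx.k φ ψ)).mp h).le ?_
  simp only [len_imp]; omega

/-- composition -/
theorem comp (h : Ext Γ C a (φ.imp ψ)) (h' : Ext Γ C b (φ.imp (ψ.imp χ))) :
    Ext Γ C (a + b + 7 * (φ.len + ψ.len + χ.len) + 40) (φ.imp χ) := by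
  refine (((log (LogAx.s φ ψ χ)).mp h').mp h).le ?_
  simp only [len_imp]; omega

/-- transitivity -/
theorem trans (h : Ext Γ C a (φ.imp ψ)) (h' : Ext Γ C b (ψ.imp χ)) :
    Ext Γ C (a + b + 12 * (φ.len + ψ.len + χ.len) + 80) (φ.imp χ) := by
  refine (comp h (weak φ h')).le ?_
  simp only [len_imp]; omega

/-- identity -/
theorem refl' (φ : Form) : Ext Γ C (50 * φ.len + 200) (φ.imp φ) := by
  have h1 : Ext Γ C _ (φ.imp ((φ.imp φ).imp φ)) := log (LogAx.k φ (φ.imp φ))
  have h2 : Ext Γ C _ (φ.imp (φ.imp φ)) := log (LogAx.k φ φ)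
  refine (comp h2 h1).le ?_
  simp only [len_imp]; omega

/-- exchange -/
theorem swap (h : Ext Γ C a (φ.imp (ψ.imp χ))) :
    Ext Γ C (a + 60 * (φ.len + ψ.len + χ.len) + 400) (ψ.imp (φ.imp χ)) := by
  have h1 : Ext Γ C _ ((φ.imp ψ).imp (φ.imp χ)) := (log (LogAx.s φ ψ χ)).mp h
  refine (trans (log (LogAx.k ψ φ)) h1).le ?_
  simp only [len_imp]; omega

end Ext

end Pool.Agent.TH672
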