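import Pool.Agent.TH672.Tr

/-!
# Semantic consequences can be derived uniformly
-/

set_option autoImplicit false

namespace Pool.Agent.TH672

open Form

variable {κ : Type}

/-- renaming all variables -/
def rn (f : ℕ → ℕ) : Fm κ → Fm κ
  | .bot => .bot
  | .eq x y => .eq (f x) (f y)
  | .zero x => .zero (f x)
  | .succ x y => .succ (f x) (f y)
  | .add x y z => .add (f x) (f y) (f z)
  | .mul x y z => .mul (f x) (f y) (f z)
  | .op i a b c d => .op i (f a) (f b) (f c) (f d)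
  | .imp φ ψ => .imp (rn f φ) (rn f ψ)
  | .all x φ => .all (f x) (rn f φ)

theorem rn_free {f : ℕ → ℕ} {z : ℕ} : ∀ {φ : Fm κ}, (rn f φ).Free z → ∃ y, φ.Free y ∧ z = f y := by
  intro φ
  induction φ with
  | imp φ ψ ih ih' =>
    rintro (h | h)
    · obtain ⟨y, h1, h2⟩ := ih h
      exact ⟨y, Or.inl h1, h2⟩
    · obtain ⟨y, h1, h2⟩ := ih' h
      exact ⟨y, Or.inr h1, h2⟩
  | all u φ ih =>
    rintro ⟨h, h'⟩
    obtain ⟨y, h1, h2⟩ := ih h'
    exact ⟨y, ⟨fun e => h (h2.trans (e ▸ rfl)), h1⟩, h2⟩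
  | bot => intro h; exact absurd h (by simp [rn, Fm.Free])
  | zero x => intro h; exact ⟨x, rfl, h⟩
  | eq x y =>
    rintro (h | h)
    · exact ⟨_, Or.inl rfl, h⟩
    · exact ⟨_, Or.inr rfl, h⟩
  | succ x y =>
    rintro (h | h)
    · exact ⟨_, Or.inl rfl, h⟩
    · exact ⟨_, Or.inr rfl, h⟩
  | add x y z =>
    rintro (h | h | h)
    · exact ⟨_, Or.inl rfl, h⟩
    · exact ⟨_, Or.inr (Or.inl rfl), h⟩
    · exact ⟨_, Or.inr (Or.inr rfl), h⟩
  | mul x y z =>
    rintro (h | h | h)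
    · exact ⟨_, Or.inl rfl, h⟩
    · exact ⟨_, Or.inr (Or.inl rfl), h⟩
    · exact ⟨_, Or.inr (Or.inr rfl), h⟩
  | op i a b c d =>
    rintro (h | h | h | h)
    · exact ⟨_, Or.inl rfl, h⟩
    · exact ⟨_, Or.inr (Or.inl rfl), h⟩
    · exact ⟨_, Or.inr (Or.inr (Or.inl rfl)), h⟩
    · exact ⟨_, Or.inr (Or.inr (Or.inr rfl)), h⟩

theorem rn_closed {f : ℕ → ℕ} {φ : Fm κ} (h : φ.Closed) : (rn f φ).Closed := by
  intro z hz
  obtain ⟨y, h1, _⟩ := rn_free hz
  exact h y h1

theorem rn_free_iff {f : ℕ → ℕ} (hf : Function.Injective f) {z : ℕ} :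
    ∀ {φ : Fm κ}, (rn f φ).Free (f z) ↔ φ.Free z := by
  intro φ
  induction φ with
  | imp φ ψ ih ih' => simp [rn, Fm.Free, ih, ih']
  | all u φ ih => simp [rn, Fm.Free, ih, hf.eq_iff]
  | _ => simp [rn, Fm.Free, hf.eq_iff]

theorem ren_inj {f : ℕ → ℕ} (hf : Function.Injective f) (x y u : ℕ) :
    ren (f x) (f y) (f u) = f (ren x y u) := by
  unfold ren
  split_ifs with h1 h2 h2
  · rfl
  · exact absurd (hf h1) h2
  · exact absurd (h2 ▸ rfl) h1
  · rfl

theorem rn_subst {f : ℕ → ℕ} (hf : Function.Injective f) (x y : ℕ) :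
    ∀ φ : Fm κ, rn f (φ.subst x y) = (rn f φ).subst (f x) (f y) := by
  intro φ
  induction φ with
  | imp φ ψ ih ih' => simp [rn, Fm.subst, ih, ih']
  | all u φ ih =>
    simp only [rn, Fm.subst]
    by_cases h : u = x
    · subst h; simp [rn]
    · have h' : f u ≠ f x := fun e => h (hf e)
      simp [h, h', rn, ih]
  | _ => simp [rn, Fm.subst, ren_inj hf]

theorem rn_freeFor {f : ℕ → ℕ} (hf : Function.Injective f) {x y : ℕ} :
    ∀ {φ : Fm κ}, φ.FreeFor y x → (rn f φ).FreeFor (f y) (f x) := by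
  intro φ
  induction φ with
  | imp φ ψ ih ih' => rintro ⟨h, h'⟩; exact ⟨ih h, ih' h'⟩
  | all u φ ih =>
    rintro (h | h | h)
    · exact Or.inl (h ▸ rfl)
    · exact Or.inr (Or.inl (fun h' => h ((rn_free_iff hf).1 h')))
    · exact Or.inr (Or.inr ⟨fun e => h.1 (hf e), ih h.2⟩)
  | _ => intro _; trivial

theorem rn_sw {f : ℕ → ℕ} {x y u u' : ℕ} (h : Sw x y u u') : Sw (f x) (f y) (f u) (f u') := by
  rcases h with rfl | ⟨rfl, rfl⟩
  · exact Or.inl rfl
  · exact Or.inr ⟨rfl, rfl⟩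

theorem rn_log {f : ℕ → ℕ} (hf : Function.Injective f) {φ : Fm κ} (h : LogK φ) :
    LogK (rn f φ) := by
  cases h with
  | k φ ψ => exact LogK.k _ _
  | s φ ψ χ => exact LogK.s _ _ _
  | dn φ => exact LogK.dn _
  | inst x y φ h =>
    simp only [rn, rn_subst hf]
    exact LogK.inst _ _ _ (rn_freeFor hf h)
  | dist x φ ψ h =>
    simp only [rn]
    exact LogK.dist _ _ _ (fun h' => h ((rn_free_iff hf).1 h'))
  | refl x => exact LogK.refl _
  | repl x y φ ψ h =>
    simp only [rn]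
    refine LogK.repl _ _ _ _ ?_
    cases h with
    | eq h1 h2 => exact .eq (rn_sw h1) (rn_sw h2)
    | zero h1 => exact .zero (rn_sw h1)
    | succ h1 h2 => exact .succ (rn_sw h1) (rn_sw h2)
    | add h1 h2 h3 => exact .add (rn_sw h1) (rn_sw h2) (rn_sw h3)
    | mul h1 h2 h3 => exact .mul (rn_sw h1) (rn_sw h2) (rn_sw h3)
    | op h1 h2 h3 h4 => exact .op (rn_sw h1) (rn_sw h2) (rn_sw h3) (rn_sw h4)

theorem rn_av {f : ℕ → ℕ} (hf : ∀ x, ok (f x)) : ∀ φ : Fm κ, Av (rn f φ) := by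
  intro φ
  induction φ with
  | imp φ ψ ih ih' => exact ⟨ih, ih'⟩
  | all u φ ih => exact ⟨hf _, ih⟩
  | _ => simp [rn, Av, hf]

theorem rn_id {f g : ℕ → ℕ} (h : ∀ x, ok x → f (g x) = x) :
    ∀ {φ : Fm κ}, Av φ → rn f (rn g φ) = φ := by
  intro φ
  induction φ with
  | imp φ ψ ih ih' => rintro ⟨h1, h2⟩; simp [rn, ih h1, ih' h2]
  | all u φ ih => rintro ⟨h1, h2⟩; simp [rn, ih h2, h _ h1]
  | bot => intro _; rfl
  | zero x => intro h1; simp [rn, h _ h1]
  | eq x y => rintro ⟨h1, h2⟩; simp [rn, h _ h1, h _ h2]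
  | succ x y => rintro ⟨h1, h2⟩; simp [rn, h _ h1, h _ h2]
  | add x y z => rintro ⟨h1, h2, h3⟩; simp [rn, h _ h1, h _ h2, h _ h3]
  | mul x y z => rintro ⟨h1, h2, h3⟩; simp [rn, h _ h1, h _ h2, h _ h3]
  | op i a b c d => rintro ⟨h1, h2, h3, h4⟩; simp [rn, h _ h1, h _ h2, h _ h3, h _ h4]

theorem upd_comp {M : Type} {f : ℕ → ℕ} (hf : Function.Injective f) (v : ℕ → M) (x : ℕ) (a : M) :
    upd v (f x) a ∘ f = upd (v ∘ f) x a := by
  funext z
  unfold upd
  simp [Function.comp, hf.eq_iff]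

theorem sat_rn {S : Str κ} {f : ℕ → ℕ} (hf : Function.Injective f) :
    ∀ {φ : Fm κ} {v : ℕ → S.M}, Fm.Sat S (rn f φ) v ↔ Fm.Sat S φ (v ∘ f) := by
  intro φ
  induction φ with
  | imp φ ψ ih ih' => intro v; simp only [rn, Fm.sat_imp, ih, ih']
  | all u φ ih => intro v; simp only [rn, Fm.sat_all, ih, upd_comp hf]
  | _ => intro v; simp [rn]

/-- provability, the variables `5`, `6`, `7`, `8` do not occur -/
inductive PvA (T : Fm κ → Prop) : Fm κ → Prop
  | ax {φ : Fm κ} : T φ → Av φ → PvA T φ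
  | log {φ : Fm κ} : LogK φ → Av φ → PvA T φ
  | mp {φ ψ : Fm κ} : PvA T (φ.imp ψ) → PvA T φ → PvA T ψ
  | gen {φ : Fm κ} (x : ℕ) : ok x → PvA T φ → PvA T (Fm.all x φ)

theorem PvA.av {T : Fm κ → Prop} {φ : Fm κ} (h : PvA T φ) : Av φ := by
  induction h with
  | ax _ h => exact h
  | log _ h => exact h
  | mp _ _ ih _ => exact ih.2
  | gen x hx _ ih => exact ⟨hx, ih⟩

theorem pv_rn {T T' : Fm κ → Prop} {f : ℕ → ℕ} (hf : Function.Injective f) (hf' : ∀ x, ok (f x))
    (hT : ∀ φ, T φ → T' (rn f φ)) {φ : Fm κ} (h : Pv T φ) : PvA T' (rn f φ) := by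
  induction h with
  | ax h => exact PvA.ax (hT _ h) (rn_av hf' _)
  | log h => exact PvA.log (rn_log hf h) (rn_av hf' _)
  | mp _ _ ih ih' => exact PvA.mp ih ih'
  | gen x _ ih => exact PvA.gen _ (hf' _) ih

/-- the completeness theorem, as a statement -/
def Complete (κ : Type) : Prop :=
  ∀ (T : List (Fm κ)) (φ : Fm κ), (∀ ψ ∈ T, ψ.Closed) → φ.Closed →
    (∀ (S : Str κ) (v : ℕ → S.M), (∀ ψ ∈ T, Fm.Sat S ψ v) → Fm.Sat S φ v) →
    Pv (fun ψ => ψ ∈ T) φ

theorem completeA (hc : Complete κ) (T : List (Fm κ)) (φ : Fm κ) (hT : ∀ ψ ∈ T, ψ.Closed)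
    (hφ : φ.Closed) (hTa : ∀ ψ ∈ T, Av ψ) (hφa : Av φ)
    (h : ∀ (S : Str κ) (v : ℕ → S.M), (∀ ψ ∈ T, Fm.Sat S ψ v) → Fm.Sat S φ v) :
    PvA (fun ψ => ψ ∈ T) φ := by
  let f : ℕ → ℕ := fun x => if x < 5 then x else x + 4
  let g : ℕ → ℕ := fun x => if x < 5 then x else x - 4
  have hf : Function.Injective f := by
    intro x y e
    simp only [f] at e
    split_ifs at e <;> omega
  have hf' : ∀ x, ok (f x) := by
    intro x
    simp only [f, ok]
    split_ifs <;> omega
  have hfg : ∀ x, ok x → f (g x) = x := by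
    intro x hx
    simp only [ok] at hx
    simp only [f, g]
    split_ifs <;> omega
  have h1 : Pv (fun ψ => ψ ∈ T.map (rn g)) (rn g φ) := by
    refine hc _ _ ?_ (rn_closed hφ) ?_
    · intro ψ hψ
      obtain ⟨χ, h1, rfl⟩ := List.mem_map.1 hψ
      exact rn_closed (hT _ h1)
    · intro S w hw
      have := S.ne
      obtain ⟨v, hv⟩ : ∃ v : ℕ → S.M, v ∘ f = w := by
        refine ⟨fun y => w (Function.invFun f y), ?_⟩
        funext x
        simp only [Function.comp]
        rw [Function.leftInverse_invFun hf x]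
      have h2 : ∀ ψ : Fm κ, Av ψ → (Fm.Sat S (rn g ψ) w ↔ Fm.Sat S ψ v) := by
        intro ψ hψ
        rw [← hv, ← sat_rn hf, rn_id hfg hψ]
      rw [h2 _ hφa]
      refine h S v fun ψ hψ => ?_
      rw [← h2 _ (hTa _ hψ)]
      exact hw _ (List.mem_map_of_mem hψ)
  have h2 := pv_rn (T' := fun ψ => ψ ∈ T) hf hf' (fun ψ hψ => by
    obtain ⟨χ, h1, rfl⟩ := List.mem_map.1 hψ
    rw [rn_id hfg (hTa _ h1)]
    exact h1) h1
  rwa [rn_id hfg hφa] at h2

variable {J : Type}

theorem ud_tr {Γ C : J → List Form} {N : J → ℕ} {ι : J → κ → Form} (hι : ∀ j, Okι (ι j))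
    (hN : ∀ j i, (ι j i).len ≤ N j) {T : Fm κ → Prop}
    (hT : ∀ ψ, T ψ → ∀ j, tr (ι j) ψ ∈ C j) {φ : Fm κ} (h : PvA T φ) :
    UD Γ C N (fun j => tr (ι j) φ) := by
  induction h with
  | ax h _ => exact UD.hyp (ub_tr hN _) (hT _ h)
  | mp _ _ ih ih' => exact UD.mp ih ih'
  | gen x _ _ ih => exact UD.gen x ih
  | log h ha =>
    cases h with
    | k φ ψ => exact UD.log (ub_tr hN _) fun j => LogAx.k _ _
    | s φ ψ χ => exact UD.log (ub_tr hN _) fun j => LogAx.s _ _ _
    | dn φ => exact UD.log (ub_tr hN _) fun j => LogAx.dn _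
    | inst x y φ h =>
      refine UD.log (ub_tr hN _) fun j => ?_
      have hx : ok x := ha.1.1
      have ha1 : Av φ := ha.1.2
      simp only [tr]
      by_cases hy : ok y
      · rw [tr_subst (hι j) hx ha1]
        exact LogAx.inst _ _ _ (tr_freeFor (hι j) hx hy h)
      · have hf : ¬ φ.Free x := by
          intro hf
          apply hy
          have h2 : Av (φ.subst x y) := ha.2
          clear ha h
          induction φ with
          | bot => exact absurd hf (by simp [Fm.Free])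
          | eq u v =>
            simp only [Fm.subst, Av] at h2
            rcases hf with rfl | rfl
            · simpa [ren] using h2.1
            · simpa [ren] using h2.2
          | zero u =>
            simp only [Fm.subst, Av, Fm.Free] at h2 hf
            subst hf
            simpa [ren] using h2
          | succ u v =>
            simp only [Fm.subst, Av] at h2
            rcases hf with rfl | rfl
            · simpa [ren] using h2.1
            · simpa [ren] using h2.2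
          | add u v w =>
            simp only [Fm.subst, Av] at h2
            rcases hf with rfl | rfl | rfl
            · simpa [ren] using h2.1
            · simpa [ren] using h2.2.1
            · simpa [ren] using h2.2.2
          | mul u v w =>
            simp only [Fm.subst, Av] at h2
            rcases hf with rfl | rfl | rfl
            · simpa [ren] using h2.1
            · simpa [ren] using h2.2.1
            · simpa [ren] using h2.2.2
          | op i a b c d =>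
            simp only [Fm.subst, Av] at h2
            rcases hf with rfl | rfl | rfl | rfl
            · simpa [ren] using h2.1
            · simpa [ren] using h2.2.1
            · simpa [ren] using h2.2.2.1
            · simpa [ren] using h2.2.2.2
          | imp φ ψ ih ih' =>
            rcases hf with hf | hf
            · exact ih ha1.1 hf h2.1
            · exact ih' ha1.2 hf h2.2
          | all u φ ih =>
            simp only [Fm.subst] at h2
            rw [if_neg (fun e => hf.1 e.symm)] at h2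
            exact ih ha1.2 hf.2 h2.2
        have hf' : ¬ (tr (ι j) φ).Free x := fun h' => hf ((tr_free (hι j) hx).1 h')
        rw [tr_subst (hι j) hx ha1]
        exact LogAx.inst _ _ _ (freeFor_of_not_free _ hf')
    | dist x φ ψ h =>
      exact UD.log (ub_tr hN _) fun j => LogAx.dist _ _ _
        (fun h' => h ((tr_free (hι j) ha.1.1).1 h'))
    | refl x => exact UD.log (ub_tr hN _) fun j => LogAx.refl _
    | repl x y φ ψ h =>
      cases h with
      | eq h1 h2 => exact UD.log (ub_tr hN _) fun j => LogAx.repl _ _ _ _ (.eq h1 h2)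
      | zero h1 => exact UD.log (ub_tr hN _) fun j => LogAx.repl _ _ _ _ (.zero h1)
      | succ h1 h2 => exact UD.log (ub_tr hN _) fun j => LogAx.repl _ _ _ _ (.succ h1 h2)
      | add h1 h2 h3 => exact UD.log (ub_tr hN _) fun j => LogAx.repl _ _ _ _ (.add h1 h2 h3)
      | mul h1 h2 h3 => exact UD.log (ub_tr hN _) fun j => LogAx.repl _ _ _ _ (.mul h1 h2 h3)
      | @op i a b c d a' b' c' d' h1 h2 h3 h4 =>
        simp only [tr]
        obtain ⟨⟨hx, hy⟩, ⟨ha, hb, hc, hd⟩, ha', hb', hc', hd'⟩ := ha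
        exact nd_repl (θ := fun j => ι j i) ⟨1, fun j => by
          have h2 := hN j i
          show (ι j i).len ≤ 1 * (N j + 1)
          omega⟩ hx hy ha hb hc hd ha' hb' hc' h1 h2 h3 h4

/-- The step theorem: semantic consequences can be derived uniformly. -/
theorem step (hc : Complete κ) (T : List (Fm κ)) (φ : Fm κ) (hT : ∀ ψ ∈ T, ψ.Closed)
    (hφ : φ.Closed) (hTa : ∀ ψ ∈ T, Av ψ) (hφa : Av φ)
    (h : ∀ (S : Str κ) (v : ℕ → S.M), (∀ ψ ∈ T, Fm.Sat S ψ v) → Fm.Sat S φ v) :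
    ∃ K, ∀ (ι : κ → Form) (N : ℕ) (Γ C : List Form), Okι ι → (∀ i, (ι i).len ≤ N) →
      (∀ ψ ∈ T, tr ι ψ ∈ C) → Ext Γ C (K * (N + 1)) (tr ι φ) := by
  let J := {p : (κ → Form) × ℕ × List Form × List Form //
    Okι p.1 ∧ (∀ i, (p.1 i).len ≤ p.2.1) ∧ (∀ ψ ∈ T, tr p.1 ψ ∈ p.2.2.2)}
  obtain ⟨_, K, hK⟩ := ud_tr (J := J) (Γ := fun j => j.1.2.2.1) (C := fun j => j.1.2.2.2)
    (N := fun j => j.1.2.1) (ι := fun j => j.1.1) (fun j => j.2.1) (fun j => j.2.2.1)
    (T := fun ψ => ψ ∈ T) (fun ψ hψ j => j.2.2.2 ψ hψ) (completeA hc T φ hT hφ hTa hφa h)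
  exact ⟨K, fun ι N Γ C h1 h2 h3 => hK ⟨(ι, N, Γ, C), h1, h2, h3⟩⟩

end Pool.Agent.TH672
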