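import Pool.Agent.TH672.Defs

/-!
# Arithmetical predicates and rules
-/

set_option autoImplicit false

namespace Pool.Agent.TH672

/-- A predicate of assignments is arithmetical: it is defined by a formula. -/
def Ar (R : (ℕ → ℕ) → Prop) : Prop := ∃ φ : Form, ∀ v, φ.Holds v ↔ R v

/-- Terms. -/
inductive Tm : Type
  | var (i : ℕ) : Tm
  | zero : Tm
  | succ (t : Tm) : Tm
  | pair (s t : Tm) : Tm

/-- The value of a term. -/
def Tm.eval (ρ : ℕ → ℕ) : Tm → ℕ
  | var i => ρ i
  | zero => 0
  | succ t => t.eval ρ + 1
  | pair s t => Nat.pair (s.eval ρ) (t.eval ρ)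

/-- A rule: the conclusion, the premises and a side condition. -/
structure Rule : Type where
  /-- the conclusion -/
  concl : Tm
  /-- the premises -/
  prems : List Tm
  /-- the side condition -/
  side : (ℕ → ℕ) → Prop

/-- What can be derived by the rules. -/
inductive Derivable (R : List Rule) : ℕ → Prop
  | intro (r : Rule) (hr : r ∈ R) (ρ : ℕ → ℕ) (hs : r.side ρ)
      (h : ∀ t ∈ r.prems, Derivable R (t.eval ρ)) : Derivable R (r.concl.eval ρ)

end Pool.Agent.TH672
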