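import Pool.Agent.TH672.Mod

/-!
# The sentences are closed and avoid the variables 5, 6, 7, 8
-/

set_option autoImplicit false
set_option linter.all false

namespace Pool.Agent.TH672

open Fm

theorem free_emb' {φ : Form} (x : ℕ) (h : (emb' φ).Free x) : ∃ y, φ.Free y ∧ x = rf y := by
  obtain ⟨y, h1, h2⟩ := rn_free h
  exact ⟨y, free_emb.1 h1, h2⟩

theorem av_appS' : ∀ (σ : List Bool) {w z : ℕ}, Av (appS σ w z) ↔ ok w ∧ ok z
  | [], w, z => Iff.rfl
  | b :: σ, w, z => by
    have h1 : ok (if w = 80 then 81 else 80) := by split_ifs <;> decide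
    simp only [appS, av_ex', av_and', av_apf, av_appS' σ, h1, true_and, and_true]

theorem av_isS' (σ : List Bool) {z : ℕ} : Av (isS σ z) ↔ ok z := by
  have h1 : ok 79 := by decide
  simp only [isS, av_ex', av_and', Av, av_appS', h1, true_and]

theorem closed_T1 (P : Form) (hP : ∀ x, P.Free x → x = 2 ∨ x = 3 ∨ x = 4) :
    ∀ φ ∈ T1 P, φ.Closed := by
  intro φ hφ
  simp only [T1, List.mem_cons, List.not_mem_nil, or_false] at hφ
  rcases hφ with rfl | rfl | rfl | rfl | rfl | rfl | rfl | rfl | rfl | rfl | rfl | rfl | rfl |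
    rfl | rfl | rfl | rfl | rfl | rfl | rfl | rfl | rfl | rfl | rfl | rfl | rfl |
    rfl | rfl | rfl | rfl | rfl | rfl | rfl | rfl | rfl | rfl | rfl | rfl | rfl | rfl |
    rfl | rfl | rfl | rfl | rfl | rfl | rfl | rfl | rfl | rfl | rfl | rfl | rfl | rfl
  · intro x hx
    simp [tC1, free_alls, free_exs, Fm.Free, free_isS, free_apf, free_appS, pre1, pre2, pre3, preI,
      preA, fK, fS, fN, fI, fD, fR, fMP, fG] at hx
    try omega
  · intro x hx
    simp [tC2, free_alls, free_exs, Fm.Free, free_isS, free_apf, free_appS, pre1, pre2, pre3, preI,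
      preA, fK, fS, fN, fI, fD, fR, fMP, fG] at hx
    try omega
  · intro x hx
    simp [tC2, free_alls, free_exs, Fm.Free, free_isS, free_apf, free_appS, pre1, pre2, pre3, preI,
      preA, fK, fS, fN, fI, fD, fR, fMP, fG] at hx
    try omega
  · intro x hx
    simp [tV1, free_alls, free_exs, Fm.Free, free_isS, free_apf, free_appS, pre1, pre2, pre3, preI,
      preA, fK, fS, fN, fI, fD, fR, fMP, fG] at hx
    try omega
  · intro x hx
    simp [tV2, free_alls, free_exs, Fm.Free, free_isS, free_apf, free_appS, pre1, pre2, pre3, preI,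
      preA, fK, fS, fN, fI, fD, fR, fMP, fG] at hx
    try omega
  · intro x hx
    simp [tF0, free_alls, free_exs, Fm.Free, free_isS, free_apf, free_appS, pre1, pre2, pre3, preI,
      preA, fK, fS, fN, fI, fD, fR, fMP, fG] at hx
    try omega
  · intro x hx
    simp [tF1, free_alls, free_exs, Fm.Free, free_isS, free_apf, free_appS, pre1, pre2, pre3, preI,
      preA, fK, fS, fN, fI, fD, fR, fMP, fG] at hx
    try omega
  · intro x hx
    simp [tF2, free_alls, free_exs, Fm.Free, free_isS, free_apf, free_appS, pre1, pre2, pre3, preI,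
      preA, fK, fS, fN, fI, fD, fR, fMP, fG] at hx
    try omega
  · intro x hx
    simp [tF2, free_alls, free_exs, Fm.Free, free_isS, free_apf, free_appS, pre1, pre2, pre3, preI,
      preA, fK, fS, fN, fI, fD, fR, fMP, fG] at hx
    try omega
  · intro x hx
    simp [tF3, free_alls, free_exs, Fm.Free, free_isS, free_apf, free_appS, pre1, pre2, pre3, preI,
      preA, fK, fS, fN, fI, fD, fR, fMP, fG] at hx
    try omega
  · intro x hx
    simp [tF3, free_alls, free_exs, Fm.Free, free_isS, free_apf, free_appS, pre1, pre2, pre3, preI,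
      preA, fK, fS, fN, fI, fD, fR, fMP, fG] at hx
    try omega
  · intro x hx
    simp [tF6, free_alls, free_exs, Fm.Free, free_isS, free_apf, free_appS, pre1, pre2, pre3, preI,
      preA, fK, fS, fN, fI, fD, fR, fMP, fG] at hx
    try omega
  · intro x hx
    simp [tF7, free_alls, free_exs, Fm.Free, free_isS, free_apf, free_appS, pre1, pre2, pre3, preI,
      preA, fK, fS, fN, fI, fD, fR, fMP, fG] at hx
    try omega
  · intro x hx
    simp [tL1, free_alls, free_exs, Fm.Free, free_isS, free_apf, free_appS, pre1, pre2, pre3, preI,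
      preA, fK, fS, fN, fI, fD, fR, fMP, fG] at hx
    try omega
  · intro x hx
    simp [tL2, free_alls, free_exs, Fm.Free, free_isS, free_apf, free_appS, pre1, pre2, pre3, preI,
      preA, fK, fS, fN, fI, fD, fR, fMP, fG] at hx
    try omega
  · intro x hx
    simp [tL3, free_alls, free_exs, Fm.Free, free_isS, free_apf, free_appS, pre1, pre2, pre3, preI,
      preA, fK, fS, fN, fI, fD, fR, fMP, fG] at hx
    try omega
  · intro x hx
    simp [tL4, free_alls, free_exs, Fm.Free, free_isS, free_apf, free_appS, pre1, pre2, pre3, preI,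
      preA, fK, fS, fN, fI, fD, fR, fMP, fG] at hx
    try omega
  · intro x hx
    simp [tK0, free_alls, free_exs, Fm.Free, free_isS, free_apf, free_appS, pre1, pre2, pre3, preI,
      preA, fK, fS, fN, fI, fD, fR, fMP, fG] at hx
    try omega
  · intro x hx
    simp [tK0', free_alls, free_exs, Fm.Free, free_isS, free_apf, free_appS, pre1, pre2, pre3, preI,
      preA, fK, fS, fN, fI, fD, fR, fMP, fG] at hx
    try omega
  · intro x hx
    simp [tK1, free_alls, free_exs, Fm.Free, free_isS, free_apf, free_appS, pre1, pre2, pre3, preI,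
      preA, fK, fS, fN, fI, fD, fR, fMP, fG] at hx
    try omega
  · intro x hx
    simp [tK2, free_alls, free_exs, Fm.Free, free_isS, free_apf, free_appS, pre1, pre2, pre3, preI,
      preA, fK, fS, fN, fI, fD, fR, fMP, fG] at hx
    try omega
  · intro x hx
    simp [tK3, free_alls, free_exs, Fm.Free, free_isS, free_apf, free_appS, pre1, pre2, pre3, preI,
      preA, fK, fS, fN, fI, fD, fR, fMP, fG] at hx
    try omega
  · intro x hx
    simp [tK4, free_alls, free_exs, Fm.Free, free_isS, free_apf, free_appS, pre1, pre2, pre3, preI,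
      preA, fK, fS, fN, fI, fD, fR, fMP, fG] at hx
    try omega
  · intro x hx
    simp [tK5, free_alls, free_exs, Fm.Free, free_isS, free_apf, free_appS, pre1, pre2, pre3, preI,
      preA, fK, fS, fN, fI, fD, fR, fMP, fG] at hx
    try omega
  · intro x hx
    simp [tK6, free_alls, free_exs, Fm.Free, free_isS, free_apf, free_appS, pre1, pre2, pre3, preI,
      preA, fK, fS, fN, fI, fD, fR, fMP, fG] at hx
    try omega
  · intro x hx
    simp [tK7, free_alls, free_exs, Fm.Free, free_isS, free_apf, free_appS, pre1, pre2, pre3, preI,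
      preA, fK, fS, fN, fI, fD, fR, fMP, fG] at hx
    try omega
  · intro x hx
    simp [tD0, free_alls, free_exs, Fm.Free, free_isS, free_apf, free_appS, pre1, pre2, pre3, preI,
      preA, fK, fS, fN, fI, fD, fR, fMP, fG] at hx
    try omega
  · intro x hx
    simp [tD1, free_alls, free_exs, Fm.Free, free_isS, free_apf, free_appS, pre1, pre2, pre3, preI,
      preA, fK, fS, fN, fI, fD, fR, fMP, fG] at hx
    try omega
  · intro x hx
    simp [tD2, free_alls, free_exs, Fm.Free, free_isS, free_apf, free_appS, pre1, pre2, pre3, preI,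
      preA, fK, fS, fN, fI, fD, fR, fMP, fG] at hx
    try omega
  · intro x hx
    simp [tD3, free_alls, free_exs, Fm.Free, free_isS, free_apf, free_appS, pre1, pre2, pre3, preI,
      preA, fK, fS, fN, fI, fD, fR, fMP, fG] at hx
    try omega
  · intro x hx
    simp [tD4, free_alls, free_exs, Fm.Free, free_isS, free_apf, free_appS, pre1, pre2, pre3, preI,
      preA, fK, fS, fN, fI, fD, fR, fMP, fG] at hx
    try omega
  · intro x hx
    simp [tD5, free_alls, free_exs, Fm.Free, free_isS, free_apf, free_appS, pre1, pre2, pre3, preI,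
      preA, fK, fS, fN, fI, fD, fR, fMP, fG] at hx
    try omega
  · intro x hx
    simp [tD6, free_alls, free_exs, Fm.Free, free_isS, free_apf, free_appS, pre1, pre2, pre3, preI,
      preA, fK, fS, fN, fI, fD, fR, fMP, fG] at hx
    try omega
  · intro x hx
    simp [tD7, free_alls, free_exs, Fm.Free, free_isS, free_apf, free_appS, pre1, pre2, pre3, preI,
      preA, fK, fS, fN, fI, fD, fR, fMP, fG] at hx
    try omega
  · intro x hx
    simp [tD8, free_alls, free_exs, Fm.Free, free_isS, free_apf, free_appS, pre1, pre2, pre3, preI,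
      preA, fK, fS, fN, fI, fD, fR, fMP, fG] at hx
    try omega
  · intro x hx
    simp [tQ0, free_alls, free_exs, Fm.Free, free_isS, free_apf, free_appS, pre1, pre2, pre3, preI,
      preA, fK, fS, fN, fI, fD, fR, fMP, fG] at hx
    try omega
  · intro x hx
    simp [tQ1, free_alls, free_exs, Fm.Free, free_isS, free_apf, free_appS, pre1, pre2, pre3, preI,
      preA, fK, fS, fN, fI, fD, fR, fMP, fG] at hx
    try omega
  · intro x hx
    simp [tQ2, free_alls, free_exs, Fm.Free, free_isS, free_apf, free_appS, pre1, pre2, pre3, preI,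
      preA, fK, fS, fN, fI, fD, fR, fMP, fG] at hx
    try omega
  · intro x hx
    simp [tQ3, free_alls, free_exs, Fm.Free, free_isS, free_apf, free_appS, pre1, pre2, pre3, preI,
      preA, fK, fS, fN, fI, fD, fR, fMP, fG] at hx
    try omega
  · intro x hx
    simp [tQ4, free_alls, free_exs, Fm.Free, free_isS, free_apf, free_appS, pre1, pre2, pre3, preI,
      preA, fK, fS, fN, fI, fD, fR, fMP, fG] at hx
    try omega
  · intro x hx
    simp [tT1, free_alls, free_exs, Fm.Free, free_isS, free_apf, free_appS, pre1, pre2, pre3, preI,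
      preA, fK, fS, fN, fI, fD, fR, fMP, fG] at hx
    try omega
  · intro x hx
    simp [tT1, free_alls, free_exs, Fm.Free, free_isS, free_apf, free_appS, pre1, pre2, pre3, preI,
      preA, fK, fS, fN, fI, fD, fR, fMP, fG] at hx
    try omega
  · intro x hx
    simp [tT1, free_alls, free_exs, Fm.Free, free_isS, free_apf, free_appS, pre1, pre2, pre3, preI,
      preA, fK, fS, fN, fI, fD, fR, fMP, fG] at hx
    try omega
  · intro x hx
    simp [tT2, free_alls, free_exs, Fm.Free, free_isS, free_apf, free_appS, pre1, pre2, pre3, preI,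
      preA, fK, fS, fN, fI, fD, fR, fMP, fG] at hx
    try omega
  · intro x hx
    simp [tT2, free_alls, free_exs, Fm.Free, free_isS, free_apf, free_appS, pre1, pre2, pre3, preI,
      preA, fK, fS, fN, fI, fD, fR, fMP, fG] at hx
    try omega
  · intro x hx
    simp [tT2, free_alls, free_exs, Fm.Free, free_isS, free_apf, free_appS, pre1, pre2, pre3, preI,
      preA, fK, fS, fN, fI, fD, fR, fMP, fG] at hx
    try omega
  · intro x hx
    simp [tT2, free_alls, free_exs, Fm.Free, free_isS, free_apf, free_appS, pre1, pre2, pre3, preI,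
      preA, fK, fS, fN, fI, fD, fR, fMP, fG] at hx
    try omega
  · intro x hx
    simp [tT2, free_alls, free_exs, Fm.Free, free_isS, free_apf, free_appS, pre1, pre2, pre3, preI,
      preA, fK, fS, fN, fI, fD, fR, fMP, fG] at hx
    try omega
  · intro x hx
    simp [tT2, free_alls, free_exs, Fm.Free, free_isS, free_apf, free_appS, pre1, pre2, pre3, preI,
      preA, fK, fS, fN, fI, fD, fR, fMP, fG] at hx
    try omega
  · intro x hx
    simp [tN1, free_alls, free_exs, Fm.Free, free_isS, free_apf, free_appS, pre1, pre2, pre3, preI,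
      preA, fK, fS, fN, fI, fD, fR, fMP, fG] at hx
    try omega
  · intro x hx
    simp [tN2, free_alls, free_exs, Fm.Free, free_isS, free_apf, free_appS, pre1, pre2, pre3, preI,
      preA, fK, fS, fN, fI, fD, fR, fMP, fG] at hx
    try omega
  · intro x hx
    simp [tN2, free_alls, free_exs, Fm.Free, free_isS, free_apf, free_appS, pre1, pre2, pre3, preI,
      preA, fK, fS, fN, fI, fD, fR, fMP, fG] at hx
    try omega
  · intro x hx
    simp [tR2, free_alls, free_exs, Fm.Free, free_isS, free_apf, free_appS, pre1, pre2, pre3, preI,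
      preA, fK, fS, fN, fI, fD, fR, fMP, fG] at hx
    try omega
  · intro x hx
    simp only [tP, free_alls, free_imps_cons, free_imps_nil, free_f3, List.mem_cons,
      List.not_mem_nil, or_false] at hx
    obtain ⟨h1, h2⟩ := hx
    rcases h2 with h2 | h2
    · obtain ⟨y, h3, h4⟩ := free_emb' x h2
      have h5 := hP y h3
      unfold rf at h4
      split_ifs at h4 <;> omega
    · omega

theorem av_T1 (P : Form) : ∀ φ ∈ T1 P, Av φ := by
  intro φ hφ
  simp only [T1, List.mem_cons, List.not_mem_nil, or_false] at hφ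
  rcases hφ with rfl | rfl | rfl | rfl | rfl | rfl | rfl | rfl | rfl | rfl | rfl | rfl | rfl |
    rfl | rfl | rfl | rfl | rfl | rfl | rfl | rfl | rfl | rfl | rfl | rfl | rfl |
    rfl | rfl | rfl | rfl | rfl | rfl | rfl | rfl | rfl | rfl | rfl | rfl | rfl | rfl |
    rfl | rfl | rfl | rfl | rfl | rfl | rfl | rfl | rfl | rfl | rfl | rfl | rfl | rfl
  · simp [tC1, av_alls, av_exs, Av, av_isS', av_apf, av_appS', av_emb', ok, pre1, pre2, pre3, preI,
      preA, fK, fS, fN, fI, fD, fR, fMP, fG]
  · simp [tC2, av_alls, av_exs, Av, av_isS', av_apf, av_appS', av_emb', ok, pre1, pre2, pre3, preI,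
      preA, fK, fS, fN, fI, fD, fR, fMP, fG]
  · simp [tC2, av_alls, av_exs, Av, av_isS', av_apf, av_appS', av_emb', ok, pre1, pre2, pre3, preI,
      preA, fK, fS, fN, fI, fD, fR, fMP, fG]
  · simp [tV1, av_alls, av_exs, Av, av_isS', av_apf, av_appS', av_emb', ok, pre1, pre2, pre3, preI,
      preA, fK, fS, fN, fI, fD, fR, fMP, fG]
  · simp [tV2, av_alls, av_exs, Av, av_isS', av_apf, av_appS', av_emb', ok, pre1, pre2, pre3, preI,
      preA, fK, fS, fN, fI, fD, fR, fMP, fG]
  · simp [tF0, av_alls, av_exs, Av, av_isS', av_apf, av_appS', av_emb', ok, pre1, pre2, pre3, preI,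
      preA, fK, fS, fN, fI, fD, fR, fMP, fG]
  · simp [tF1, av_alls, av_exs, Av, av_isS', av_apf, av_appS', av_emb', ok, pre1, pre2, pre3, preI,
      preA, fK, fS, fN, fI, fD, fR, fMP, fG]
  · simp [tF2, av_alls, av_exs, Av, av_isS', av_apf, av_appS', av_emb', ok, pre1, pre2, pre3, preI,
      preA, fK, fS, fN, fI, fD, fR, fMP, fG]
  · simp [tF2, av_alls, av_exs, Av, av_isS', av_apf, av_appS', av_emb', ok, pre1, pre2, pre3, preI,
      preA, fK, fS, fN, fI, fD, fR, fMP, fG]
  · simp [tF3, av_alls, av_exs, Av, av_isS', av_apf, av_appS', av_emb', ok, pre1, pre2, pre3, preI,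
      preA, fK, fS, fN, fI, fD, fR, fMP, fG]
  · simp [tF3, av_alls, av_exs, Av, av_isS', av_apf, av_appS', av_emb', ok, pre1, pre2, pre3, preI,
      preA, fK, fS, fN, fI, fD, fR, fMP, fG]
  · simp [tF6, av_alls, av_exs, Av, av_isS', av_apf, av_appS', av_emb', ok, pre1, pre2, pre3, preI,
      preA, fK, fS, fN, fI, fD, fR, fMP, fG]
  · simp [tF7, av_alls, av_exs, Av, av_isS', av_apf, av_appS', av_emb', ok, pre1, pre2, pre3, preI,
      preA, fK, fS, fN, fI, fD, fR, fMP, fG]
  · simp [tL1, av_alls, av_exs, Av, av_isS', av_apf, av_appS', av_emb', ok, pre1, pre2, pre3, preI,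
      preA, fK, fS, fN, fI, fD, fR, fMP, fG]
  · simp [tL2, av_alls, av_exs, Av, av_isS', av_apf, av_appS', av_emb', ok, pre1, pre2, pre3, preI,
      preA, fK, fS, fN, fI, fD, fR, fMP, fG]
  · simp [tL3, av_alls, av_exs, Av, av_isS', av_apf, av_appS', av_emb', ok, pre1, pre2, pre3, preI,
      preA, fK, fS, fN, fI, fD, fR, fMP, fG]
  · simp [tL4, av_alls, av_exs, Av, av_isS', av_apf, av_appS', av_emb', ok, pre1, pre2, pre3, preI,
      preA, fK, fS, fN, fI, fD, fR, fMP, fG]
  · simp [tK0, av_alls, av_exs, Av, av_isS', av_apf, av_appS', av_emb', ok, pre1, pre2, pre3, preI,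
      preA, fK, fS, fN, fI, fD, fR, fMP, fG]
  · simp [tK0', av_alls, av_exs, Av, av_isS', av_apf, av_appS', av_emb', ok, pre1, pre2, pre3, preI,
      preA, fK, fS, fN, fI, fD, fR, fMP, fG]
  · simp [tK1, av_alls, av_exs, Av, av_isS', av_apf, av_appS', av_emb', ok, pre1, pre2, pre3, preI,
      preA, fK, fS, fN, fI, fD, fR, fMP, fG]
  · simp [tK2, av_alls, av_exs, Av, av_isS', av_apf, av_appS', av_emb', ok, pre1, pre2, pre3, preI,
      preA, fK, fS, fN, fI, fD, fR, fMP, fG]
  · simp [tK3, av_alls, av_exs, Av, av_isS', av_apf, av_appS', av_emb', ok, pre1, pre2, pre3, preI,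
      preA, fK, fS, fN, fI, fD, fR, fMP, fG]
  · simp [tK4, av_alls, av_exs, Av, av_isS', av_apf, av_appS', av_emb', ok, pre1, pre2, pre3, preI,
      preA, fK, fS, fN, fI, fD, fR, fMP, fG]
  · simp [tK5, av_alls, av_exs, Av, av_isS', av_apf, av_appS', av_emb', ok, pre1, pre2, pre3, preI,
      preA, fK, fS, fN, fI, fD, fR, fMP, fG]
  · simp [tK6, av_alls, av_exs, Av, av_isS', av_apf, av_appS', av_emb', ok, pre1, pre2, pre3, preI,
      preA, fK, fS, fN, fI, fD, fR, fMP, fG]
  · simp [tK7, av_alls, av_exs, Av, av_isS', av_apf, av_appS', av_emb', ok, pre1, pre2, pre3, preI,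
      preA, fK, fS, fN, fI, fD, fR, fMP, fG]
  · simp [tD0, av_alls, av_exs, Av, av_isS', av_apf, av_appS', av_emb', ok, pre1, pre2, pre3, preI,
      preA, fK, fS, fN, fI, fD, fR, fMP, fG]
  · simp [tD1, av_alls, av_exs, Av, av_isS', av_apf, av_appS', av_emb', ok, pre1, pre2, pre3, preI,
      preA, fK, fS, fN, fI, fD, fR, fMP, fG]
  · simp [tD2, av_alls, av_exs, Av, av_isS', av_apf, av_appS', av_emb', ok, pre1, pre2, pre3, preI,
      preA, fK, fS, fN, fI, fD, fR, fMP, fG]
  · simp [tD3, av_alls, av_exs, Av, av_isS', av_apf, av_appS', av_emb', ok, pre1, pre2, pre3, preI,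
      preA, fK, fS, fN, fI, fD, fR, fMP, fG]
  · simp [tD4, av_alls, av_exs, Av, av_isS', av_apf, av_appS', av_emb', ok, pre1, pre2, pre3, preI,
      preA, fK, fS, fN, fI, fD, fR, fMP, fG]
  · simp [tD5, av_alls, av_exs, Av, av_isS', av_apf, av_appS', av_emb', ok, pre1, pre2, pre3, preI,
      preA, fK, fS, fN, fI, fD, fR, fMP, fG]
  · simp [tD6, av_alls, av_exs, Av, av_isS', av_apf, av_appS', av_emb', ok, pre1, pre2, pre3, preI,
      preA, fK, fS, fN, fI, fD, fR, fMP, fG]
  · simp [tD7, av_alls, av_exs, Av, av_isS', av_apf, av_appS', av_emb', ok, pre1, pre2, pre3, preI,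
      preA, fK, fS, fN, fI, fD, fR, fMP, fG]
  · simp [tD8, av_alls, av_exs, Av, av_isS', av_apf, av_appS', av_emb', ok, pre1, pre2, pre3, preI,
      preA, fK, fS, fN, fI, fD, fR, fMP, fG]
  · simp [tQ0, av_alls, av_exs, Av, av_isS', av_apf, av_appS', av_emb', ok, pre1, pre2, pre3, preI,
      preA, fK, fS, fN, fI, fD, fR, fMP, fG]
  · simp [tQ1, av_alls, av_exs, Av, av_isS', av_apf, av_appS', av_emb', ok, pre1, pre2, pre3, preI,
      preA, fK, fS, fN, fI, fD, fR, fMP, fG]
  · simp [tQ2, av_alls, av_exs, Av, av_isS', av_apf, av_appS', av_emb', ok, pre1, pre2, pre3, preI,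
      preA, fK, fS, fN, fI, fD, fR, fMP, fG]
  · simp [tQ3, av_alls, av_exs, Av, av_isS', av_apf, av_appS', av_emb', ok, pre1, pre2, pre3, preI,
      preA, fK, fS, fN, fI, fD, fR, fMP, fG]
  · simp [tQ4, av_alls, av_exs, Av, av_isS', av_apf, av_appS', av_emb', ok, pre1, pre2, pre3, preI,
      preA, fK, fS, fN, fI, fD, fR, fMP, fG]
  · simp [tT1, av_alls, av_exs, Av, av_isS', av_apf, av_appS', av_emb', ok, pre1, pre2, pre3, preI,
      preA, fK, fS, fN, fI, fD, fR, fMP, fG]
  · simp [tT1, av_alls, av_exs, Av, av_isS', av_apf, av_appS', av_emb', ok, pre1, pre2, pre3, preI,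
      preA, fK, fS, fN, fI, fD, fR, fMP, fG]
  · simp [tT1, av_alls, av_exs, Av, av_isS', av_apf, av_appS', av_emb', ok, pre1, pre2, pre3, preI,
      preA, fK, fS, fN, fI, fD, fR, fMP, fG]
  · simp [tT2, av_alls, av_exs, Av, av_isS', av_apf, av_appS', av_emb', ok, pre1, pre2, pre3, preI,
      preA, fK, fS, fN, fI, fD, fR, fMP, fG]
  · simp [tT2, av_alls, av_exs, Av, av_isS', av_apf, av_appS', av_emb', ok, pre1, pre2, pre3, preI,
      preA, fK, fS, fN, fI, fD, fR, fMP, fG]
  · simp [tT2, av_alls, av_exs, Av, av_isS', av_apf, av_appS', av_emb', ok, pre1, pre2, pre3, preI,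
      preA, fK, fS, fN, fI, fD, fR, fMP, fG]
  · simp [tT2, av_alls, av_exs, Av, av_isS', av_apf, av_appS', av_emb', ok, pre1, pre2, pre3, preI,
      preA, fK, fS, fN, fI, fD, fR, fMP, fG]
  · simp [tT2, av_alls, av_exs, Av, av_isS', av_apf, av_appS', av_emb', ok, pre1, pre2, pre3, preI,
      preA, fK, fS, fN, fI, fD, fR, fMP, fG]
  · simp [tT2, av_alls, av_exs, Av, av_isS', av_apf, av_appS', av_emb', ok, pre1, pre2, pre3, preI,
      preA, fK, fS, fN, fI, fD, fR, fMP, fG]
  · simp [tN1, av_alls, av_exs, Av, av_isS', av_apf, av_appS', av_emb', ok, pre1, pre2, pre3, preI,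
      preA, fK, fS, fN, fI, fD, fR, fMP, fG]
  · simp [tN2, av_alls, av_exs, Av, av_isS', av_apf, av_appS', av_emb', ok, pre1, pre2, pre3, preI,
      preA, fK, fS, fN, fI, fD, fR, fMP, fG]
  · simp [tN2, av_alls, av_exs, Av, av_isS', av_apf, av_appS', av_emb', ok, pre1, pre2, pre3, preI,
      preA, fK, fS, fN, fI, fD, fR, fMP, fG]
  · simp [tR2, av_alls, av_exs, Av, av_isS', av_apf, av_appS', av_emb', ok, pre1, pre2, pre3, preI,
      preA, fK, fS, fN, fI, fD, fR, fMP, fG]
  · simp [tP, av_alls, av_exs, Av, av_isS', av_apf, av_appS', av_emb', ok, pre1, pre2, pre3, preI,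
      preA, fK, fS, fN, fI, fD, fR, fMP, fG]

end Pool.Agent.TH672
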