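import Pool.Agent.TH672.Cl

/-!
# The sentences do not use the symbols `o j`
-/

set_option autoImplicit false
set_option linter.all false

namespace Pool.Agent.TH672

open Fm

theorem uses_alls {φ : Fm Sy} {s : Sy} : ∀ {l : List ℕ}, Uses s (alls l φ) ↔ Uses s φ
  | [] => Iff.rfl
  | _ :: l => by simp [alls, Uses, uses_alls]

theorem uses_imps_nil {φ : Fm Sy} {s : Sy} : Uses s (imps [] φ) ↔ Uses s φ := Iff.rfl
theorem uses_imps_cons {φ ψ : Fm Sy} {l : List (Fm Sy)} {s : Sy} :
    Uses s (imps (ψ :: l) φ) ↔ Uses s ψ ∨ Uses s (imps l φ) := Iff.rfl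

section
variable {κ : Type} (φ ψ : Fm κ) (y : ℕ) (s : κ)
theorem uses_neg : Uses s (Fm.neg φ) ↔ Uses s φ := by simp [Fm.neg, Uses]
theorem uses_and : Uses s (Fm.and φ ψ) ↔ Uses s φ ∨ Uses s ψ := by simp [Fm.and, Fm.neg, Uses]
theorem uses_or : Uses s (Fm.or φ ψ) ↔ Uses s φ ∨ Uses s ψ := by simp [Fm.or, Fm.neg, Uses]
theorem uses_iff : Uses s (Fm.iff φ ψ) ↔ Uses s φ ∨ Uses s ψ := by
  simp only [Fm.iff, uses_and, Uses]; tauto
theorem uses_ex : Uses s (Fm.ex y φ) ↔ Uses s φ := by simp [Fm.ex, Fm.neg, Uses]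
end

theorem uses_exs {φ : Fm Sy} {s : Sy} : ∀ {l : List ℕ}, Uses s (exs l φ) ↔ Uses s φ
  | [] => Iff.rfl
  | _ :: l => by simp [exs, uses_ex, uses_exs]

theorem uses_ands_nil {φ : Fm Sy} {s : Sy} : Uses s (ands [] φ) ↔ Uses s φ := Iff.rfl
theorem uses_ands_cons {φ ψ : Fm Sy} {l : List (Fm Sy)} {s : Sy} :
    Uses s (ands (ψ :: l) φ) ↔ Uses s ψ ∨ Uses s (ands l φ) := by simp [ands, uses_and]

theorem uses_f1 (s t : Sy) (a : ℕ) : Uses s (f1 t a) ↔ t = s := Iff.rfl
theorem uses_f2 (s t : Sy) (a b : ℕ) : Uses s (f2 t a b) ↔ t = s := Iff.rfl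
theorem uses_f3 (s t : Sy) (a b c : ℕ) : Uses s (f3 t a b c) ↔ t = s := Iff.rfl

theorem uses_apf (s : Sy) (b : Bool) (x y : ℕ) : ¬ Uses s (apf b x y) := by
  cases b <;> simp [apf, uses_ex, uses_and, Uses]

theorem uses_appS (s : Sy) : ∀ (σ : List Bool) (w z : ℕ), ¬ Uses s (appS σ w z)
  | [], w, z => by simp [appS, Uses]
  | b :: σ, w, z => by simp [appS, uses_ex, uses_and, uses_apf, uses_appS s σ]

theorem uses_isS (s : Sy) (σ : List Bool) (z : ℕ) : ¬ Uses s (isS σ z) := by
  simp [isS, uses_ex, uses_and, uses_appS, Uses]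

theorem uses_emb' (s : Sy) : ∀ φ : Form, ¬ Uses s (emb' φ) := by
  intro φ
  induction φ <;> simp_all [emb', emb, rn, Uses]

theorem uses_T1 (P : Form) (j : ℕ) : ∀ φ ∈ T1 P, ¬ Uses (.o j) φ := by
  intro φ hφ
  simp only [T1, List.mem_cons, List.not_mem_nil, or_false] at hφ
  rcases hφ with rfl | rfl | rfl | rfl | rfl | rfl | rfl | rfl | rfl | rfl | rfl | rfl | rfl |
    rfl | rfl | rfl | rfl | rfl | rfl | rfl | rfl | rfl | rfl | rfl | rfl | rfl |
    rfl | rfl | rfl | rfl | rfl | rfl | rfl | rfl | rfl | rfl | rfl | rfl | rfl | rfl |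
    rfl | rfl | rfl | rfl | rfl | rfl | rfl | rfl | rfl | rfl | rfl | rfl | rfl | rfl
  · simp [tC1, uses_alls, uses_exs, Uses, uses_isS, uses_apf, uses_appS, uses_emb', uses_imps_cons,
      uses_imps_nil, uses_ands_cons, uses_ands_nil, uses_neg, uses_and, uses_or, uses_iff, uses_ex,
      uses_f1, uses_f2, uses_f3, pre1, pre2, pre3, preI, preA, fK, fS, fN, fI, fD, fR, fMP, fG]
  · simp [tC2, uses_alls, uses_exs, Uses, uses_isS, uses_apf, uses_appS, uses_emb', uses_imps_cons,
      uses_imps_nil, uses_ands_cons, uses_ands_nil, uses_neg, uses_and, uses_or, uses_iff, uses_ex,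
      uses_f1, uses_f2, uses_f3, pre1, pre2, pre3, preI, preA, fK, fS, fN, fI, fD, fR, fMP, fG]
  · simp [tC2, uses_alls, uses_exs, Uses, uses_isS, uses_apf, uses_appS, uses_emb', uses_imps_cons,
      uses_imps_nil, uses_ands_cons, uses_ands_nil, uses_neg, uses_and, uses_or, uses_iff, uses_ex,
      uses_f1, uses_f2, uses_f3, pre1, pre2, pre3, preI, preA, fK, fS, fN, fI, fD, fR, fMP, fG]
  · simp [tV1, uses_alls, uses_exs, Uses, uses_isS, uses_apf, uses_appS, uses_emb', uses_imps_cons,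
      uses_imps_nil, uses_ands_cons, uses_ands_nil, uses_neg, uses_and, uses_or, uses_iff, uses_ex,
      uses_f1, uses_f2, uses_f3, pre1, pre2, pre3, preI, preA, fK, fS, fN, fI, fD, fR, fMP, fG]
  · simp [tV2, uses_alls, uses_exs, Uses, uses_isS, uses_apf, uses_appS, uses_emb', uses_imps_cons,
      uses_imps_nil, uses_ands_cons, uses_ands_nil, uses_neg, uses_and, uses_or, uses_iff, uses_ex,
      uses_f1, uses_f2, uses_f3, pre1, pre2, pre3, preI, preA, fK, fS, fN, fI, fD, fR, fMP, fG]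
  · simp [tF0, uses_alls, uses_exs, Uses, uses_isS, uses_apf, uses_appS, uses_emb', uses_imps_cons,
      uses_imps_nil, uses_ands_cons, uses_ands_nil, uses_neg, uses_and, uses_or, uses_iff, uses_ex,
      uses_f1, uses_f2, uses_f3, pre1, pre2, pre3, preI, preA, fK, fS, fN, fI, fD, fR, fMP, fG]
  · simp [tF1, uses_alls, uses_exs, Uses, uses_isS, uses_apf, uses_appS, uses_emb', uses_imps_cons,
      uses_imps_nil, uses_ands_cons, uses_ands_nil, uses_neg, uses_and, uses_or, uses_iff, uses_ex,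
      uses_f1, uses_f2, uses_f3, pre1, pre2, pre3, preI, preA, fK, fS, fN, fI, fD, fR, fMP, fG]
  · simp [tF2, uses_alls, uses_exs, Uses, uses_isS, uses_apf, uses_appS, uses_emb', uses_imps_cons,
      uses_imps_nil, uses_ands_cons, uses_ands_nil, uses_neg, uses_and, uses_or, uses_iff, uses_ex,
      uses_f1, uses_f2, uses_f3, pre1, pre2, pre3, preI, preA, fK, fS, fN, fI, fD, fR, fMP, fG]
  · simp [tF2, uses_alls, uses_exs, Uses, uses_isS, uses_apf, uses_appS, uses_emb', uses_imps_cons,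
      uses_imps_nil, uses_ands_cons, uses_ands_nil, uses_neg, uses_and, uses_or, uses_iff, uses_ex,
      uses_f1, uses_f2, uses_f3, pre1, pre2, pre3, preI, preA, fK, fS, fN, fI, fD, fR, fMP, fG]
  · simp [tF3, uses_alls, uses_exs, Uses, uses_isS, uses_apf, uses_appS, uses_emb', uses_imps_cons,
      uses_imps_nil, uses_ands_cons, uses_ands_nil, uses_neg, uses_and, uses_or, uses_iff, uses_ex,
      uses_f1, uses_f2, uses_f3, pre1, pre2, pre3, preI, preA, fK, fS, fN, fI, fD, fR, fMP, fG]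
  · simp [tF3, uses_alls, uses_exs, Uses, uses_isS, uses_apf, uses_appS, uses_emb', uses_imps_cons,
      uses_imps_nil, uses_ands_cons, uses_ands_nil, uses_neg, uses_and, uses_or, uses_iff, uses_ex,
      uses_f1, uses_f2, uses_f3, pre1, pre2, pre3, preI, preA, fK, fS, fN, fI, fD, fR, fMP, fG]
  · simp [tF6, uses_alls, uses_exs, Uses, uses_isS, uses_apf, uses_appS, uses_emb', uses_imps_cons,
      uses_imps_nil, uses_ands_cons, uses_ands_nil, uses_neg, uses_and, uses_or, uses_iff, uses_ex,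
      uses_f1, uses_f2, uses_f3, pre1, pre2, pre3, preI, preA, fK, fS, fN, fI, fD, fR, fMP, fG]
  · simp [tF7, uses_alls, uses_exs, Uses, uses_isS, uses_apf, uses_appS, uses_emb', uses_imps_cons,
      uses_imps_nil, uses_ands_cons, uses_ands_nil, uses_neg, uses_and, uses_or, uses_iff, uses_ex,
      uses_f1, uses_f2, uses_f3, pre1, pre2, pre3, preI, preA, fK, fS, fN, fI, fD, fR, fMP, fG]
  · simp [tL1, uses_alls, uses_exs, Uses, uses_isS, uses_apf, uses_appS, uses_emb', uses_imps_cons,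
      uses_imps_nil, uses_ands_cons, uses_ands_nil, uses_neg, uses_and, uses_or, uses_iff, uses_ex,
      uses_f1, uses_f2, uses_f3, pre1, pre2, pre3, preI, preA, fK, fS, fN, fI, fD, fR, fMP, fG]
  · simp [tL2, uses_alls, uses_exs, Uses, uses_isS, uses_apf, uses_appS, uses_emb', uses_imps_cons,
      uses_imps_nil, uses_ands_cons, uses_ands_nil, uses_neg, uses_and, uses_or, uses_iff, uses_ex,
      uses_f1, uses_f2, uses_f3, pre1, pre2, pre3, preI, preA, fK, fS, fN, fI, fD, fR, fMP, fG]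
  · simp [tL3, uses_alls, uses_exs, Uses, uses_isS, uses_apf, uses_appS, uses_emb', uses_imps_cons,
      uses_imps_nil, uses_ands_cons, uses_ands_nil, uses_neg, uses_and, uses_or, uses_iff, uses_ex,
      uses_f1, uses_f2, uses_f3, pre1, pre2, pre3, preI, preA, fK, fS, fN, fI, fD, fR, fMP, fG]
  · simp [tL4, uses_alls, uses_exs, Uses, uses_isS, uses_apf, uses_appS, uses_emb', uses_imps_cons,
      uses_imps_nil, uses_ands_cons, uses_ands_nil, uses_neg, uses_and, uses_or, uses_iff, uses_ex,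
      uses_f1, uses_f2, uses_f3, pre1, pre2, pre3, preI, preA, fK, fS, fN, fI, fD, fR, fMP, fG]
  · simp [tK0, uses_alls, uses_exs, Uses, uses_isS, uses_apf, uses_appS, uses_emb', uses_imps_cons,
      uses_imps_nil, uses_ands_cons, uses_ands_nil, uses_neg, uses_and, uses_or, uses_iff, uses_ex,
      uses_f1, uses_f2, uses_f3, pre1, pre2, pre3, preI, preA, fK, fS, fN, fI, fD, fR, fMP, fG]
  · simp [tK0', uses_alls, uses_exs, Uses, uses_isS, uses_apf, uses_appS, uses_emb', uses_imps_cons,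
      uses_imps_nil, uses_ands_cons, uses_ands_nil, uses_neg, uses_and, uses_or, uses_iff, uses_ex,
      uses_f1, uses_f2, uses_f3, pre1, pre2, pre3, preI, preA, fK, fS, fN, fI, fD, fR, fMP, fG]
  · simp [tK1, uses_alls, uses_exs, Uses, uses_isS, uses_apf, uses_appS, uses_emb', uses_imps_cons,
      uses_imps_nil, uses_ands_cons, uses_ands_nil, uses_neg, uses_and, uses_or, uses_iff, uses_ex,
      uses_f1, uses_f2, uses_f3, pre1, pre2, pre3, preI, preA, fK, fS, fN, fI, fD, fR, fMP, fG]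
  · simp [tK2, uses_alls, uses_exs, Uses, uses_isS, uses_apf, uses_appS, uses_emb', uses_imps_cons,
      uses_imps_nil, uses_ands_cons, uses_ands_nil, uses_neg, uses_and, uses_or, uses_iff, uses_ex,
      uses_f1, uses_f2, uses_f3, pre1, pre2, pre3, preI, preA, fK, fS, fN, fI, fD, fR, fMP, fG]
  · simp [tK3, uses_alls, uses_exs, Uses, uses_isS, uses_apf, uses_appS, uses_emb', uses_imps_cons,
      uses_imps_nil, uses_ands_cons, uses_ands_nil, uses_neg, uses_and, uses_or, uses_iff, uses_ex,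
      uses_f1, uses_f2, uses_f3, pre1, pre2, pre3, preI, preA, fK, fS, fN, fI, fD, fR, fMP, fG]
  · simp [tK4, uses_alls, uses_exs, Uses, uses_isS, uses_apf, uses_appS, uses_emb', uses_imps_cons,
      uses_imps_nil, uses_ands_cons, uses_ands_nil, uses_neg, uses_and, uses_or, uses_iff, uses_ex,
      uses_f1, uses_f2, uses_f3, pre1, pre2, pre3, preI, preA, fK, fS, fN, fI, fD, fR, fMP, fG]
  · simp [tK5, uses_alls, uses_exs, Uses, uses_isS, uses_apf, uses_appS, uses_emb', uses_imps_cons,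
      uses_imps_nil, uses_ands_cons, uses_ands_nil, uses_neg, uses_and, uses_or, uses_iff, uses_ex,
      uses_f1, uses_f2, uses_f3, pre1, pre2, pre3, preI, preA, fK, fS, fN, fI, fD, fR, fMP, fG]
  · simp [tK6, uses_alls, uses_exs, Uses, uses_isS, uses_apf, uses_appS, uses_emb', uses_imps_cons,
      uses_imps_nil, uses_ands_cons, uses_ands_nil, uses_neg, uses_and, uses_or, uses_iff, uses_ex,
      uses_f1, uses_f2, uses_f3, pre1, pre2, pre3, preI, preA, fK, fS, fN, fI, fD, fR, fMP, fG]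
  · simp [tK7, uses_alls, uses_exs, Uses, uses_isS, uses_apf, uses_appS, uses_emb', uses_imps_cons,
      uses_imps_nil, uses_ands_cons, uses_ands_nil, uses_neg, uses_and, uses_or, uses_iff, uses_ex,
      uses_f1, uses_f2, uses_f3, pre1, pre2, pre3, preI, preA, fK, fS, fN, fI, fD, fR, fMP, fG]
  · simp [tD0, uses_alls, uses_exs, Uses, uses_isS, uses_apf, uses_appS, uses_emb', uses_imps_cons,
      uses_imps_nil, uses_ands_cons, uses_ands_nil, uses_neg, uses_and, uses_or, uses_iff, uses_ex,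
      uses_f1, uses_f2, uses_f3, pre1, pre2, pre3, preI, preA, fK, fS, fN, fI, fD, fR, fMP, fG]
  · simp [tD1, uses_alls, uses_exs, Uses, uses_isS, uses_apf, uses_appS, uses_emb', uses_imps_cons,
      uses_imps_nil, uses_ands_cons, uses_ands_nil, uses_neg, uses_and, uses_or, uses_iff, uses_ex,
      uses_f1, uses_f2, uses_f3, pre1, pre2, pre3, preI, preA, fK, fS, fN, fI, fD, fR, fMP, fG]
  · simp [tD2, uses_alls, uses_exs, Uses, uses_isS, uses_apf, uses_appS, uses_emb', uses_imps_cons,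
      uses_imps_nil, uses_ands_cons, uses_ands_nil, uses_neg, uses_and, uses_or, uses_iff, uses_ex,
      uses_f1, uses_f2, uses_f3, pre1, pre2, pre3, preI, preA, fK, fS, fN, fI, fD, fR, fMP, fG]
  · simp [tD3, uses_alls, uses_exs, Uses, uses_isS, uses_apf, uses_appS, uses_emb', uses_imps_cons,
      uses_imps_nil, uses_ands_cons, uses_ands_nil, uses_neg, uses_and, uses_or, uses_iff, uses_ex,
      uses_f1, uses_f2, uses_f3, pre1, pre2, pre3, preI, preA, fK, fS, fN, fI, fD, fR, fMP, fG]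
  · simp [tD4, uses_alls, uses_exs, Uses, uses_isS, uses_apf, uses_appS, uses_emb', uses_imps_cons,
      uses_imps_nil, uses_ands_cons, uses_ands_nil, uses_neg, uses_and, uses_or, uses_iff, uses_ex,
      uses_f1, uses_f2, uses_f3, pre1, pre2, pre3, preI, preA, fK, fS, fN, fI, fD, fR, fMP, fG]
  · simp [tD5, uses_alls, uses_exs, Uses, uses_isS, uses_apf, uses_appS, uses_emb', uses_imps_cons,
      uses_imps_nil, uses_ands_cons, uses_ands_nil, uses_neg, uses_and, uses_or, uses_iff, uses_ex,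
      uses_f1, uses_f2, uses_f3, pre1, pre2, pre3, preI, preA, fK, fS, fN, fI, fD, fR, fMP, fG]
  · simp [tD6, uses_alls, uses_exs, Uses, uses_isS, uses_apf, uses_appS, uses_emb', uses_imps_cons,
      uses_imps_nil, uses_ands_cons, uses_ands_nil, uses_neg, uses_and, uses_or, uses_iff, uses_ex,
      uses_f1, uses_f2, uses_f3, pre1, pre2, pre3, preI, preA, fK, fS, fN, fI, fD, fR, fMP, fG]
  · simp [tD7, uses_alls, uses_exs, Uses, uses_isS, uses_apf, uses_appS, uses_emb', uses_imps_cons,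
      uses_imps_nil, uses_ands_cons, uses_ands_nil, uses_neg, uses_and, uses_or, uses_iff, uses_ex,
      uses_f1, uses_f2, uses_f3, pre1, pre2, pre3, preI, preA, fK, fS, fN, fI, fD, fR, fMP, fG]
  · simp [tD8, uses_alls, uses_exs, Uses, uses_isS, uses_apf, uses_appS, uses_emb', uses_imps_cons,
      uses_imps_nil, uses_ands_cons, uses_ands_nil, uses_neg, uses_and, uses_or, uses_iff, uses_ex,
      uses_f1, uses_f2, uses_f3, pre1, pre2, pre3, preI, preA, fK, fS, fN, fI, fD, fR, fMP, fG]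
  · simp [tQ0, uses_alls, uses_exs, Uses, uses_isS, uses_apf, uses_appS, uses_emb', uses_imps_cons,
      uses_imps_nil, uses_ands_cons, uses_ands_nil, uses_neg, uses_and, uses_or, uses_iff, uses_ex,
      uses_f1, uses_f2, uses_f3, pre1, pre2, pre3, preI, preA, fK, fS, fN, fI, fD, fR, fMP, fG]
  · simp [tQ1, uses_alls, uses_exs, Uses, uses_isS, uses_apf, uses_appS, uses_emb', uses_imps_cons,
      uses_imps_nil, uses_ands_cons, uses_ands_nil, uses_neg, uses_and, uses_or, uses_iff, uses_ex,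
      uses_f1, uses_f2, uses_f3, pre1, pre2, pre3, preI, preA, fK, fS, fN, fI, fD, fR, fMP, fG]
  · simp [tQ2, uses_alls, uses_exs, Uses, uses_isS, uses_apf, uses_appS, uses_emb', uses_imps_cons,
      uses_imps_nil, uses_ands_cons, uses_ands_nil, uses_neg, uses_and, uses_or, uses_iff, uses_ex,
      uses_f1, uses_f2, uses_f3, pre1, pre2, pre3, preI, preA, fK, fS, fN, fI, fD, fR, fMP, fG]
  · simp [tQ3, uses_alls, uses_exs, Uses, uses_isS, uses_apf, uses_appS, uses_emb', uses_imps_cons,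
      uses_imps_nil, uses_ands_cons, uses_ands_nil, uses_neg, uses_and, uses_or, uses_iff, uses_ex,
      uses_f1, uses_f2, uses_f3, pre1, pre2, pre3, preI, preA, fK, fS, fN, fI, fD, fR, fMP, fG]
  · simp [tQ4, uses_alls, uses_exs, Uses, uses_isS, uses_apf, uses_appS, uses_emb', uses_imps_cons,
      uses_imps_nil, uses_ands_cons, uses_ands_nil, uses_neg, uses_and, uses_or, uses_iff, uses_ex,
      uses_f1, uses_f2, uses_f3, pre1, pre2, pre3, preI, preA, fK, fS, fN, fI, fD, fR, fMP, fG]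
  · simp [tT1, uses_alls, uses_exs, Uses, uses_isS, uses_apf, uses_appS, uses_emb', uses_imps_cons,
      uses_imps_nil, uses_ands_cons, uses_ands_nil, uses_neg, uses_and, uses_or, uses_iff, uses_ex,
      uses_f1, uses_f2, uses_f3, pre1, pre2, pre3, preI, preA, fK, fS, fN, fI, fD, fR, fMP, fG]
  · simp [tT1, uses_alls, uses_exs, Uses, uses_isS, uses_apf, uses_appS, uses_emb', uses_imps_cons,
      uses_imps_nil, uses_ands_cons, uses_ands_nil, uses_neg, uses_and, uses_or, uses_iff, uses_ex,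
      uses_f1, uses_f2, uses_f3, pre1, pre2, pre3, preI, preA, fK, fS, fN, fI, fD, fR, fMP, fG]
  · simp [tT1, uses_alls, uses_exs, Uses, uses_isS, uses_apf, uses_appS, uses_emb', uses_imps_cons,
      uses_imps_nil, uses_ands_cons, uses_ands_nil, uses_neg, uses_and, uses_or, uses_iff, uses_ex,
      uses_f1, uses_f2, uses_f3, pre1, pre2, pre3, preI, preA, fK, fS, fN, fI, fD, fR, fMP, fG]
  · simp [tT2, uses_alls, uses_exs, Uses, uses_isS, uses_apf, uses_appS, uses_emb', uses_imps_cons,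
      uses_imps_nil, uses_ands_cons, uses_ands_nil, uses_neg, uses_and, uses_or, uses_iff, uses_ex,
      uses_f1, uses_f2, uses_f3, pre1, pre2, pre3, preI, preA, fK, fS, fN, fI, fD, fR, fMP, fG]
  · simp [tT2, uses_alls, uses_exs, Uses, uses_isS, uses_apf, uses_appS, uses_emb', uses_imps_cons,
      uses_imps_nil, uses_ands_cons, uses_ands_nil, uses_neg, uses_and, uses_or, uses_iff, uses_ex,
      uses_f1, uses_f2, uses_f3, pre1, pre2, pre3, preI, preA, fK, fS, fN, fI, fD, fR, fMP, fG]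
  · simp [tT2, uses_alls, uses_exs, Uses, uses_isS, uses_apf, uses_appS, uses_emb', uses_imps_cons,
      uses_imps_nil, uses_ands_cons, uses_ands_nil, uses_neg, uses_and, uses_or, uses_iff, uses_ex,
      uses_f1, uses_f2, uses_f3, pre1, pre2, pre3, preI, preA, fK, fS, fN, fI, fD, fR, fMP, fG]
  · simp [tT2, uses_alls, uses_exs, Uses, uses_isS, uses_apf, uses_appS, uses_emb', uses_imps_cons,
      uses_imps_nil, uses_ands_cons, uses_ands_nil, uses_neg, uses_and, uses_or, uses_iff, uses_ex,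
      uses_f1, uses_f2, uses_f3, pre1, pre2, pre3, preI, preA, fK, fS, fN, fI, fD, fR, fMP, fG]
  · simp [tT2, uses_alls, uses_exs, Uses, uses_isS, uses_apf, uses_appS, uses_emb', uses_imps_cons,
      uses_imps_nil, uses_ands_cons, uses_ands_nil, uses_neg, uses_and, uses_or, uses_iff, uses_ex,
      uses_f1, uses_f2, uses_f3, pre1, pre2, pre3, preI, preA, fK, fS, fN, fI, fD, fR, fMP, fG]
  · simp [tT2, uses_alls, uses_exs, Uses, uses_isS, uses_apf, uses_appS, uses_emb', uses_imps_cons,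
      uses_imps_nil, uses_ands_cons, uses_ands_nil, uses_neg, uses_and, uses_or, uses_iff, uses_ex,
      uses_f1, uses_f2, uses_f3, pre1, pre2, pre3, preI, preA, fK, fS, fN, fI, fD, fR, fMP, fG]
  · simp [tN1, uses_alls, uses_exs, Uses, uses_isS, uses_apf, uses_appS, uses_emb', uses_imps_cons,
      uses_imps_nil, uses_ands_cons, uses_ands_nil, uses_neg, uses_and, uses_or, uses_iff, uses_ex,
      uses_f1, uses_f2, uses_f3, pre1, pre2, pre3, preI, preA, fK, fS, fN, fI, fD, fR, fMP, fG]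
  · simp [tN2, uses_alls, uses_exs, Uses, uses_isS, uses_apf, uses_appS, uses_emb', uses_imps_cons,
      uses_imps_nil, uses_ands_cons, uses_ands_nil, uses_neg, uses_and, uses_or, uses_iff, uses_ex,
      uses_f1, uses_f2, uses_f3, pre1, pre2, pre3, preI, preA, fK, fS, fN, fI, fD, fR, fMP, fG]
  · simp [tN2, uses_alls, uses_exs, Uses, uses_isS, uses_apf, uses_appS, uses_emb', uses_imps_cons,
      uses_imps_nil, uses_ands_cons, uses_ands_nil, uses_neg, uses_and, uses_or, uses_iff, uses_ex,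
      uses_f1, uses_f2, uses_f3, pre1, pre2, pre3, preI, preA, fK, fS, fN, fI, fD, fR, fMP, fG]
  · simp [tR2, uses_alls, uses_exs, Uses, uses_isS, uses_apf, uses_appS, uses_emb', uses_imps_cons,
      uses_imps_nil, uses_ands_cons, uses_ands_nil, uses_neg, uses_and, uses_or, uses_iff, uses_ex,
      uses_f1, uses_f2, uses_f3, pre1, pre2, pre3, preI, preA, fK, fS, fN, fI, fD, fR, fMP, fG]
  · simp [tP, uses_alls, uses_exs, Uses, uses_isS, uses_apf, uses_appS, uses_emb', uses_imps_cons,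
      uses_imps_nil, uses_ands_cons, uses_ands_nil, uses_neg, uses_and, uses_or, uses_iff, uses_ex,
      uses_f1, uses_f2, uses_f3, pre1, pre2, pre3, preI, preA, fK, fS, fN, fI, fD, fR, fMP, fG]

end Pool.Agent.TH672
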