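import Pool.Agent.TH672.Step

/-!
# Explicit definitions
-/

set_option autoImplicit false

namespace Pool.Agent.TH672

open Form

variable {κ : Type}

theorem sat_congr {S : Str κ} : ∀ {φ : Fm κ} {v w : ℕ → S.M}, (∀ x, φ.Free x → v x = w x) →
    (Fm.Sat S φ v ↔ Fm.Sat S φ w) := by
  intro φ
  induction φ with
  | bot => intro v w _; rfl
  | eq x y => intro v w h; simp [h x (Or.inl rfl), h y (Or.inr rfl)]
  | zero x => intro v w h; simp [h x rfl]
  | succ x y => intro v w h; simp [h x (Or.inl rfl), h y (Or.inr rfl)]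
  | add x y z =>
    intro v w h
    simp [h x (Or.inl rfl), h y (Or.inr (Or.inl rfl)), h z (Or.inr (Or.inr rfl))]
  | mul x y z =>
    intro v w h
    simp [h x (Or.inl rfl), h y (Or.inr (Or.inl rfl)), h z (Or.inr (Or.inr rfl))]
  | op i a b c d =>
    intro v w h
    simp [h a (Or.inl rfl), h b (Or.inr (Or.inl rfl)), h c (Or.inr (Or.inr (Or.inl rfl))),
      h d (Or.inr (Or.inr (Or.inr rfl)))]
  | imp φ ψ ih ih' =>
    intro v w h
    simp only [Fm.sat_imp]
    rw [ih fun x hx => h x (Or.inl hx), ih' fun x hx => h x (Or.inr hx)]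
  | all u φ ih =>
    intro v w h
    simp only [Fm.sat_all]
    refine forall_congr' fun a => ih fun x hx => ?_
    unfold upd
    split_ifs with hu
    · rfl
    · exact h x ⟨hu, hx⟩

/-- the symbol `o` occurs -/
def Uses (o : κ) : Fm κ → Prop
  | .op i _ _ _ _ => i = o
  | .imp φ ψ => Uses o φ ∨ Uses o ψ
  | .all _ φ => Uses o φ
  | _ => False

theorem tr_congr {ι ι' : κ → Form} : ∀ {φ : Fm κ}, (∀ i, Uses i φ → ι i = ι' i) →
    tr ι φ = tr ι' φ := by
  intro φ
  induction φ with
  | op i a b c d => intro h; simp [tr, h i rfl]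
  | imp φ ψ ih ih' =>
    intro h; simp [tr, ih fun i hi => h i (Or.inl hi), ih' fun i hi => h i (Or.inr hi)]
  | all u φ ih => intro h; simp [tr, ih h]
  | _ => intro _; rfl

/-- the free variables `9`, `10`, `11`, `12` of `θ` are replaced by `5`, `6`, `7`, `8` -/
def cls (θ : Form) : Form :=
  all 9 ((Form.eq 9 5).imp (all 10 ((Form.eq 10 6).imp (all 11 ((Form.eq 11 7).imp
    (all 12 ((Form.eq 12 8).imp θ)))))))

theorem tr_freeA {ι : κ → Form} (hι : Okι ι) {x : ℕ} (hx : ¬ ok x) :
    ∀ {φ : Fm κ}, Av φ → ¬ (tr ι φ).Free x := by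
  intro φ
  have e : ∀ u, ok u → x ≠ u := fun u hu h => hx (h ▸ hu)
  induction φ with
  | bot => intro _; simp [tr, Form.Free]
  | eq u v => rintro ⟨h1, h2⟩; simp [tr, Form.Free, e _ h1, e _ h2]
  | zero u => intro h1; simp [tr, Form.Free, e _ h1]
  | succ u v => rintro ⟨h1, h2⟩; simp [tr, Form.Free, e _ h1, e _ h2]
  | add u v w => rintro ⟨h1, h2, h3⟩; simp [tr, Form.Free, e _ h1, e _ h2, e _ h3]
  | mul u v w => rintro ⟨h1, h2, h3⟩; simp [tr, Form.Free, e _ h1, e _ h2, e _ h3]
  | op i a b c d =>
    rintro ⟨h1, h2, h3, h4⟩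
    have h : x = 5 ∨ x = 6 ∨ x = 7 ∨ x = 8 := by unfold ok at hx; omega
    have e1 := e _ h1
    have e2 := e _ h2
    have e3 := e _ h3
    have e4 := e _ h4
    rcases h with rfl | rfl | rfl | rfl <;> simp [tr, wrap, Form.Free, e1, e2, e3, e4]
  | imp φ ψ ih ih' => rintro ⟨h1, h2⟩; simp [tr, Form.Free, ih h1, ih' h2]
  | all u φ ih => rintro ⟨h1, h2⟩; simp [tr, Form.Free, ih h2]

theorem cls_ok {ι : κ → Form} (hι : Okι ι) {D : Fm κ}
    (hF : ∀ x, D.Free x → 9 ≤ x ∧ x ≤ 12) : ∀ x, (cls (tr ι D)).Free x → ¬ ok x := by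
  intro x hx hok
  simp only [cls, Form.Free, tr_free hι hok] at hx
  unfold ok at hok
  by_cases hD : D.Free x
  · have h1 := hF x hD
    simp only [hD, or_true, and_true] at hx
    omega
  · simp only [hD, or_false] at hx
    omega

section

variable {J : Type} {Γ C : J → List Form} {N : J → ℕ}

/-- drop a premise `s = a` -/
theorem nd_drop {Δ : List (J → Form)} {F : J → Form} {s a : ℕ} (hsa : s ≠ a)
    (hΔ : ∀ G ∈ Δ, ∀ j, ¬ (G j).Free s) (hF : ∀ j, ¬ (F j).Free s)
    (h : ND Γ C N ((fun _ => Form.eq s a) :: Δ) F) : ND Γ C N Δ F := by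
  have h1 : ND Γ C N Δ (fun j => Form.all s ((Form.eq s a).imp (F j))) := ND.gen s hΔ (ND.intro h)
  have e : ∀ j, ((Form.eq s a).imp (F j)).subst s a = (Form.eq a a).imp (F j) := by
    intro j
    simp only [Form.subst, subst_of_not_free a (hF j)]
    simp [ren, hsa.symm]
  have h2 := nd_inst (Γ := Γ) (C := C) (N := N) (Δ := Δ)
    (F := fun j => (Form.eq s a).imp (F j)) (x := s) a
    (fun j => ⟨trivial, freeFor_of_not_free a (hF j)⟩)
    (by simpa only [e] using (UB.const (Form.eq a a)).imp h.2.1) h1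
  simp only [e] at h2
  exact h2.mp (ND.log h2.1 (UB.const _) fun j => LogAx.refl _)

theorem nd_dn {Δ : List (J → Form)} {F : J → Form}
    (h : ND Γ C N ((fun j => (F j).neg) :: Δ) (fun _ => Form.bot)) : ND Γ C N Δ F := by
  have h1 := ND.intro h
  have hFn : UB N (fun j => (F j).neg) := h.1 _ (by simp)
  have hF : UB N F := UB.left (G := fun _ => Form.bot) hFn
  have h2 : ND Γ C N Δ (fun j => (F j).neg.neg.imp (F j)) :=
    ND.log h1.1 ((hFn.imp (UB.const _)).imp hF) fun j => LogAx.dn _
  exact h2.mp h1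

theorem nd_bot {Δ : List (J → Form)} {F : J → Form} (hF : UB N F)
    (h : ND Γ C N Δ (fun _ => Form.bot)) : ND Γ C N Δ F :=
  nd_dn (ND.weak (hF.imp (UB.const _)) h)

theorem nd_left {Δ : List (J → Form)} {F G : J → Form}
    (h : ND Γ C N Δ (fun j => (F j).and (G j))) : ND Γ C N Δ F := by
  have hFG : UB N (fun j => (F j).imp (G j).neg) := h.2.1.left
  have hF : UB N F := hFG.left
  have hG : UB N G := hFG.right.left
  have hn : UB N (fun j => (F j).neg) := hF.imp (UB.const _)
  refine nd_dn ?_
  have h1 : ND Γ C N ((fun j => (F j).neg) :: Δ) (fun j => (F j).imp (G j).neg) := by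
    refine ND.intro (nd_bot (hG.imp (UB.const _)) ?_)
    have hU : ∀ H ∈ F :: (fun j => (F j).neg) :: Δ, UB N H := by
      intro H hH
      rcases List.mem_cons.1 hH with rfl | hH
      · exact hF
      · rcases List.mem_cons.1 hH with rfl | hH
        · exact hn
        · exact h.1 _ hH
    exact (ND.hyp (F := fun j => (F j).neg) hU (by simp)).mp (ND.hyp hU (by simp))
  exact (ND.weak hn h).mp h1

theorem nd_right {Δ : List (J → Form)} {F G : J → Form}
    (h : ND Γ C N Δ (fun j => (F j).and (G j))) : ND Γ C N Δ G := by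
  have hFG : UB N (fun j => (F j).imp (G j).neg) := h.2.1.left
  have hF : UB N F := hFG.left
  have hG : UB N G := hFG.right.left
  have hn : UB N (fun j => (G j).neg) := hG.imp (UB.const _)
  refine nd_dn ?_
  have h1 : ND Γ C N ((fun j => (G j).neg) :: Δ) (fun j => (F j).imp (G j).neg) := by
    refine ND.intro ?_
    have hU : ∀ H ∈ F :: (fun j => (G j).neg) :: Δ, UB N H := by
      intro H hH
      rcases List.mem_cons.1 hH with rfl | hH
      · exact hF
      · rcases List.mem_cons.1 hH with rfl | hH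
        · exact hn
        · exact h.1 _ hH
    exact ND.hyp hU (by simp)
  exact (ND.weak hn h).mp h1

theorem nd_and {Δ : List (J → Form)} {F G : J → Form} (h : ND Γ C N Δ F) (h' : ND Γ C N Δ G) :
    ND Γ C N Δ (fun j => (F j).and (G j)) := by
  have hU : UB N (fun j => (F j).imp (G j).neg) := h.2.1.imp (h'.2.1.imp (UB.const _))
  have h1 : ND Γ C N ((fun j => (F j).imp (G j).neg) :: Δ) (fun j => (F j).imp (G j).neg) := by
    refine ND.hyp ?_ (by simp)
    intro H hH
    rcases List.mem_cons.1 hH with rfl | hH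
    · exact hU
    · exact h.1 _ hH
  exact ND.intro ((h1.mp (ND.weak hU h)).mp (ND.weak hU h'))

theorem nd_eqs {Δ : List (J → Form)} {x y z : ℕ} (h : ND Γ C N Δ (fun _ => Form.eq x z))
    (h' : ND Γ C N Δ (fun _ => Form.eq y z)) : ND Γ C N Δ (fun _ => Form.eq x y) :=
  nd_trans h (nd_symm h')

theorem ud_all_self {F : J → Form} {x : ℕ} (h : UD Γ C N (fun j => Form.all x (F j))) :
    UD Γ C N F :=
  (nd_inst_self (ND.of (Δ := []) h (by simp))).ud

end

/-- exchanging `9, ..., 12` and `13, ..., 16` -/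
def sw4 (x : ℕ) : ℕ := if 9 ≤ x ∧ x ≤ 12 then x + 4 else if 13 ≤ x ∧ x ≤ 16 then x - 4 else x

theorem sw4_inj : Function.Injective sw4 := by
  intro x y h
  unfold sw4 at h
  split_ifs at h <;> omega

/-- the defining equivalence of a new symbol -/
def defEq (o : κ) (D : Fm κ) : Fm κ :=
  .all 9 (.all 10 (.all 11 (.all 12 (Fm.iff (.op o 9 10 11 12) D))))

theorem leib_sat (S : Str κ) (v : ℕ → S.M) {D : Fm κ} (hF : ∀ x, D.Free x → 9 ≤ x ∧ x ≤ 12) :
    Fm.Sat S (Fm.all 9 (Fm.all 10 (Fm.all 11 (Fm.all 12 (Fm.all 13 (Fm.all 14 (Fm.all 15 (Fm.all 16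
      ((Fm.eq 9 13).imp ((Fm.eq 10 14).imp ((Fm.eq 11 15).imp ((Fm.eq 12 16).imp
      (Fm.and (D.imp (rn sw4 D)) ((rn sw4 D).imp D)))))))))))))) v := by
  simp only [Fm.sat_all, Fm.sat_imp, Fm.sat_and, Fm.sat_eq]
  intro a9 a10 a11 a12 a13 a14 a15 a16 h1 h2 h3 h4
  rw [sat_rn sw4_inj]
  rw [sat_congr (φ := D) (w := (upd (upd (upd (upd (upd (upd (upd (upd v 9 a9) 10 a10) 11 a11) 12
    a12) 13 a13) 14 a14) 15 a15) 16 a16) ∘ sw4)]
  · exact ⟨id, id⟩
  · intro x hx
    have hx' := hF x hx
    have : x = 9 ∨ x = 10 ∨ x = 11 ∨ x = 12 := by omega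
    rcases this with rfl | rfl | rfl | rfl
    · exact h1
    · exact h2
    · exact h3
    · exact h4

theorem defStep (hc : Complete κ) (D : Fm κ) (hDa : Av D)
    (hF : ∀ x, D.Free x → 9 ≤ x ∧ x ≤ 12) :
    ∃ K, ∀ (ι : κ → Form) (N : ℕ) (Γ C : List Form), Okι ι → (∀ i, (ι i).len ≤ N) →
      Ext Γ C (K * (N + 1)) (all 9 (all 10 (all 11 (all 12
        ((((wrap 9 10 11 12 (cls (tr ι D))).imp (tr ι D)).imp
          ((tr ι D).imp (wrap 9 10 11 12 (cls (tr ι D)))).neg).neg))))) := by
  let J := {p : (κ → Form) × ℕ × List Form × List Form //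
    Okι p.1 ∧ (∀ i, (p.1 i).len ≤ p.2.1)}
  let Γ : J → List Form := fun j => j.1.2.2.1
  let C : J → List Form := fun j => j.1.2.2.2
  let N : J → ℕ := fun j => j.1.2.1
  let ι : J → κ → Form := fun j => j.1.1
  have hι : ∀ j, Okι (ι j) := fun j => j.2.1
  have hN : ∀ j i, (ι j i).len ≤ N j := fun j => j.2.2
  let θ : J → Form := fun j => tr (ι j) D
  let θ' : J → Form := fun j => tr (ι j) (rn sw4 D)
  suffices h : UD Γ C N (fun j => all 9 (all 10 (all 11 (all 12
        ((((wrap 9 10 11 12 (cls (θ j))).imp (θ j)).imp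
          ((θ j).imp (wrap 9 10 11 12 (cls (θ j)))).neg).neg))))) by
    obtain ⟨_, K, hK⟩ := h
    exact ⟨K, fun ι N Γ C h1 h2 => hK ⟨(ι, N, Γ, C), h1, h2⟩⟩
  have ubθ : UB N θ := ub_tr hN D
  have ubθ' : UB N θ' := ub_tr hN _
  have hsw : ∀ x, ok x → ok (sw4 x) := by
    intro x hx
    unfold ok at hx ⊢
    unfold sw4
    split_ifs <;> omega
  have hA' : Av (rn sw4 D) := by
    clear hF θ θ' ubθ ubθ'
    induction D with
    | imp φ ψ ih ih' => exact ⟨ih hDa.1, ih' hDa.2⟩
    | all u φ ih => exact ⟨hsw _ hDa.1, ih hDa.2⟩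
    | bot => trivial
    | zero x => exact hsw _ hDa
    | eq x y => exact ⟨hsw _ hDa.1, hsw _ hDa.2⟩
    | succ x y => exact ⟨hsw _ hDa.1, hsw _ hDa.2⟩
    | add x y z => exact ⟨hsw _ hDa.1, hsw _ hDa.2.1, hsw _ hDa.2.2⟩
    | mul x y z => exact ⟨hsw _ hDa.1, hsw _ hDa.2.1, hsw _ hDa.2.2⟩
    | op i a b c d => exact ⟨hsw _ hDa.1, hsw _ hDa.2.1, hsw _ hDa.2.2.1, hsw _ hDa.2.2.2⟩
  have hF' : ∀ x, (rn sw4 D).Free x → 13 ≤ x ∧ x ≤ 16 := by
    intro x hx
    obtain ⟨y, h1, h2⟩ := rn_free hx
    have h3 := hF y h1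
    unfold sw4 at h2
    split_ifs at h2 <;> omega
  have fθ : ∀ x j, (θ j).Free x → 9 ≤ x ∧ x ≤ 12 := by
    intro x j hx
    by_cases hok : ok x
    · exact hF x ((tr_free (hι j) hok).1 hx)
    · exact absurd hx (tr_freeA (hι j) hok hDa)
  have fθ' : ∀ x j, (θ' j).Free x → 13 ≤ x ∧ x ≤ 16 := by
    intro x j hx
    by_cases hok : ok x
    · exact hF' x ((tr_free (hι j) hok).1 hx)
    · exact absurd hx (tr_freeA (hι j) hok hA')
  -- the Leibniz laws
  have L : UD Γ C N (fun j => (Form.eq 9 13).imp ((Form.eq 10 14).imp ((Form.eq 11 15).imp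
      ((Form.eq 12 16).imp ((((θ j).imp (θ' j)).imp ((θ' j).imp (θ j)).neg).neg))))) := by
    have h1 := ud_tr (Γ := Γ) (C := C) hι hN (T := fun _ => False) (fun _ h => h.elim)
      (completeA hc [] (Fm.all 9 (Fm.all 10 (Fm.all 11 (Fm.all 12 (Fm.all 13 (Fm.all 14 (Fm.all 15
      (Fm.all 16 ((Fm.eq 9 13).imp ((Fm.eq 10 14).imp ((Fm.eq 11 15).imp ((Fm.eq 12 16).imp
      (Fm.and (D.imp (rn sw4 D)) ((rn sw4 D).imp D)))))))))))))) (by simp)
      (by
        intro x hx
        simp only [Fm.Free, Fm.and, Fm.neg, or_false] at hx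
        have e1 := hF x
        have e2 := hF' x
        obtain ⟨h9, h10, h11, h12, h13, h14, h15, h16, h⟩ := hx
        have e3 : ¬ D.Free x := fun h => by have := e1 h; omega
        have e4 : ¬ (rn sw4 D).Free x := fun h => by have := e2 h; omega
        simp_all)
      (by simp)
      (by
        simp only [Av, Fm.and, Fm.neg]
        simp [hDa, hA', ok])
      (fun S v _ => leib_sat S v hF) |> fun h => by
        have : (fun ψ : Fm κ => ψ ∈ ([] : List (Fm κ))) = fun _ => False := by
          funext ψ; simp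
        rw [this] at h
        exact h)
    exact ud_all_self (ud_all_self (ud_all_self (ud_all_self (ud_all_self (ud_all_self (ud_all_self
      (ud_all_self h1)))))))
  have ubX : UB N (fun j => cls (θ j)) :=
    ((UB.const (Form.eq 9 5)).imp (((UB.const (Form.eq 10 6)).imp (((UB.const (Form.eq 11 7)).imp
      (((UB.const (Form.eq 12 8)).imp ubθ).all 12)).all 11)).all 10)).all 9
  have ubW : UB N (fun j => wrap 9 10 11 12 (cls (θ j))) :=
    ((UB.const (Form.eq 5 9)).imp (((UB.const (Form.eq 6 10)).imp (((UB.const (Form.eq 7 11)).imp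
      (((UB.const (Form.eq 8 12)).imp ubX).all 8)).all 7)).all 6)).all 5
  have nθ : ∀ x j, x < 9 ∨ 12 < x → ¬ (θ j).Free x := fun x j h h' => by
    have := fθ x j h'
    omega
  have nθ' : ∀ x j, x < 13 ∨ 16 < x → ¬ (θ' j).Free x := fun x j h h' => by
    have := fθ' x j h'
    omega
  have nX : ∀ x j, x < 5 ∨ 8 < x → ¬ (cls (θ j)).Free x := by
    intro x j h h'
    simp only [cls, Form.Free] at h'
    by_cases hD : (θ j).Free x
    · have h1 := fθ x j hD
      simp only [hD, or_true, and_true] at h'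
      omega
    · simp only [hD, or_false] at h'
      omega
  have nW : ∀ x j, x < 9 ∨ 12 < x → ¬ (wrap 9 10 11 12 (cls (θ j))).Free x := by
    intro x j h h'
    simp only [wrap, Form.Free] at h'
    by_cases hD : (cls (θ j)).Free x
    · have h1 : ¬ (x < 5 ∨ 8 < x) := fun h1 => nX x j h1 hD
      simp only [hD, or_true, and_true] at h'
      omega
    · simp only [hD, or_false] at h'
      omega
  -- from the symbol to the definition
  have A1 : UD Γ C N (fun j => (wrap 9 10 11 12 (cls (θ j))).imp (θ j)) := by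
    apply ND.ud
    apply ND.intro
    refine nd_drop (s := 5) (a := 9) (by decide) ?_ ?_ (nd_drop (s := 6) (a := 10) (by decide) ?_ ?_
      (nd_drop (s := 7) (a := 11) (by decide) ?_ ?_ (nd_drop (s := 8) (a := 12) (by decide)
      ?_ ?_ ?_)))
    · intro G hG j
      simp only [List.mem_cons, List.not_mem_nil, or_false] at hG
      subst hG
      exact nW _ _ (by omega)
    · exact fun j => nθ _ _ (by omega)
    · intro G hG j
      simp only [List.mem_cons, List.not_mem_nil, or_false] at hG
      rcases hG with rfl | rfl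
      · simp [Form.Free]
      · exact nW _ _ (by omega)
    · exact fun j => nθ _ _ (by omega)
    · intro G hG j
      simp only [List.mem_cons, List.not_mem_nil, or_false] at hG
      rcases hG with rfl | rfl | rfl
      · simp [Form.Free]
      · simp [Form.Free]
      · exact nW _ _ (by omega)
    · exact fun j => nθ _ _ (by omega)
    · intro G hG j
      simp only [List.mem_cons, List.not_mem_nil, or_false] at hG
      rcases hG with rfl | rfl | rfl | rfl
      · simp [Form.Free]
      · simp [Form.Free]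
      · simp [Form.Free]
      · exact nW _ _ (by omega)
    · exact fun j => nθ _ _ (by omega)
    · set Δ : List (J → Form) := [fun _ => Form.eq 8 12, fun _ => Form.eq 7 11,
        fun _ => Form.eq 6 10, fun _ => Form.eq 5 9, fun j => wrap 9 10 11 12 (cls (θ j))] with hΔ
      have hU : ∀ G ∈ Δ, UB N G := by
        intro G hG
        simp only [hΔ, List.mem_cons, List.not_mem_nil, or_false] at hG
        rcases hG with rfl | rfl | rfl | rfl | rfl
        · exact UB.const _
        · exact UB.const _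
        · exact UB.const _
        · exact UB.const _
        · exact ubW
      have w : ND Γ C N Δ (fun j => wrap 9 10 11 12 (cls (θ j))) := ND.hyp hU (by simp [hΔ])
      have s5 : ND Γ C N Δ (fun _ => Form.eq 5 9) := ND.hyp hU (by simp [hΔ])
      have s6 : ND Γ C N Δ (fun _ => Form.eq 6 10) := ND.hyp hU (by simp [hΔ])
      have s7 : ND Γ C N Δ (fun _ => Form.eq 7 11) := ND.hyp hU (by simp [hΔ])
      have s8 : ND Γ C N Δ (fun _ => Form.eq 8 12) := ND.hyp hU (by simp [hΔ])
      have w' : ND Γ C N Δ (fun j => cls (θ j)) := nd_one (nd_one (nd_one (nd_one w s5) s6) s7) s8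
      exact nd_one (nd_one (nd_one (nd_one w' (nd_symm s5)) (nd_symm s6)) (nd_symm s7)) (nd_symm s8)
  -- from the definition to the symbol
  have B1 : ND Γ C N [θ', fun _ => Form.eq 5 13, fun _ => Form.eq 6 14, fun _ => Form.eq 7 15,
      fun _ => Form.eq 8 16] (fun j => cls (θ j)) := by
    refine ND.gen 9 ?_ (ND.intro (ND.gen 10 ?_ (ND.intro (ND.gen 11 ?_ (ND.intro (ND.gen 12 ?_
      (ND.intro ?_)))))))
    · intro G hG j
      simp only [List.mem_cons, List.not_mem_nil, or_false] at hG
      rcases hG with rfl | rfl | rfl | rfl | rfl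
      · exact nθ' _ _ (by omega)
      all_goals simp [Form.Free]
    · intro G hG j
      simp only [List.mem_cons, List.not_mem_nil, or_false] at hG
      rcases hG with rfl | rfl | rfl | rfl | rfl | rfl
      · simp [Form.Free]
      · exact nθ' _ _ (by omega)
      all_goals simp [Form.Free]
    · intro G hG j
      simp only [List.mem_cons, List.not_mem_nil, or_false] at hG
      rcases hG with rfl | rfl | rfl | rfl | rfl | rfl | rfl
      · simp [Form.Free]
      · simp [Form.Free]
      · exact nθ' _ _ (by omega)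
      all_goals simp [Form.Free]
    · intro G hG j
      simp only [List.mem_cons, List.not_mem_nil, or_false] at hG
      rcases hG with rfl | rfl | rfl | rfl | rfl | rfl | rfl | rfl
      · simp [Form.Free]
      · simp [Form.Free]
      · simp [Form.Free]
      · exact nθ' _ _ (by omega)
      all_goals simp [Form.Free]
    · set Δ : List (J → Form) := [fun _ => Form.eq 12 8, fun _ => Form.eq 11 7,
        fun _ => Form.eq 10 6, fun _ => Form.eq 9 5, θ', fun _ => Form.eq 5 13,
        fun _ => Form.eq 6 14, fun _ => Form.eq 7 15, fun _ => Form.eq 8 16] with hΔ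
      have hU : ∀ G ∈ Δ, UB N G := by
        intro G hG
        simp only [hΔ, List.mem_cons, List.not_mem_nil, or_false] at hG
        rcases hG with rfl | rfl | rfl | rfl | rfl | rfl | rfl | rfl | rfl
        · exact UB.const _
        · exact UB.const _
        · exact UB.const _
        · exact UB.const _
        · exact ubθ'
        all_goals exact UB.const _
      have e9 : ND Γ C N Δ (fun _ => Form.eq 9 13) :=
        nd_trans (y := 5) (ND.hyp hU (by simp [hΔ])) (ND.hyp hU (by simp [hΔ]))
      have e10 : ND Γ C N Δ (fun _ => Form.eq 10 14) :=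
        nd_trans (y := 6) (ND.hyp hU (by simp [hΔ])) (ND.hyp hU (by simp [hΔ]))
      have e11 : ND Γ C N Δ (fun _ => Form.eq 11 15) :=
        nd_trans (y := 7) (ND.hyp hU (by simp [hΔ])) (ND.hyp hU (by simp [hΔ]))
      have e12 : ND Γ C N Δ (fun _ => Form.eq 12 16) :=
        nd_trans (y := 8) (ND.hyp hU (by simp [hΔ])) (ND.hyp hU (by simp [hΔ]))
      have l := ((((ND.of L hU).mp e9).mp e10).mp e11).mp e12
      exact (nd_right l).mp (ND.hyp hU (by simp [hΔ]))
  have B2 : UD Γ C N (fun j => (θ j).imp (wrap 9 10 11 12 (cls (θ j)))) := by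
    apply ND.ud
    apply ND.intro
    refine nd_drop (s := 13) (a := 9) (by decide) ?_ ?_ (nd_drop (s := 14) (a := 10) (by decide)
      ?_ ?_ (nd_drop (s := 15) (a := 11) (by decide) ?_ ?_ (nd_drop (s := 16) (a := 12) (by decide)
      ?_ ?_ ?_)))
    · intro G hG j
      simp only [List.mem_cons, List.not_mem_nil, or_false] at hG
      subst hG
      exact nθ _ _ (by omega)
    · exact fun j => nW _ _ (by omega)
    · intro G hG j
      simp only [List.mem_cons, List.not_mem_nil, or_false] at hG
      rcases hG with rfl | rfl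
      · simp [Form.Free]
      · exact nθ _ _ (by omega)
    · exact fun j => nW _ _ (by omega)
    · intro G hG j
      simp only [List.mem_cons, List.not_mem_nil, or_false] at hG
      rcases hG with rfl | rfl | rfl
      · simp [Form.Free]
      · simp [Form.Free]
      · exact nθ _ _ (by omega)
    · exact fun j => nW _ _ (by omega)
    · intro G hG j
      simp only [List.mem_cons, List.not_mem_nil, or_false] at hG
      rcases hG with rfl | rfl | rfl | rfl
      · simp [Form.Free]
      · simp [Form.Free]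
      · simp [Form.Free]
      · exact nθ _ _ (by omega)
    · exact fun j => nW _ _ (by omega)
    · refine ND.gen 5 ?_ (ND.intro (ND.gen 6 ?_ (ND.intro (ND.gen 7 ?_ (ND.intro (ND.gen 8 ?_
        (ND.intro ?_)))))))
      · intro G hG j
        simp only [List.mem_cons, List.not_mem_nil, or_false] at hG
        rcases hG with rfl | rfl | rfl | rfl | rfl
        · simp [Form.Free]
        · simp [Form.Free]
        · simp [Form.Free]
        · simp [Form.Free]
        · exact nθ _ _ (by omega)
      · intro G hG j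
        simp only [List.mem_cons, List.not_mem_nil, or_false] at hG
        rcases hG with rfl | rfl | rfl | rfl | rfl | rfl
        · simp [Form.Free]
        · simp [Form.Free]
        · simp [Form.Free]
        · simp [Form.Free]
        · simp [Form.Free]
        · exact nθ _ _ (by omega)
      · intro G hG j
        simp only [List.mem_cons, List.not_mem_nil, or_false] at hG
        rcases hG with rfl | rfl | rfl | rfl | rfl | rfl | rfl
        · simp [Form.Free]
        · simp [Form.Free]
        · simp [Form.Free]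
        · simp [Form.Free]
        · simp [Form.Free]
        · simp [Form.Free]
        · exact nθ _ _ (by omega)
      · intro G hG j
        simp only [List.mem_cons, List.not_mem_nil, or_false] at hG
        rcases hG with rfl | rfl | rfl | rfl | rfl | rfl | rfl | rfl
        · simp [Form.Free]
        · simp [Form.Free]
        · simp [Form.Free]
        · simp [Form.Free]
        · simp [Form.Free]
        · simp [Form.Free]
        · simp [Form.Free]
        · exact nθ _ _ (by omega)
      · set Δ : List (J → Form) := [fun _ => Form.eq 8 12, fun _ => Form.eq 7 11,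
          fun _ => Form.eq 6 10, fun _ => Form.eq 5 9, fun _ => Form.eq 16 12,
          fun _ => Form.eq 15 11, fun _ => Form.eq 14 10, fun _ => Form.eq 13 9, θ] with hΔ
        have hU : ∀ G ∈ Δ, UB N G := by
          intro G hG
          simp only [hΔ, List.mem_cons, List.not_mem_nil, or_false] at hG
          rcases hG with rfl | rfl | rfl | rfl | rfl | rfl | rfl | rfl | rfl
          · exact UB.const _
          · exact UB.const _
          · exact UB.const _
          · exact UB.const _
          · exact UB.const _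
          · exact UB.const _
          · exact UB.const _
          · exact UB.const _
          · exact ubθ
        have e9 : ND Γ C N Δ (fun _ => Form.eq 9 13) := nd_symm (ND.hyp hU (by simp [hΔ]))
        have e10 : ND Γ C N Δ (fun _ => Form.eq 10 14) := nd_symm (ND.hyp hU (by simp [hΔ]))
        have e11 : ND Γ C N Δ (fun _ => Form.eq 11 15) := nd_symm (ND.hyp hU (by simp [hΔ]))
        have e12 : ND Γ C N Δ (fun _ => Form.eq 12 16) := nd_symm (ND.hyp hU (by simp [hΔ]))
        have e5 : ND Γ C N Δ (fun _ => Form.eq 5 13) :=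
          nd_trans (y := 9) (ND.hyp hU (by simp [hΔ])) e9
        have e6 : ND Γ C N Δ (fun _ => Form.eq 6 14) :=
          nd_trans (y := 10) (ND.hyp hU (by simp [hΔ])) e10
        have e7 : ND Γ C N Δ (fun _ => Form.eq 7 15) :=
          nd_trans (y := 11) (ND.hyp hU (by simp [hΔ])) e11
        have e8 : ND Γ C N Δ (fun _ => Form.eq 8 16) :=
          nd_trans (y := 12) (ND.hyp hU (by simp [hΔ])) e12
        have l := ((((ND.of L hU).mp e9).mp e10).mp e11).mp e12
        have t : ND Γ C N Δ θ' := (nd_left l).mp (ND.hyp hU (by simp [hΔ]))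
        have b := B1.2.2
        simp only [Imps] at b
        exact (((((ND.of b hU).mp e8).mp e7).mp e6).mp e5).mp t
  exact UD.gen 9 (UD.gen 10 (UD.gen 11 (UD.gen 12
    ((nd_and (ND.of A1 (Δ := []) (by simp)) (ND.of B2 (Δ := []) (by simp))).ud))))

end Pool.Agent.TH672
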