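import Mathlib

/-!
# Lengths of proofs in first-order logic: definitions

First-order logic with equality in the language with the predicate symbols `Z` (zero), `S`
(successor), `A` (addition) and `M` (multiplication), a Hilbert calculus with modus ponens and
generalization, formulas and proofs as binary strings, dyadic numerals, and finite consistency
statements.
-/

set_option autoImplicit false

namespace Pool.Agent.TH672

/-- The formulas. The variables are the natural numbers. The atomic formulas are `⊥`, `x = y`,
`Z x` (`x` is zero), `S x y` (`y` is the successor of `x`), `A x y z` (`x + y = z`) and `M x y z`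
(`x y = z`); the connective is `→`, the quantifier is `∀`. -/
inductive Form : Type
  | bot : Form
  | eq (x y : ℕ) : Form
  | zero (x : ℕ) : Form
  | succ (x y : ℕ) : Form
  | add (x y z : ℕ) : Form
  | mul (x y z : ℕ) : Form
  | imp (φ ψ : Form) : Form
  | all (x : ℕ) (φ : Form) : Form
  deriving DecidableEq

namespace Form

/-- Negation. -/
def neg (φ : Form) : Form := φ.imp bot

/-- Conjunction. -/
def and (φ ψ : Form) : Form := (φ.imp ψ.neg).neg

/-- Disjunction. -/
def or (φ ψ : Form) : Form := φ.neg.imp ψ

/-- Existential quantifier. -/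
def ex (x : ℕ) (φ : Form) : Form := (all x φ.neg).neg

/-- The variable `x` occurs free in the formula. -/
def Free (x : ℕ) : Form → Prop
  | bot => False
  | eq u v => x = u ∨ x = v
  | zero u => x = u
  | succ u v => x = u ∨ x = v
  | add u v w => x = u ∨ x = v ∨ x = w
  | mul u v w => x = u ∨ x = v ∨ x = w
  | imp φ ψ => Free x φ ∨ Free x ψ
  | all u φ => x ≠ u ∧ Free x φ

/-- The formula is a sentence. -/
def Closed (φ : Form) : Prop := ∀ x, ¬ φ.Free x

/-- `y` if `u` is `x`, and `u` otherwise. -/
def ren (x y u : ℕ) : ℕ := if u = x then y else u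

/-- Replace all free occurrences of `x` by `y`. -/
def subst (x y : ℕ) : Form → Form
  | bot => bot
  | eq u v => eq (ren x y u) (ren x y v)
  | zero u => zero (ren x y u)
  | succ u v => succ (ren x y u) (ren x y v)
  | add u v w => add (ren x y u) (ren x y v) (ren x y w)
  | mul u v w => mul (ren x y u) (ren x y v) (ren x y w)
  | imp φ ψ => imp (φ.subst x y) (ψ.subst x y)
  | all u φ => if u = x then all u φ else all u (φ.subst x y)

/-- The variable `y` is free for `x`: no free occurrence of `x` is in the scope of `∀ y`. -/
def FreeFor (y x : ℕ) : Form → Prop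
  | imp φ ψ => FreeFor y x φ ∧ FreeFor y x ψ
  | all u φ => u = x ∨ ¬ φ.Free x ∨ (u ≠ y ∧ FreeFor y x φ)
  | _ => True

/-- Truth in the standard structure `ℕ` under the assignment `v`. -/
def Holds : Form → (ℕ → ℕ) → Prop
  | bot, _ => False
  | eq x y, v => v x = v y
  | zero x, v => v x = 0
  | succ x y, v => v y = v x + 1
  | add x y z, v => v x + v y = v z
  | mul x y z, v => v x * v y = v z
  | imp φ ψ, v => φ.Holds v → ψ.Holds v
  | all x φ, v => ∀ a, φ.Holds (Function.update v x a)

/-- The formula is true in `ℕ` (under all assignments). -/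
def True (φ : Form) : Prop := ∀ v, φ.Holds v

end Form

open Form

/-! ### The calculus -/

/-- `u'` is `u`, or `u` is `x` and `u'` is `y`. -/
def Sw (x y u u' : ℕ) : Prop := u' = u ∨ (u = x ∧ u' = y)

/-- The second formula arises from the first, which is atomic, by replacing some occurrences of
`x` by `y`. -/
inductive Repl (x y : ℕ) : Form → Form → Prop
  | eq {u v u' v' : ℕ} : Sw x y u u' → Sw x y v v' → Repl x y (.eq u v) (.eq u' v')
  | zero {u u' : ℕ} : Sw x y u u' → Repl x y (.zero u) (.zero u')
  | succ {u v u' v' : ℕ} : Sw x y u u' → Sw x y v v' → Repl x y (.succ u v) (.succ u' v')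
  | add {u v w u' v' w' : ℕ} : Sw x y u u' → Sw x y v v' → Sw x y w w' →
      Repl x y (.add u v w) (.add u' v' w')
  | mul {u v w u' v' w' : ℕ} : Sw x y u u' → Sw x y v v' → Sw x y w w' →
      Repl x y (.mul u v w) (.mul u' v' w')

/-- The logical axioms. -/
inductive LogAx : Form → Prop
  | k (φ ψ : Form) : LogAx (φ.imp (ψ.imp φ))
  | s (φ ψ χ : Form) : LogAx ((φ.imp (ψ.imp χ)).imp ((φ.imp ψ).imp (φ.imp χ)))
  | dn (φ : Form) : LogAx (φ.neg.neg.imp φ)
  | inst (x y : ℕ) (φ : Form) : φ.FreeFor y x → LogAx ((all x φ).imp (φ.subst x y))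
  | dist (x : ℕ) (φ ψ : Form) : ¬ φ.Free x → LogAx ((all x (φ.imp ψ)).imp (φ.imp (all x ψ)))
  | refl (x : ℕ) : LogAx (.eq x x)
  | repl (x y : ℕ) (φ ψ : Form) : Repl x y φ ψ → LogAx ((Form.eq x y).imp (φ.imp ψ))

/-- The formula `φ` belongs to `Γ`, is a logical axiom, or follows from formulas in the list `π`
by modus ponens or by generalization. -/
def Step (Γ π : List Form) (φ : Form) : Prop :=
  φ ∈ Γ ∨ LogAx φ ∨ (∃ ψ ∈ π, ψ.imp φ ∈ π) ∨ ∃ ψ ∈ π, ∃ x, φ = all x ψ

/-- The list is a proof from `Γ`; the last line of the proof is the first member of the list. -/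
def IsProof (Γ : List Form) : List Form → Prop
  | [] => _root_.True
  | φ :: π => IsProof Γ π ∧ Step Γ π φ

/-! ### Strings -/

/-- The string of the variable `x`. -/
def varStr (x : ℕ) : List Bool := List.replicate x true ++ [false]

/-- The string of a formula (Polish notation). -/
def Form.str : Form → List Bool
  | bot => [false, false, false]
  | eq x y => [false, false, true] ++ varStr x ++ varStr y
  | zero x => [false, true, false] ++ varStr x
  | succ x y => [false, true, true] ++ varStr x ++ varStr y
  | add x y z => [true, false, false] ++ varStr x ++ varStr y ++ varStr z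
  | mul x y z => [true, false, true] ++ varStr x ++ varStr y ++ varStr z
  | imp φ ψ => [true, true, false] ++ φ.str ++ ψ.str
  | all x φ => [true, true, true] ++ varStr x ++ φ.str

/-- The string of a list of formulas. -/
def strs (Γ : List Form) : List Bool := Γ.flatMap Form.str

/-- `Γ ⊢^m φ`: the formula `φ` has a proof from `Γ` whose string has length at most `m`. -/
def Proves (Γ : List Form) (m : ℕ) (φ : Form) : Prop :=
  ∃ π, IsProof Γ (φ :: π) ∧ (strs (φ :: π)).length ≤ m

/-! ### Dyadic numbers and numerals -/

/-- The number with the dyadic digits `w`; `false` is the digit one and `true` is the digit two. -/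
def num (w : List Bool) : ℕ := w.foldl (fun n b => 2 * n + if b then 2 else 1) 0

/-- The dyadic digits of `n`, the most significant digit first. -/
def digits (n : ℕ) : List Bool :=
  if h : n = 0 then [] else digits ((n - 1) / 2) ++ [decide (n % 2 = 0)]
termination_by n
decreasing_by omega

/-- The code of a list of formulas: the number whose digits are the string. -/
def code (Γ : List Form) : ℕ := num (strs Γ)

/-- The formula `φ (2 x + 1)` or `φ (2 x + 2)` (if `b` is `true`); the variables `0` and `1` are
used as auxiliary variables. -/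
def digit (x : ℕ) (b : Bool) (φ : Form) : Form :=
  if b then
    all 0 ((Form.add x x 0).imp (all 1 ((Form.succ 0 1).imp (all x ((Form.succ 1 x).imp φ)))))
  else all 0 ((Form.add x x 0).imp (all x ((Form.succ 0 x).imp φ)))

/-- The formula `φ (n)` where `n` is substituted for the variable `x` and written in dyadic
notation; in a language without function symbols this means that the values `0`, `d₁`,
`2 d₁ + d₂`, ... are computed by quantifiers. -/
def inst (x n : ℕ) (φ : Form) : Form :=
  all x ((Form.zero x).imp ((digits n).foldr (digit x) φ))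

/-! ### Formalized provability -/

/-- The formula `P` with the free variables `2`, `3`, `4` formalizes provability by proofs of
bounded length: `P (c, m, d)` is true if and only if `c` is the code of a list `Γ` of formulas, `d`
is the code of a formula `φ`, and `Γ ⊢^m φ`. -/
def Represents (P : Form) : Prop :=
  (∀ x, P.Free x → x = 2 ∨ x = 3 ∨ x = 4) ∧
  ∀ v : ℕ → ℕ, P.Holds v ↔
    ∃ (Γ : List Form) (φ : Form), v 2 = code Γ ∧ v 4 = code [φ] ∧ Proves Γ (v 3) φ

/-- The formula `Con_Γ (x)`, where `x` is the variable `3`: there is no proof of `⊥` from `Γ` whose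
length is at most `x`. -/
def con (P : Form) (Γ : List Form) : Form := inst 2 (code Γ) (inst 4 (code [bot]) P.neg)

/-- The sentence `Con_Γ (n)`. -/
def conAt (P : Form) (Γ : List Form) (n : ℕ) : Form := inst 3 n (con P Γ)

/-- The axioms of Robinson arithmetic `Q`, with relation symbols for the functions. -/
def robinson : List Form := [
  -- zero exists and is unique
  ex 0 (.zero 0),
  all 0 (all 1 ((Form.zero 0).imp ((Form.zero 1).imp (.eq 0 1)))),
  -- the successor is a function
  all 0 (ex 1 (.succ 0 1)),
  all 0 (all 1 (all 2 ((Form.succ 0 1).imp ((Form.succ 0 2).imp (.eq 1 2))))),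
  -- addition is a function
  all 0 (all 1 (ex 2 (.add 0 1 2))),
  all 0 (all 1 (all 2 (all 3 ((Form.add 0 1 2).imp ((Form.add 0 1 3).imp (.eq 2 3)))))),
  -- multiplication is a function
  all 0 (all 1 (ex 2 (.mul 0 1 2))),
  all 0 (all 1 (all 2 (all 3 ((Form.mul 0 1 2).imp ((Form.mul 0 1 3).imp (.eq 2 3)))))),
  -- zero is not a successor
  all 0 (all 1 ((Form.succ 0 1).imp (Form.zero 1).neg)),
  -- the successor is injective
  all 0 (all 1 (all 2 ((Form.succ 0 2).imp ((Form.succ 1 2).imp (.eq 0 1))))),
  -- everything else is a successor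
  all 0 ((Form.zero 0).or (ex 1 (.succ 1 0))),
  -- `x + 0 = x`
  all 0 (all 1 ((Form.zero 1).imp (.add 0 1 0))),
  -- `x + S y = S (x + y)`
  all 0 (all 1 (all 2 (all 3 (all 4 ((Form.succ 1 2).imp ((Form.add 0 1 3).imp
    ((Form.succ 3 4).imp (.add 0 2 4)))))))),
  -- `x * 0 = 0`
  all 0 (all 1 ((Form.zero 1).imp (.mul 0 1 1))),
  -- `x * S y = x * y + x`
  all 0 (all 1 (all 2 (all 3 (all 4 ((Form.succ 1 2).imp ((Form.mul 0 1 3).imp
    ((Form.add 3 0 4).imp (.mul 0 2 4))))))))]

end Pool.Agent.TH672
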