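import Pool.Agent.TH672.Defs

/-!
# Formulas with additional 4-ary predicate symbols, structures, the calculus
-/

set_option autoImplicit false

namespace Pool.Agent.TH672

/-- Formulas with additional predicate symbols `i : κ` with four arguments. -/
inductive Fm (κ : Type) : Type
  | bot : Fm κ
  | eq (x y : ℕ) : Fm κ
  | zero (x : ℕ) : Fm κ
  | succ (x y : ℕ) : Fm κ
  | add (x y z : ℕ) : Fm κ
  | mul (x y z : ℕ) : Fm κ
  | op (i : κ) (a b c d : ℕ) : Fm κ
  | imp (φ ψ : Fm κ) : Fm κ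
  | all (x : ℕ) (φ : Fm κ) : Fm κ

/-- Structures for these formulas. -/
structure Str (κ : Type) where
  /-- the domain -/
  M : Type
  ne : Nonempty M
  zero : M → Prop
  succ : M → M → Prop
  add : M → M → M → Prop
  mul : M → M → M → Prop
  op : κ → M → M → M → M → Prop

/-- updating an assignment -/
def upd {M : Type} (v : ℕ → M) (x : ℕ) (a : M) : ℕ → M := fun y => if y = x then a else v y

@[simp] theorem upd_same {M : Type} (v : ℕ → M) (x : ℕ) (a : M) : upd v x a x = a := by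
  simp [upd]

theorem upd_ne {M : Type} (v : ℕ → M) {x y : ℕ} (a : M) (h : y ≠ x) : upd v x a y = v y := by
  simp [upd, h]

theorem upd_eq_update {M : Type} (v : ℕ → M) (x : ℕ) (a : M) :
    upd v x a = Function.update v x a := by
  funext y
  simp [upd, Function.update_apply]

theorem upd_comm {M : Type} (v : ℕ → M) {x y : ℕ} (a b : M) (h : x ≠ y) :
    upd (upd v x a) y b = upd (upd v y b) x a := by
  funext z
  unfold upd
  split_ifs <;> simp_all

theorem upd_upd {M : Type} (v : ℕ → M) (x : ℕ) (a b : M) :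
    upd (upd v x a) x b = upd v x b := by
  funext z
  unfold upd
  split_ifs <;> simp_all

theorem upd_self {M : Type} (v : ℕ → M) (x : ℕ) : upd v x (v x) = v := by
  funext z
  unfold upd
  split_ifs <;> simp_all

namespace Fm

variable {κ : Type}

/-- negation -/
def neg (φ : Fm κ) : Fm κ := φ.imp bot

/-- conjunction -/
def and (φ ψ : Fm κ) : Fm κ := (φ.imp ψ.neg).neg

/-- disjunction -/
def or (φ ψ : Fm κ) : Fm κ := φ.neg.imp ψ

/-- equivalence -/
def iff (φ ψ : Fm κ) : Fm κ := (φ.imp ψ).and (ψ.imp φ)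

/-- existential quantifier -/
def ex (x : ℕ) (φ : Fm κ) : Fm κ := (all x φ.neg).neg

/-- satisfaction -/
def Sat (S : Str κ) : Fm κ → (ℕ → S.M) → Prop
  | bot, _ => False
  | eq x y, v => v x = v y
  | zero x, v => S.zero (v x)
  | succ x y, v => S.succ (v x) (v y)
  | add x y z, v => S.add (v x) (v y) (v z)
  | mul x y z, v => S.mul (v x) (v y) (v z)
  | op i a b c d, v => S.op i (v a) (v b) (v c) (v d)
  | imp φ ψ, v => Sat S φ v → Sat S ψ v
  | all x φ, v => ∀ a, Sat S φ (upd v x a)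

section satlemmas

variable (S : Str κ) (φ ψ : Fm κ) (v : ℕ → S.M)

@[simp] theorem sat_bot : Sat S bot v ↔ False := Iff.rfl
@[simp] theorem sat_eq (x y : ℕ) : Sat S (eq x y) v ↔ v x = v y := Iff.rfl
@[simp] theorem sat_zero (x : ℕ) : Sat S (zero x) v ↔ S.zero (v x) := Iff.rfl
@[simp] theorem sat_succ (x y : ℕ) : Sat S (succ x y) v ↔ S.succ (v x) (v y) := Iff.rfl
@[simp] theorem sat_add (x y z : ℕ) : Sat S (add x y z) v ↔ S.add (v x) (v y) (v z) := Iff.rfl
@[simp] theorem sat_mul (x y z : ℕ) : Sat S (mul x y z) v ↔ S.mul (v x) (v y) (v z) := Iff.rfl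
@[simp] theorem sat_op (i : κ) (a b c d : ℕ) :
    Sat S (op i a b c d) v ↔ S.op i (v a) (v b) (v c) (v d) := Iff.rfl
@[simp] theorem sat_imp : Sat S (imp φ ψ) v ↔ (Sat S φ v → Sat S ψ v) := Iff.rfl
@[simp] theorem sat_all (x : ℕ) : Sat S (all x φ) v ↔ ∀ a, Sat S φ (upd v x a) := Iff.rfl
@[simp] theorem sat_neg : Sat S (neg φ) v ↔ ¬ Sat S φ v := Iff.rfl
@[simp] theorem sat_and : Sat S (and φ ψ) v ↔ Sat S φ v ∧ Sat S ψ v := by
  simp only [and, sat_neg, sat_imp]; tauto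
@[simp] theorem sat_or : Sat S (or φ ψ) v ↔ Sat S φ v ∨ Sat S ψ v := by
  simp only [or, sat_neg, sat_imp]; tauto
@[simp] theorem sat_iff : Sat S (iff φ ψ) v ↔ (Sat S φ v ↔ Sat S ψ v) := by
  simp only [iff, sat_and, sat_imp]; tauto
@[simp] theorem sat_ex (x : ℕ) : Sat S (ex x φ) v ↔ ∃ a, Sat S φ (upd v x a) := by
  simp only [ex, sat_neg, sat_all, not_forall, not_not]

end satlemmas

/-- `x` occurs free -/
def Free (x : ℕ) : Fm κ → Prop
  | bot => False
  | eq u v => x = u ∨ x = v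
  | zero u => x = u
  | succ u v => x = u ∨ x = v
  | add u v w => x = u ∨ x = v ∨ x = w
  | mul u v w => x = u ∨ x = v ∨ x = w
  | op _ a b c d => x = a ∨ x = b ∨ x = c ∨ x = d
  | imp φ ψ => Free x φ ∨ Free x ψ
  | all u φ => x ≠ u ∧ Free x φ

/-- `x` is quantified somewhere -/
def Bd (x : ℕ) : Fm κ → Prop
  | imp φ ψ => Bd x φ ∨ Bd x ψ
  | all u φ => x = u ∨ Bd x φ
  | _ => False

/-- `x` occurs -/
def Occ (x : ℕ) (φ : Fm κ) : Prop := Free x φ ∨ Bd x φ

/-- the formula is a sentence -/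
def Closed (φ : Fm κ) : Prop := ∀ x, ¬ φ.Free x

/-- replace the free occurrences of `x` by `y` -/
def subst (x y : ℕ) : Fm κ → Fm κ
  | bot => bot
  | eq u v => eq (Form.ren x y u) (Form.ren x y v)
  | zero u => zero (Form.ren x y u)
  | succ u v => succ (Form.ren x y u) (Form.ren x y v)
  | add u v w => add (Form.ren x y u) (Form.ren x y v) (Form.ren x y w)
  | mul u v w => mul (Form.ren x y u) (Form.ren x y v) (Form.ren x y w)
  | op i a b c d => op i (Form.ren x y a) (Form.ren x y b) (Form.ren x y c) (Form.ren x y d)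
  | imp φ ψ => imp (φ.subst x y) (ψ.subst x y)
  | all u φ => if u = x then all u φ else all u (φ.subst x y)

/-- `y` is free for `x` -/
def FreeFor (y x : ℕ) : Fm κ → Prop
  | imp φ ψ => FreeFor y x φ ∧ FreeFor y x ψ
  | all u φ => u = x ∨ ¬ φ.Free x ∨ (u ≠ y ∧ FreeFor y x φ)
  | _ => _root_.True

end Fm

open Fm

/-- replacing some occurrences of `x` by `y` in an atomic formula -/
inductive ReplK {κ : Type} (x y : ℕ) : Fm κ → Fm κ → Prop
  | eq {u v u' v' : ℕ} : Sw x y u u' → Sw x y v v' → ReplK x y (.eq u v) (.eq u' v')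
  | zero {u u' : ℕ} : Sw x y u u' → ReplK x y (.zero u) (.zero u')
  | succ {u v u' v' : ℕ} : Sw x y u u' → Sw x y v v' → ReplK x y (.succ u v) (.succ u' v')
  | add {u v w u' v' w' : ℕ} : Sw x y u u' → Sw x y v v' → Sw x y w w' →
      ReplK x y (.add u v w) (.add u' v' w')
  | mul {u v w u' v' w' : ℕ} : Sw x y u u' → Sw x y v v' → Sw x y w w' →
      ReplK x y (.mul u v w) (.mul u' v' w')
  | op {i : κ} {a b c d a' b' c' d' : ℕ} : Sw x y a a' → Sw x y b b' → Sw x y c c' →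
      Sw x y d d' → ReplK x y (.op i a b c d) (.op i a' b' c' d')

/-- The logical axioms. -/
inductive LogK {κ : Type} : Fm κ → Prop
  | k (φ ψ : Fm κ) : LogK (φ.imp (ψ.imp φ))
  | s (φ ψ χ : Fm κ) : LogK ((φ.imp (ψ.imp χ)).imp ((φ.imp ψ).imp (φ.imp χ)))
  | dn (φ : Fm κ) : LogK (φ.neg.neg.imp φ)
  | inst (x y : ℕ) (φ : Fm κ) : φ.FreeFor y x → LogK ((Fm.all x φ).imp (φ.subst x y))
  | dist (x : ℕ) (φ ψ : Fm κ) : ¬ φ.Free x →
      LogK ((Fm.all x (φ.imp ψ)).imp (φ.imp (Fm.all x ψ)))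
  | refl (x : ℕ) : LogK (.eq x x)
  | repl (x y : ℕ) (φ ψ : Fm κ) : ReplK x y φ ψ → LogK ((Fm.eq x y).imp (φ.imp ψ))

/-- Provability from the set `T`. -/
inductive Pv {κ : Type} (T : Fm κ → Prop) : Fm κ → Prop
  | ax {φ : Fm κ} : T φ → Pv T φ
  | log {φ : Fm κ} : LogK φ → Pv T φ
  | mp {φ ψ : Fm κ} : Pv T (φ.imp ψ) → Pv T φ → Pv T ψ
  | gen {φ : Fm κ} (x : ℕ) : Pv T φ → Pv T (Fm.all x φ)

end Pool.Agent.TH672
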