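import Pool.Agent.TH672.StrN
import Pool.Agent.TH484.J264
import Pool.Agent.TH642.J265
import Pool.Agent.TH629.J266

/-!
# The main argument: the consistency of the extended axiom system
-/

set_option autoImplicit false

namespace Pool.Agent.TH672

open Form

variable {J : Type} {sz : J → ℕ} {C : J → List Form}

namespace Mn

theorem tr_fKK {ι ι' : Sy → Form} (A : List Form) {u w l u' w' l' : Sy} (hu : ι u = ι' u')
    (hw : ι w = ι' w') (hl : ι l = ι' l') (h1 : ι .tm3 = ι' .tm3) (h2 : ι .ln = ι' .ln) :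
    tr ι (fKK A u w l) = tr ι' (fKK A u' w' l') := by
  simp only [fKK, alls, imps, Fm.and, Fm.neg, tr, tr_isS ι, tr_isS ι', f1, f2, f3, hu, hw, hl, h1,
    h2]

theorem tr_fRR {ι ι' : Sy → Form} (σ : List Bool) {y y' z z' : Sy} (hy : ι y = ι' z)
    (hy' : ι y' = ι' z') : tr ι (fRR σ y y') = tr ι' (fRR σ z z') := by
  simp only [fRR, alls, Fm.iff, exs, Fm.ex, Fm.and, Fm.neg, tr, tr_appS ι, tr_appS ι', f1, hy, hy']

theorem tr_fCon {ι ι' : Sy → Form} (A : List Form) {n n' : Sy} (hn : ι n = ι' n')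
    (h1 : ι .p = ι' .p) : tr ι (fCon A n) = tr ι' (fCon A n') := by
  simp only [fCon, alls, imps, Fm.neg, tr, tr_isS ι, tr_isS ι', f1, f3, hn, h1]

theorem tr_fCon' {ι ι' : Sy → Form} {z n z' n' : Sy} (hz : ι z = ι' z') (hn : ι n = ι' n')
    (h1 : ι .p = ι' .p) : tr ι (fCon' z n) = tr ι' (fCon' z' n') := by
  simp only [fCon', alls, imps, Fm.neg, tr, tr_isS ι, tr_isS ι', f1, f3, hz, hn, h1]

theorem closed_fKK (A : List Form) (u w l : Sy) : (fKK A u w l).Closed := by
  intro x hx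
  simp [fKK, free_alls, Fm.Free, free_isS] at hx
  omega
theorem av_fKK (A : List Form) (u w l : Sy) : Av (fKK A u w l) := by
  simp [fKK, av_alls, Av, ok, av_isS']
theorem closed_fRR (σ : List Bool) (y y' : Sy) : (fRR σ y y').Closed := by
  intro x hx
  simp [fRR, free_alls, free_exs, Fm.Free, free_appS] at hx
  omega
theorem av_fRR (σ : List Bool) (y y' : Sy) : Av (fRR σ y y') := by
  simp [fRR, av_alls, av_exs, Av, ok, av_appS']
theorem closed_fCon (A : List Form) (n : Sy) : (fCon A n).Closed := by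
  intro x hx
  simp [fCon, free_alls, Fm.Free, free_isS] at hx
  omega
theorem av_fCon (A : List Form) (n : Sy) : Av (fCon A n) := by
  simp [fCon, av_alls, Av, ok, av_isS']
theorem closed_fCon' (z n : Sy) : (fCon' z n).Closed := by
  intro x hx
  simp [fCon', free_alls, Fm.Free, free_isS] at hx
  omega
theorem av_fCon' (z n : Sy) : Av (fCon' z n) := by
  simp [fCon', av_alls, Av, ok, av_isS']
theorem closed_fImp (y n : Sy) : (fImp y n).Closed := by
  intro x hx
  simp [fImp, free_alls, Fm.Free] at hx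
theorem av_fImp (y n : Sy) : Av (fImp y n) := by
  simp [fImp, av_alls, Av, ok]

theorem pb_flat {f : J → List Bool} (hf : Pb sz fun j => (f j).length) (t : Bool → List Bool) :
    Pb sz (fun j => ((f j).flatMap t).length) := by
  have h : ∀ w : List Bool, (w.flatMap t).length ≤ ((t false).length + (t true).length) * w.length := by
    intro w
    induction w with
    | nil => simp
    | cons a w ih =>
      simp only [List.flatMap_cons, List.length_append, List.length_cons, Nat.mul_succ]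
      cases a <;> omega
  exact ((Pb.const _).mul hf).mono fun j => h (f j)

/-- the semantic argument -/
theorem sem {P : Form} {S : Str Sy} (h : Mod P S) (A : List Form)
    {u w l z l1 l2 M q1 q2 q3 : S.M → Prop}
    (hk : ∀ a e f g, StrV S (strs A) a → u e → w f → l g → S.r3 .tm3 a e f ∧ S.r2 .ln e g)
    (hr : ∀ x, z x ↔ ∃ f, w f ∧ AppL S (con P A).str f x) (hu : ∃ e, u e) (hl : ∃ g, l g)
    (h1 : ∀ x, l1 x ↔ ∃ k, l k ∧ S.succ k x) (h2 : ∀ x, l2 x ↔ ∃ k, l1 k ∧ S.succ k x)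
    (hM : ∀ x y w, l2 x → l2 y → S.mul x y w → M w) (hM1 : ∀ x y, M x → M y → x = y)
    (hq1 : ∀ x y w, M x → M y → S.mul x y w → q1 w)
    (hq2 : ∀ x y w, q1 x → q1 y → S.mul x y w → q2 w)
    (hq3 : ∀ x y w, q2 x → q2 y → S.mul x y w → q3 w)
    (hc : ∀ a k y, StrV S (strs A) a → q3 k → StrV S [false, false, false] y → ¬ S.r3 .p a k y) :
    ∀ a k y, z a → M k → StrV S [false, false, false] y → ¬ S.r3 .p a k y := by
  intro a' k y hz hk' hy hp
  obtain ⟨f, hf, hf'⟩ := (hr a').1 hz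
  obtain ⟨e, he⟩ := hu
  obtain ⟨g, hg⟩ := hl
  obtain ⟨a, ha⟩ := J199.strV_ex h.rob (strs A)
  obtain ⟨ht, hln⟩ := hk a e f g ha he hf hg
  obtain ⟨g1, hg1⟩ := h.rob.s_ex g
  obtain ⟨g2, hg2⟩ := h.rob.s_ex g1
  have hl1 : l1 g1 := (h1 _).2 ⟨g, hg, hg1⟩
  have hl2 : l2 g2 := (h2 _).2 ⟨g1, hl1, hg2⟩
  obtain ⟨M', hM'⟩ := h.rob.m_ex g2 g2
  have e1 : M' = k := hM1 _ _ (hM _ _ _ hl2 hl2 hM') hk'
  subst e1
  obtain ⟨k1, hk1⟩ := h.rob.m_ex M' M'
  have hk1' := hq1 _ _ _ hk' hk' hk1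
  obtain ⟨k2, hk2⟩ := h.rob.m_ex k1 k1
  have hk2' := hq2 _ _ _ hk1' hk1' hk2
  obtain ⟨k3, hk3⟩ := h.rob.m_ex k2 k2
  have hk3' := hq3 _ _ _ hk2' hk2' hk3
  obtain ⟨w2, y', w3, hw2, hy', hw3, hw4⟩ := tm_std h A ha hf'
  have e2 : y' = y := J199.strV_un h.rob hy' hy
  subst e2
  exact hc a k3 y' ha hk3' hy
    (h.R2 a e f w2 y' w3 a' g g1 g2 M' k1 k2 k3 (lc_std h A ha) ht hw2 hy hw3 hw4 hln hg1 hg2 hM'
      hk1 hk2 hk3 hp)

end Mn

open Mn

/-- The main sentence, with roles. -/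
theorem Setting.family0 (E : Setting) (hce : Complete Empty) (hA : ∀ φ ∈ E.Γ, φ.Closed)
    {δ : J → List Bool} (hδ : Pb sz fun j => (δ j).length) {L M q1 q2 q3 : J → ℕ}
    {W : J → List Bool} (hL : ∀ j, L j = (δ j).length)
    (hW : ∀ j, W j = strs E.Γ ++ hd 3 ++ (δ j).flatMap (tmpl 3))
    (hM : ∀ j, M j = (L j + 1 + 1) * (L j + 1 + 1)) (hq1 : ∀ j, q1 j = M j * M j)
    (hq2 : ∀ j, q2 j = q1 j * q1 j) (hq3 : ∀ j, q3 j = q2 j * q2 j) :
    PD E.Γ sz C (fun j => tr (mk E.b [Yf E.b (W j ++ (TH672.con E.P E.Γ).str), Nf E.b (M j)])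
      (fCon' (.o 0) (.o 1))) := by
  have pL : Pb sz L := hδ.mono fun j => (hL j).le
  have pL1 : Pb sz fun j => L j + 1 := pL.add (Pb.const 1)
  have pL2 : Pb sz fun j => L j + 1 + 1 := pL1.add (Pb.const 1)
  have pM : Pb sz M := (pL2.mul pL2).mono fun j => (hM j).le
  have p1 : Pb sz q1 := (pM.mul pM).mono fun j => (hq1 j).le
  have p2 : Pb sz q2 := (p1.mul p1).mono fun j => (hq2 j).le
  have p3 : Pb sz q3 := (p2.mul p2).mono fun j => (hq3 j).le
  have pW : Pb sz fun j => (W j).length := by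
    have h : Pb sz fun j => (strs E.Γ ++ hd 3 ++ (δ j).flatMap (tmpl 3)).length := by
      simp only [List.length_append]
      exact (Pb.const _).add (pb_flat hδ _)
    exact h.mono fun j => by rw [hW j]
  have pz : Pb sz fun j => (W j ++ (TH672.con E.P E.Γ).str).length := by
    simp only [List.length_append]
    exact pW.add (Pb.const _)
  have main := E.stepM (sz := sz) (C := C) (Rs := [fun j => Yf E.b (δ j),
    fun j => Yf E.b (W j), fun j => Nf E.b (L j),
    fun j => Yf E.b (W j ++ (TH672.con E.P E.Γ).str),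
    fun j => Nf E.b (L j + 1), fun j => Nf E.b (L j + 1 + 1), fun j => Nf E.b (M j),
    fun j => Nf E.b (q1 j), fun j => Nf E.b (q2 j), fun j => Nf E.b (q3 j)]) ?_
    [fKK E.Γ (.o 0) (.o 1) (.o 2), fRR (TH672.con E.P E.Γ).str (.o 1) (.o 3), fEU (.o 0),
      fEU (.o 2), defEq (.o 4) (dN (.o 2)), defEq (.o 5) (dN (.o 4)), fMu (.o 5) (.o 5) (.o 6),
      fEU (.o 6), fMu (.o 6) (.o 6) (.o 7), fMu (.o 7) (.o 7) (.o 8), fMu (.o 8) (.o 8) (.o 9),
      fCon E.Γ (.o 9)] (fCon' (.o 3) (.o 6)) ?_ (closed_fCon' _ _) (av_fCon' _ _) ?_ ?_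
  · exact main
  · intro R hR
    simp only [List.mem_cons, List.not_mem_nil, or_false] at hR
    rcases hR with rfl | rfl | rfl | rfl | rfl | rfl | rfl | rfl | rfl | rfl
    · exact E.yf_role' hδ
    · exact E.yf_role' pW
    · exact E.nf_role' pL
    · exact E.yf_role' pz
    · exact E.nf_role' pL1
    · exact E.nf_role' pL2
    · exact E.nf_role' pM
    · exact E.nf_role' p1
    · exact E.nf_role' p2
    · exact E.nf_role' p3
  · intro ψ hψ
    simp only [List.mem_cons, List.not_mem_nil, or_false] at hψ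
    rcases hψ with rfl | rfl | rfl | rfl | rfl | rfl | rfl | rfl | rfl | rfl | rfl | rfl
    · exact ⟨closed_fKK _ _ _ _, av_fKK _ _ _ _⟩
    · exact ⟨closed_fRR _ _ _, av_fRR _ _ _⟩
    · exact ⟨closed_fEU _, av_fEU _⟩
    · exact ⟨closed_fEU _, av_fEU _⟩
    · exact ⟨closed_dN _ _, av_dN _ _⟩
    · exact ⟨closed_dN _ _, av_dN _ _⟩
    · exact ⟨closed_fMu _ _ _, av_fMu _ _ _⟩
    · exact ⟨closed_fEU _, av_fEU _⟩
    · exact ⟨closed_fMu _ _ _, av_fMu _ _ _⟩
    · exact ⟨closed_fMu _ _ _, av_fMu _ _ _⟩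
    · exact ⟨closed_fMu _ _ _, av_fMu _ _ _⟩
    · exact ⟨closed_fCon _ _, av_fCon _ _⟩
  · intro S v hm hv
    rw [sat_fCon']
    have g : ∀ ψ ∈ [fKK E.Γ (.o 0) (.o 1) (.o 2), fRR (TH672.con E.P E.Γ).str (.o 1) (.o 3),
      fEU (.o 0),
      fEU (.o 2), defEq (.o 4) (dN (.o 2)), defEq (.o 5) (dN (.o 4)), fMu (.o 5) (.o 5) (.o 6),
      fEU (.o 6), fMu (.o 6) (.o 6) (.o 7), fMu (.o 7) (.o 7) (.o 8), fMu (.o 8) (.o 8) (.o 9),
      fCon E.Γ (.o 9)], Fm.Sat S ψ v := hv
    simp only [List.mem_cons, List.not_mem_nil, or_false, forall_eq_or_imp, forall_eq] at g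
    obtain ⟨g1, g2, g3, g4, g5, g6, g7, g8, g9, g10, g11, g12⟩ := g
    exact sem hm E.Γ ((sat_fKK S _ _ _ _ v).1 g1) ((sat_fRR S _ _ _ v).1 g2)
      ((sat_fEU S _ v).1 g3).1 ((sat_fEU S _ v).1 g4).1 (sem_dN g5) (sem_dN g6)
      ((sat_fMu S _ _ _ v).1 g7) ((sat_fEU S _ v).1 g8).2 ((sat_fMu S _ _ _ v).1 g9)
      ((sat_fMu S _ _ _ v).1 g10) ((sat_fMu S _ _ _ v).1 g11) ((sat_fCon S _ _ v).1 g12)
  · intro ψ hψ
    simp only [List.mem_cons, List.not_mem_nil, or_false] at hψ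
    rcases hψ with rfl | rfl | rfl | rfl | rfl | rfl | rfl | rfl | rfl | rfl | rfl | rfl
    · have := E.kk (C := C) hδ
      simp only [← hW, ← hL] at this
      have e : trR E.b [fun j => Yf E.b (δ j), fun j => Yf E.b (W j), fun j => Nf E.b (L j),
          fun j => Yf E.b (W j ++ (TH672.con E.P E.Γ).str),
          fun j => Nf E.b (L j + 1), fun j => Nf E.b (L j + 1 + 1), fun j => Nf E.b (M j),
          fun j => Nf E.b (q1 j), fun j => Nf E.b (q2 j), fun j => Nf E.b (q3 j)]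
          (fKK E.Γ (.o 0) (.o 1) (.o 2)) = fun j => tr (mk E.b [Yf E.b (δ j), Yf E.b (W j),
            Nf E.b (L j)]) (fKK E.Γ (.o 0) (.o 1) (.o 2)) := by
        funext j
        exact tr_fKK _ rfl rfl rfl rfl rfl
      rw [e]
      exact this
    · have := E.rr (C := C) (TH672.con E.P E.Γ).str pW
      have e : trR E.b [fun j => Yf E.b (δ j), fun j => Yf E.b (W j), fun j => Nf E.b (L j),
          fun j => Yf E.b (W j ++ (TH672.con E.P E.Γ).str),
          fun j => Nf E.b (L j + 1), fun j => Nf E.b (L j + 1 + 1), fun j => Nf E.b (M j),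
          fun j => Nf E.b (q1 j), fun j => Nf E.b (q2 j), fun j => Nf E.b (q3 j)]
          (fRR (TH672.con E.P E.Γ).str (.o 1) (.o 3)) = fun j => tr (mk E.b [Yf E.b (W j),
            Yf E.b (W j ++ (TH672.con E.P E.Γ).str)])
            (fRR (TH672.con E.P E.Γ).str (.o 0) (.o 1)) := by
        funext j
        exact tr_fRR _ rfl rfl
      rw [e]
      exact this
    · exact E.euY hδ
    · exact E.eu pL
    · exact E.nf_succ pL
    · exact E.nf_succ pL1
    · have := E.mu (C := C) pL2 pL2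
      simp only [← hM] at this
      exact this
    · exact E.eu pM
    · have := E.mu (C := C) pM pM
      simp only [← hq1] at this
      exact this
    · have := E.mu (C := C) p1 p1
      simp only [← hq2] at this
      exact this
    · have := E.mu (C := C) p2 p2
      simp only [← hq3] at this
      exact this
    · have := E.con (C := C) hce hA p3
      have e : trR E.b [fun j => Yf E.b (δ j), fun j => Yf E.b (W j), fun j => Nf E.b (L j),
          fun j => Yf E.b (W j ++ (TH672.con E.P E.Γ).str),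
          fun j => Nf E.b (L j + 1), fun j => Nf E.b (L j + 1 + 1), fun j => Nf E.b (M j),
          fun j => Nf E.b (q1 j), fun j => Nf E.b (q2 j), fun j => Nf E.b (q3 j)]
          (fCon E.Γ (.o 9)) = fun j => tr (mk E.b [Nf E.b (q3 j)]) (fCon E.Γ (.o 0)) := by
        funext j
        exact tr_fCon _ rfl rfl
      rw [e]
      exact this

end Pool.Agent.TH672
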