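import Pool.Agent.TH672.Main1

/-!
# From the main sentence to the official formulas
-/

set_option autoImplicit false

namespace Pool.Agent.TH672

open Form Mn

variable {J : Type} {sz : J → ℕ} {C : J → List Form}

/-- smaller bounds -/
theorem Setting.down0 (E : Setting) {Z : J → Form} (hZ : Role sz Z) {M : J → ℕ} (hM : Pb sz M)
    (h : PD E.Γ sz C (fun j => tr (mk E.b [Z j, Nf E.b (M j)]) (fCon' (.o 0) (.o 1)))) :
    PD E.Γ (fun p : J × ℕ => sz p.1 + p.2) (fun p => C p.1)
      (fun p => tr (mk E.b [Z p.1, Nf E.b (M p.1 - p.2)]) (fCon' (.o 0) (.o 1))) := by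
  have hsz : Pb (fun p : J × ℕ => sz p.1 + p.2) (fun p => sz p.1) := Pb.size.mono fun p => by simp
  refine PD.ind (F := fun j k => tr (mk E.b [Z j, Nf E.b (M j - k)]) (fCon' (.o 0) (.o 1))) ?_ ?_
  · simpa using h
  · refine PD.split (fun p : J × ℕ => decide (M p.1 ≤ p.2)) fun a => ?_
    have hszq : Pb (fun q : {p : J × ℕ // decide (M p.1 ≤ p.2) = a} => sz q.1.1 + q.1.2)
        (fun q => sz q.1.1) := Pb.size.mono fun q => by simp
    cases a with
    | true =>
      refine PD.hyp fun q => ?_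
      have h1 : M q.1.1 ≤ q.1.2 := by simpa using q.2
      have e : M q.1.1 - (q.1.2 + 1) = M q.1.1 - q.1.2 := by omega
      simp only [e]
      exact List.mem_cons_self ..
    | false =>
      have hMq : Pb (fun q : {p : J × ℕ // decide (M p.1 ≤ p.2) = false} => sz q.1.1 + q.1.2)
          (fun q => M q.1.1) := hM.comp _ hszq
      have hM1 : Pb (fun q : {p : J × ℕ // decide (M p.1 ≤ p.2) = false} => sz q.1.1 + q.1.2)
          (fun q => M q.1.1 - (q.1.2 + 1)) := hMq.mono fun q => Nat.sub_le _ _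
      refine E.stepM (Rs := [fun q : {p : J × ℕ // decide (M p.1 ≤ p.2) = false} => Z q.1.1,
        fun q => Nf E.b (M q.1.1 - (q.1.2 + 1)),
        fun q => Nf E.b (M q.1.1 - (q.1.2 + 1) + 1)]) ?_
        [fCon' (.o 0) (.o 2), defEq (.o 2) (dN (.o 1))] (fCon' (.o 0) (.o 1)) ?_
        (closed_fCon' _ _) (av_fCon' _ _) ?_ ?_
      · intro R hR
        simp only [List.mem_cons, List.not_mem_nil, or_false] at hR
        rcases hR with rfl | rfl | rfl
        · exact ⟨hZ.1.comp _ hszq, fun q => hZ.2 _⟩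
        · exact E.nf_role' hM1
        · exact E.nf_role' (hM1.add (Pb.const 1))
      · intro ψ hψ
        simp only [List.mem_cons, List.not_mem_nil, or_false] at hψ
        rcases hψ with rfl | rfl
        · exact ⟨closed_fCon' _ _, av_fCon' _ _⟩
        · exact ⟨closed_dN _ _, av_dN _ _⟩
      · intro S v hm hv
        rw [sat_fCon']
        intro a k y hz hk hy hp
        have g1 := (sat_fCon' S _ _ v).1 (hv (fCon' (.o 0) (.o 2)) (by simp))
        have g2 := sem_dN (hv (defEq (.o 2) (dN (.o 1))) (by simp))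
        obtain ⟨k', hk'⟩ := hm.rob.s_ex k
        exact g1 a k' y hz ((g2 _).2 ⟨k, hk, hk'⟩) hy (hm.q4 _ _ _ _ hp hk')
      · intro ψ hψ
        simp only [List.mem_cons, List.not_mem_nil, or_false] at hψ
        rcases hψ with rfl | rfl
        · refine PD.hyp fun q => ?_
          have h1 : ¬ M q.1.1 ≤ q.1.2 := by simpa using q.2
          have e : M q.1.1 - (q.1.2 + 1) + 1 = M q.1.1 - q.1.2 := by omega
          have e2 : trR E.b [fun q : {p : J × ℕ // decide (M p.1 ≤ p.2) = false} => Z q.1.1,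
              fun q => Nf E.b (M q.1.1 - (q.1.2 + 1)),
              fun q => Nf E.b (M q.1.1 - (q.1.2 + 1) + 1)] (fCon' (.o 0) (.o 2)) q =
              tr (mk E.b [Z q.1.1, Nf E.b (M q.1.1 - q.1.2)]) (fCon' (.o 0) (.o 1)) := by
            rw [← e]
            exact tr_fCon' rfl rfl rfl
          rw [e2]
          exact List.mem_cons_self ..
        · exact E.nf_succ hM1

theorem Setting.down (E : Setting) {Z : J → Form} (hZ : Role sz Z) {M : J → ℕ} (hM : Pb sz M)
    (h : PD E.Γ sz C (fun j => tr (mk E.b [Z j, Nf E.b (M j)]) (fCon' (.o 0) (.o 1))))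
    {m : J → ℕ} (hm : ∀ j, m j ≤ M j) :
    PD E.Γ sz C (fun j => tr (mk E.b [Z j, Nf E.b (m j)]) (fCon' (.o 0) (.o 1))) := by
  have h1 := (E.down0 hZ hM h).comp (sz' := sz) (fun j : J => (j, M j - m j))
    ((Pb.size (sz := sz)).add (hM.mono fun j => Nat.sub_le _ _))
  have e : ∀ j, M j - (M j - m j) = m j := fun j => by have := hm j; omega
  simp only [e] at h1
  exact h1

/-- the dyadic numeral -/
theorem Setting.dyad (E : Setting) {Z : J → Form} (hZ : Role sz Z) {m : J → ℕ} (hm : Pb sz m)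
    (hd : Pb sz fun j => (digits (m j)).length)
    (h : PD E.Γ sz C (fun j => tr (mk E.b [Z j, Nf E.b (m j)]) (fCon' (.o 0) (.o 1)))) :
    PD E.Γ sz C (fun j => tr (mk E.b [Z j, Yf E.b (digits (m j))]) (fCon' (.o 0) (.o 1))) := by
  have main := E.stepM (sz := sz) (C := C) (Rs := [Z, fun j => Nf E.b (m j),
    fun j => Yf E.b (digits (m j))]) ?_ [fCon' (.o 0) (.o 1), fImp (.o 2) (.o 1)]
    (fCon' (.o 0) (.o 2)) ?_ (closed_fCon' _ _) (av_fCon' _ _) ?_ ?_
  · exact main
  · intro R hR
    simp only [List.mem_cons, List.not_mem_nil, or_false] at hR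
    rcases hR with rfl | rfl | rfl
    · exact hZ
    · exact E.nf_role' hm
    · exact E.yf_role' hd
  · intro ψ hψ
    simp only [List.mem_cons, List.not_mem_nil, or_false] at hψ
    rcases hψ with rfl | rfl
    · exact ⟨closed_fCon' _ _, av_fCon' _ _⟩
    · exact ⟨closed_fImp _ _, av_fImp _ _⟩
  · intro S v hM hv
    rw [sat_fCon']
    have g1 := (sat_fCon' S _ _ v).1 (hv (fCon' (.o 0) (.o 1)) (by simp))
    have g2 := (sat_fImp S _ _ v).1 (hv (fImp (.o 2) (.o 1)) (by simp))
    exact fun a k y h1 h2 => g1 a k y h1 (g2 _ h2)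
  · intro ψ hψ
    simp only [List.mem_cons, List.not_mem_nil, or_false] at hψ
    rcases hψ with rfl | rfl
    · exact h
    · exact E.yn hm

/-- the matrix of the consistency statement -/
def psi0 (P : Form) : Form := inst 4 (code [bot]) P.neg

/-- the sentence with the official formula -/
def fOff (P : Form) (z n : Sy) : Fm Sy := alls [3, 2] (imps [f1 n 3, f1 z 2] (emb' (psi0 P)))

theorem free_psi0 {P : Form} (hP : ∀ x, P.Free x → x = 2 ∨ x = 3 ∨ x = 4) (x : ℕ)
    (hx : (psi0 P).Free x) : x = 2 ∨ x = 3 := by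
  have h := free_inst 4 _ (by omega) _ _ hx
  have h2 : P.Free x ∨ False := h.2
  have := hP x (by simpa using h2)
  omega

theorem closed_fOff {P : Form} (hP : ∀ x, P.Free x → x = 2 ∨ x = 3 ∨ x = 4) (z n : Sy) :
    (fOff P z n).Closed := by
  intro x hx
  simp only [fOff, free_alls, free_imps_cons, free_imps_nil, free_f1, List.mem_cons,
    List.not_mem_nil, or_false] at hx
  obtain ⟨h1, h2 | h2 | h2⟩ := hx
  · omega
  · omega
  · obtain ⟨y, h3, rfl⟩ := free_emb' x h2
    rcases free_psi0 hP y h3 with rfl | rfl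
    · exact h1 (Or.inr rfl)
    · exact h1 (Or.inl rfl)

theorem av_fOff (P : Form) (z n : Sy) : Av (fOff P z n) := by
  simp [fOff, av_alls, av_emb', ok]

theorem sat_fOff {P : Form} (hP : ∀ x, P.Free x → x = 2 ∨ x = 3 ∨ x = 4) {S : Str Sy}
    (hm : Mod P S) {z n : Sy} {v : ℕ → S.M} (h : Fm.Sat S (fCon' z n) v) :
    Fm.Sat S (fOff P z n) v := by
  rw [sat_fCon'] at h
  simp only [fOff, Fm.sat_all, alls, imps, Fm.sat_imp]
  intro x3 x2 h1 h2
  have h1' : S.r1 n x3 := by simpa [f1, Fm.Sat, Str.r1, upd] using h1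
  have h2' : S.r1 z x2 := by simpa [f1, Fm.Sat, Str.r1, upd] using h2
  rw [sat_emb', psi0, sat_inst S 4 _ (by omega) _ (by
      intro h0; have h0' : P.Free 0 ∨ False := h0; have := hP 0 (by simpa using h0'); omega) (by
      intro h0; have h0' : P.Free 1 ∨ False := h0; have := hP 1 (by simpa using h0'); omega)]
  intro e he hp
  have e7 : digits (code [bot]) = [false, false, false] := J199.digits_num' _
  rw [e7] at he
  refine h x2 x3 e h2' h1' he (hm.p1 v _ _ _ ?_)
  rw [sat_emb']
  refine (sat_congr (fun x hx => ?_)).1 hp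
  have hx' := hP x (free_emb.1 hx)
  rcases hx' with rfl | rfl | rfl <;> simp [upd, rf]

end Pool.Agent.TH672
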