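import Pool.Agent.TH672.Main2
import Pool.Agent.TH894.J104

/-!
# The official formula
-/

set_option autoImplicit false

namespace Pool.Agent.TH672

open Form Mn

variable {J : Type} {sz : J → ℕ} {C : J → List Form}

theorem PD.mp {Γ : List Form} {F G : J → Form} (hG : Pb sz fun j => (G j).len)
    (h : PD Γ sz C (fun j => (F j).imp (G j))) (h' : PD Γ sz C F) : PD Γ sz C G := by
  obtain ⟨f, h1, h2⟩ := h
  obtain ⟨g, h3, h4⟩ := h'
  exact ⟨_, (h1.add h3).add hG, fun j => (h2 j).mp (h4 j)⟩

theorem PD.log {Γ : List Form} {F : J → Form} (hF : Pb sz fun j => (F j).len)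
    (h : ∀ j, LogAx (F j)) : PD Γ sz C F := ⟨_, hF, fun j => Ext.log (h j)⟩

theorem PD.trans {Γ : List Form} {F G H : J → Form} (hF : Pb sz fun j => (F j).len)
    (hG : Pb sz fun j => (G j).len) (hH : Pb sz fun j => (H j).len)
    (h : PD Γ sz C (fun j => (F j).imp (G j))) (h' : PD Γ sz C (fun j => (G j).imp (H j))) :
    PD Γ sz C (fun j => (F j).imp (H j)) := by
  obtain ⟨f, h1, h2⟩ := h
  obtain ⟨g, h3, h4⟩ := h'
  exact ⟨_, ((h1.add h3).add ((Pb.const 12).mul ((hF.add hG).add hH))).add (Pb.const 80),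
    fun j => (h2 j).trans (h4 j)⟩

theorem PD.weak {Γ : List Form} {F G : J → Form} (hF : Pb sz fun j => (F j).len)
    (hG : Pb sz fun j => (G j).len) (h : PD Γ sz C F) :
    PD Γ sz C (fun j => (G j).imp (F j)) := by
  obtain ⟨f, h1, h2⟩ := h
  exact ⟨_, ((h1.add ((Pb.const 3).mul hF)).add ((Pb.const 2).mul hG)).add (Pb.const 9),
    fun j => (h2 j).weak (G j)⟩

theorem PD.ident {Γ : List Form} {F : J → Form} (hF : Pb sz fun j => (F j).len) :
    PD Γ sz C (fun j => (F j).imp (F j)) :=
  ⟨_, ((Pb.const 50).mul hF).add (Pb.const 200), fun j => Ext.refl' (F j)⟩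

/-- replace the conclusion below two premises -/
theorem PD.chain {Γ : List Form} {X Y F G : J → Form} (hX : Pb sz fun j => (X j).len)
    (hY : Pb sz fun j => (Y j).len) (hF : Pb sz fun j => (F j).len)
    (hG : Pb sz fun j => (G j).len) (h : PD Γ sz C (fun j => (X j).imp ((Y j).imp (F j))))
    (h' : PD Γ sz C (fun j => (F j).imp (G j))) :
    PD Γ sz C (fun j => (X j).imp ((Y j).imp (G j))) := by
  have pi : ∀ {A B : J → Form}, (Pb sz fun j => (A j).len) → (Pb sz fun j => (B j).len) →
      Pb sz fun j => ((A j).imp (B j)).len := fun hA hB =>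
    ((hA.add hB).add (Pb.const 3)).mono fun j => (Ext.len_imp _ _).le
  have hYF := pi hY hF
  have hYG := pi hY hG
  have hFG := pi hF hG
  have h1 : PD Γ sz C (fun j => (Y j).imp ((F j).imp (G j))) := h'.weak hFG hY
  have h2 : PD Γ sz C (fun j => ((Y j).imp (F j)).imp ((Y j).imp (G j))) :=
    (PD.log (pi (pi hY hFG) (pi hYF hYG)) fun j => LogAx.s (Y j) (F j) (G j)).mp (pi hYF hYG) h1
  exact h.trans hX hYF hYG h2

theorem PD.inst_self {Γ : List Form} {F : J → Form} (x : ℕ) (hF : Pb sz fun j => (F j).len)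
    (h : PD Γ sz C (fun j => Form.all x (F j))) : PD Γ sz C F := by
  have h1 : PD Γ sz C (fun j => (Form.all x (F j)).imp (F j)) := by
    refine PD.log ?_ fun j => ?_
    · refine ((((hF.add (Pb.const x)).add (Pb.const 4)).add hF).add (Pb.const 3)).mono
        fun j => ?_
      rw [Ext.len_imp, Ext.len_all]
    · have := LogAx.inst x x (F j) (freeFor_self x _)
      rwa [subst_self] at this
  exact h1.mp hF h

theorem free_At1 {R : Form} (hR : OkF R) (x y : ℕ) (h : (At1 R x).Free y) : y = x := by
  simp only [At1, wrap, Form.Free] at h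
  have h1 : R.Free y → ¬ ok y := hR y
  unfold ok at h1
  by_cases hr : R.Free y
  · have := h1 hr
    omega
  · simp only [hr, or_false] at h
    omega

theorem At1_len (R : Form) (x : ℕ) : (At1 R x).len = R.len + (wrap x x x x .bot).len - 3 := by
  simp only [At1, wrap, Ext.len_all, Ext.len_imp]
  have : Form.bot.len = 3 := rfl
  omega

theorem pb_At1 {R : J → Form} (x : ℕ) (h : Pb sz fun j => (R j).len) :
    Pb sz fun j => (At1 (R j) x).len :=
  (h.add (Pb.const (wrap x x x x .bot).len)).mono fun j => by rw [At1_len]; omega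

theorem inst_len (x n : ℕ) (φ : Form) :
    (inst x n φ).len = (hd x).length + ((digits n).flatMap (tmpl x)).length + φ.len := by
  simp only [Form.len, str_inst, List.length_append]

theorem pb_inst {φ : J → Form} {n : J → ℕ} (x : ℕ) (h : Pb sz fun j => (φ j).len)
    (hn : Pb sz fun j => (digits (n j)).length) : Pb sz fun j => (inst x (n j) (φ j)).len := by
  simp only [inst_len]
  exact ((Pb.const _).add (pb_flat hn _)).add h

/-- From the sentence with roles to the official formula. -/
theorem Setting.official (E : Setting) (hce : Complete Empty) {τ : J → List Bool} {m : J → ℕ}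
    (hτ : Pb sz fun j => (τ j).length) (hd : Pb sz fun j => (digits (m j)).length)
    (h : PD E.Γ sz C (fun j => tr (mk E.b [Yf E.b (τ j), Yf E.b (digits (m j))])
      (fCon' (.o 0) (.o 1)))) :
    PD E.Γ sz C (fun j => inst 3 (m j) (inst 2 (num (τ j)) (psi0 E.P))) := by
  have r1 := E.yf_role' hτ
  have r2 := E.yf_role' hd
  have pX : Pb sz fun j => (At1 (Yf E.b (digits (m j))) 3).len := pb_At1 3 r2.1
  have pY : Pb sz fun j => (At1 (Yf E.b (τ j)) 2).len := pb_At1 2 r1.1
  have pi : ∀ {A B : J → Form}, (Pb sz fun j => (A j).len) → (Pb sz fun j => (B j).len) →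
      Pb sz fun j => ((A j).imp (B j)).len := fun hA hB =>
    ((hA.add hB).add (Pb.const 3)).mono fun j => (Ext.len_imp _ _).le
  -- the sentence with the formula in the form of the translation
  have h1 : PD E.Γ sz C (trR E.b [fun j => Yf E.b (τ j), fun j => Yf E.b (digits (m j))]
      (fOff E.P (.o 0) (.o 1))) := by
    refine E.stepM ?_ [fCon' (.o 0) (.o 1)] (fOff E.P (.o 0) (.o 1)) ?_
      (closed_fOff E.hP _ _) (av_fOff _ _ _) ?_ ?_
    · intro R hR
      simp only [List.mem_cons, List.not_mem_nil, or_false] at hR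
      rcases hR with rfl | rfl
      · exact r1
      · exact r2
    · intro ψ hψ
      simp only [List.mem_cons, List.not_mem_nil, or_false] at hψ
      rw [hψ]
      exact ⟨closed_fCon' _ _, av_fCon' _ _⟩
    · intro S v hm hv
      exact sat_fOff E.hP hm (hv _ (by simp))
    · intro ψ hψ
      simp only [List.mem_cons, List.not_mem_nil, or_false] at hψ
      rw [hψ]
      exact h
  have e : ∀ j, tr (mk E.b [Yf E.b (τ j), Yf E.b (digits (m j))]) (emb' (psi0 E.P)) =
      tr (mk E.b []) (emb' (psi0 E.P)) := fun j =>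
    tr_congr fun i hi => absurd hi (uses_emb' _ _)
  have h2 : PD E.Γ sz C (fun j => Form.all 3 (Form.all 2
      ((At1 (Yf E.b (digits (m j))) 3).imp ((At1 (Yf E.b (τ j)) 2).imp
        (tr (mk E.b []) (emb' (psi0 E.P))))))) := by
    have e2 : trR E.b [fun j => Yf E.b (τ j), fun j => Yf E.b (digits (m j))]
        (fOff E.P (.o 0) (.o 1)) = fun j => Form.all 3 (Form.all 2
      ((At1 (Yf E.b (digits (m j))) 3).imp ((At1 (Yf E.b (τ j)) 2).imp
        (tr (mk E.b []) (emb' (psi0 E.P)))))) := by
      funext j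
      rw [← e j]
      rfl
    rw [← e2]
    exact h1
  have pT : Pb sz fun _ => (tr (mk E.b []) (emb' (psi0 E.P))).len := Pb.const _
  have pXYT := pi pX (pi pY pT)
  have pA : Pb sz fun j => (Form.all 2
      ((At1 (Yf E.b (digits (m j))) 3).imp ((At1 (Yf E.b (τ j)) 2).imp
        (tr (mk E.b []) (emb' (psi0 E.P)))))).len :=
    (pXYT.add (Pb.const 6)).mono fun j => by rw [Ext.len_all]
  have h3 := (h2.inst_self 3 pA).inst_self 2 pXYT
  have pP : Pb sz fun _ => (psi0 E.P).len := Pb.const _
  have h4 : PD E.Γ sz C (fun _ => (tr (mk E.b []) (emb' (psi0 E.P))).imp (psi0 E.P)) := by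
    obtain ⟨K, hK⟩ := rename_back hce (psi0 E.P) (fun x hx => by
      have := free_psi0 E.hP x hx
      omega)
    exact PD.const fun j => hK _ _ _
  have h5 := h3.chain pX pY pT pP h4
  -- the first variable
  have h6 := E.peel 2 (by omega) pX (fun j y hy => by
    have := free_At1 (r2.2 j) 3 y hy
    omega) pP hτ h5
  have pI : Pb sz fun j => (inst 2 (num (τ j)) (psi0 E.P)).len :=
    pb_inst 2 pP (by simpa only [J199.digits_num'] using hτ)
  -- the second variable
  have pB : Pb sz fun _ => (bot.imp bot).len := Pb.const _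
  have h7 := h6.weak (pi pX pI) pB
  have h8 := E.peel 3 (by omega) pB (fun j y hy => by simp [Form.Free] at hy) pI hd h7
  have pF : Pb sz fun j => (inst 3 (m j) (inst 2 (num (τ j)) (psi0 E.P))).len :=
    pb_inst 3 pI hd
  have h9 : PD E.Γ sz C (fun j => (bot.imp bot).imp (inst 3 (m j)
      (inst 2 (num (τ j)) (psi0 E.P)))) := by
    have e : ∀ j, num (digits (m j)) = m j := fun j => R104.num_digits _
    simp only [e] at h8
    exact h8
  exact h9.mp pF (PD.ident (Pb.const _))

/-- The main result for polynomially many formulas. -/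
theorem Setting.main (E : Setting) (hce : Complete Empty) (hA : ∀ φ ∈ E.Γ, φ.Closed)
    {N m : J → ℕ} (hN : Pb sz fun j => (digits (N j)).length) (hm : Pb sz m)
    (hdm : Pb sz fun j => (digits (m j)).length)
    (hle : ∀ j, m j ≤ ((digits (N j)).length + 2) * ((digits (N j)).length + 2)) :
    PD E.Γ sz C (fun j => conAt E.P (E.Γ ++ [conAt E.P E.Γ (N j)]) (m j)) := by
  have hL2 : Pb sz fun j => (digits (N j)).length + 1 + 1 := (hN.add (Pb.const 1)).add (Pb.const 1)
  have hW : Pb sz fun j => (strs E.Γ ++ hd 3 ++ (digits (N j)).flatMap (tmpl 3)).length := by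
    simp only [List.length_append]
    exact (Pb.const _).add (pb_flat hN _)
  have pz : Pb sz fun j => (strs E.Γ ++ hd 3 ++ (digits (N j)).flatMap (tmpl 3) ++
      (TH672.con E.P E.Γ).str).length := by
    have := hW.add (Pb.const (TH672.con E.P E.Γ).str.length)
    simpa only [List.length_append] using this
  have h1 := E.family0 (C := C) hce hA hN (L := fun j => (digits (N j)).length)
    (W := fun j => strs E.Γ ++ hd 3 ++ (digits (N j)).flatMap (tmpl 3)) (fun j => rfl)
    (fun j => rfl) (fun j => rfl) (fun j => rfl) (fun j => rfl) (fun j => rfl)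
  have hZ := E.yf_role' pz
  have h2 := E.down hZ (hL2.mul hL2) h1 hle
  have h3 := E.dyad hZ hm hdm h2
  have h4 := E.official hce pz hdm h3
  have e : ∀ j, strs (E.Γ ++ [conAt E.P E.Γ (N j)]) = strs E.Γ ++ hd 3 ++
      (digits (N j)).flatMap (tmpl 3) ++ (TH672.con E.P E.Γ).str := by
    intro j
    simp only [strs, List.flatMap_append, List.flatMap_cons, List.flatMap_nil, List.append_nil,
      conAt, str_inst, List.append_assoc]
  simp only [← e] at h4
  exact h4

end Pool.Agent.TH672
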