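import Pool.Agent.TH672.Std1
import Pool.Agent.TH311.J196
import Pool.Agent.TH190.J197

/-!
# The standard structure satisfies the hypotheses
-/

set_option autoImplicit false

namespace Pool.Agent.TH672

open Fm

theorem mod_std (P : Form) (hP : Represents P) : Mod P Std where
  rob := std_rob
  c1 := std_c1
  c2 := std_c2
  v1 := std_v1
  v2 := std_v2
  f0 := std_f0
  f1 := std_f1
  f2 := std_f2
  f2' := std_f2'
  f3 := std_f3
  f3' := std_f3'
  f6 := std_f6
  f7 := std_f7
  l1 := std_l1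
  l2 := std_l2
  l3 := std_l3
  l4 := std_l4
  k0 := std_k0
  k0' := std_k0'
  k1 := std_k1
  k2 := std_k2
  k3 := std_k3
  k4 := std_k4
  k5 := std_k5
  k6 := std_k6
  k7 := std_k7
  d0 := std_d0
  d1 := std_d1
  d2 := std_d2
  d3 := std_d3
  d4 := std_d4
  d5 := std_d5
  d6 := std_d6
  d7 := std_d7
  d8 := std_d8
  q0 := std_q0
  q1 := std_q1
  q2 := std_q2
  q3 := std_q3
  q4 := std_q4
  t1 := std_t1
  t2 := std_t2
  n1 := std_n1
  n2 := std_n2
  R2 := std_R2 P hP.1
  p1 := std_p1 P hP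

end Pool.Agent.TH672
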