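import Pool.Agent.TH672.Main3
import Pool.Agent.TH672.Std2
import Pool.Agent.TH672.Sound
import Pool.Agent.TH690.J100
import Pool.Agent.TH8.J103

/-!
# The theorem
-/

set_option autoImplicit false

namespace Pool.Agent.TH672

open Form

theorem complete_of (κ : Type) [Countable κ] : Complete κ := fun T φ hT hφ h =>
  TH690.J100.completeness T φ hT hφ h

/-- the variables `5`, ..., `8` are not free in translations -/
theorem tr_not_free {κ : Type} {ι : κ → Form} (hι : Okι ι) {x : ℕ} (hx : ¬ ok x) :
    ∀ {φ : Fm κ}, Av φ → ¬ (tr ι φ).Free x := by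
  intro φ
  induction φ with
  | op i a b c d =>
    rintro ⟨ha, hb, hc, hd⟩ h
    have h' : x = 5 ∨ x = 6 ∨ x = 7 ∨ x = 8 := by unfold ok at hx; omega
    simp only [tr, wrap, Form.Free] at h
    unfold ok at ha hb hc hd
    by_cases hr : (ι i).Free x
    · simp only [hr, or_true] at h
      omega
    · simp only [hr, or_false] at h
      omega
  | imp φ ψ ih ih' =>
    rintro ⟨h1, h2⟩ h
    rcases h with h | h
    · exact ih h1 h
    · exact ih' h2 h
  | all y φ ih =>
    rintro ⟨h1, h2⟩ ⟨h3, h4⟩
    exact ih h2 h4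
  | bot => intro _ h; exact h
  | eq y z =>
    rintro ⟨h1, h2⟩ h
    simp only [tr, Form.Free] at h
    rcases h with rfl | rfl
    · exact hx h1
    · exact hx h2
  | zero y =>
    intro h1 h
    simp only [tr, Form.Free] at h
    subst h
    exact hx h1
  | succ y z =>
    rintro ⟨h1, h2⟩ h
    simp only [tr, Form.Free] at h
    rcases h with rfl | rfl
    · exact hx h1
    · exact hx h2
  | add y z w =>
    rintro ⟨h1, h2, h3⟩ h
    simp only [tr, Form.Free] at h
    rcases h with rfl | rfl | rfl
    · exact hx h1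
    · exact hx h2
    · exact hx h3
  | mul y z w =>
    rintro ⟨h1, h2, h3⟩ h
    simp only [tr, Form.Free] at h
    rcases h with rfl | rfl | rfl
    · exact hx h1
    · exact hx h2
    · exact hx h3

theorem tr_closed' {κ : Type} {ι : κ → Form} (hι : Okι ι) {φ : Fm κ} (hφ : φ.Closed)
    (ha : Av φ) : (tr ι φ).Closed := by
  intro x hx
  by_cases h : ok x
  · exact hφ x ((tr_free hι h).1 hx)
  · exact tr_not_free hι h ha hx

theorem tr_robinson {ι : Sy → Form} : ∀ φ ∈ robinson, tr ι (emb' φ) = φ := by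
  intro φ hφ
  simp only [robinson, List.mem_cons, List.not_mem_nil, or_false] at hφ
  rcases hφ with rfl | rfl | rfl | rfl | rfl | rfl | rfl | rfl | rfl | rfl | rfl | rfl | rfl |
    rfl | rfl <;> rfl

theorem mk_self {ι : Sy → Form} (h : ∀ j, ι (.o j) = Form.bot) : mk ι [] = ι := by
  funext s
  cases s with
  | o j => simp [mk, h]
  | _ => rfl

theorem digits_pred_length (k : ℕ) : (digits (2 ^ k - 1)).length = k := by
  induction k with
  | zero => rw [digits]; simp
  | succ k ih =>
    have h1 : 0 < 2 ^ k := Nat.pow_pos (by omega)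
    have h2 : 2 ^ (k + 1) = 2 * 2 ^ k := by rw [pow_succ, Nat.mul_comm]
    have h3 : 2 ^ (k + 1) - 1 ≠ 0 := by omega
    have h4 : (2 ^ (k + 1) - 1 - 1) / 2 = 2 ^ k - 1 := by omega
    rw [digits, dif_neg h3, h4, List.length_append, ih]
    rfl

/-- the number of the dyadic digits of powers of two -/
theorem digits_two_pow (n : ℕ) : (digits (2 ^ n)).length = max n 1 := by
  have h0 : 0 < 2 ^ n := Nat.pow_pos (by omega)
  rw [digits, dif_neg (by omega)]
  rcases n with _ | k
  · have h : (2 ^ 0 - 1) / 2 = 0 := by norm_num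
    rw [h, digits]
    simp
  · have h2 : 2 ^ (k + 1) = 2 * 2 ^ k := by rw [pow_succ, Nat.mul_comm]
    have h1 : 0 < 2 ^ k := Nat.pow_pos (by omega)
    have h4 : (2 ^ (k + 1) - 1) / 2 = 2 ^ k - 1 := by omega
    rw [h4, List.length_append, digits_pred_length]
    simp

theorem digits_le (m : ℕ) : (digits m).length ≤ m := by
  have h := J266.length_le_num (digits m)
  rwa [R104.num_digits] at h

/-- The axiomatization. -/
def theA (ι : Sy → Form) (P : Form) (T : List Form) : List Form :=
  robinson ++ T ++ (T1 P).map (tr ι)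

/-- The main theorem. -/
theorem mycielski : (∃ P, Represents P) ∧ ∀ P, Represents P → ∀ T : List Form,
    (∀ φ ∈ T, φ.Closed ∧ φ.True) → ∃ A : List Form, robinson ⊆ A ∧ T ⊆ A ∧
      (∀ φ ∈ A, φ.Closed ∧ φ.True) ∧ (∀ m, ¬ Proves A m bot) ∧
      ∃ p : Polynomial ℕ, ∀ n, ∀ m ≤ (n + 1) ^ 2,
        Proves A (p.eval n) (conAt P (A ++ [conAt P A (2 ^ n)]) m) := by
  refine ⟨exists_represents, fun P hP T hT => ?_⟩
  obtain ⟨ι, hι, hο, hh⟩ := exists_aux P hP
  have hmk : mk ι [] = ι := mk_self hο
  have hclosed : ∀ φ ∈ theA ι P T, φ.Closed := by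
    intro φ hφ
    simp only [theA, List.mem_append, List.mem_map] at hφ
    rcases hφ with (h | h) | ⟨ψ, h, rfl⟩
    · exact robinson_closed φ h
    · exact (hT φ h).1
    · exact tr_closed' hι (closed_T1 P hP.1 ψ h) (av_T1 P ψ h)
  have htrue : ∀ φ ∈ theA ι P T, φ.True := by
    intro φ hφ
    simp only [theA, List.mem_append, List.mem_map] at hφ
    rcases hφ with (h | h) | ⟨ψ, h, rfl⟩
    · exact robinson_true φ h
    · exact (hT φ h).2
    · intro v
      exact (tr_holds hh ψ (av_T1 P ψ h) v).2 (sat_of_mod (mod_std P hP) ψ h v)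
  let E : Setting := Setting.build (complete_of Sy) ι hι P hP.1 (theA ι P T) (by
    intro ψ hψ
    rw [hmk]
    rcases List.mem_append.1 hψ with h | h
    · obtain ⟨φ, h1, rfl⟩ := List.mem_map.1 h
      rw [tr_robinson φ h1]
      exact List.mem_append_left _ (List.mem_append_left _ h1)
    · exact List.mem_append_right _ (List.mem_map_of_mem h))
  refine ⟨theA ι P T, ?_, ?_, fun φ hφ => ⟨hclosed φ hφ, htrue φ hφ⟩, ?_, ?_⟩
  · intro φ hφ
    exact List.mem_append_left _ (List.mem_append_left _ hφ)
  · intro φ hφ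
    exact List.mem_append_left _ (List.mem_append_right _ hφ)
  · intro m hm
    exact soundness htrue hm (fun _ => 0)
  · -- the index set
    let J : Type := {q : ℕ × ℕ // q.2 ≤ (q.1 + 1) ^ 2}
    let sz : J → ℕ := fun q => q.1.1
    have hN : Pb sz fun q : J => (digits (2 ^ q.1.1)).length := by
      refine ((Pb.size (sz := sz)).add (Pb.const 1)).mono fun q => ?_
      rw [digits_two_pow]
      exact max_le (Nat.le_succ _) (Nat.le_add_left _ _)
    have hm : Pb sz fun q : J => q.1.2 :=
      (((Pb.size (sz := sz)).add (Pb.const 1)).pow 2).mono fun q => q.2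
    have hd : Pb sz fun q : J => (digits q.1.2).length := hm.mono fun q => digits_le _
    have main := E.main (C := fun _ => []) (complete_of Empty) hclosed (N := fun q : J => 2 ^ q.1.1)
      (m := fun q => q.1.2) hN hm hd (fun q => by
        refine q.2.trans ?_
        rw [digits_two_pow, ← pow_two]
        exact Nat.pow_le_pow_left (by omega) 2)
    obtain ⟨f, ⟨c, hc⟩, hE⟩ := main
    refine ⟨Polynomial.C c * (Polynomial.X + 1) ^ c, fun n m hm => ?_⟩
    have h1 := (hE ⟨(n, m), hm⟩).le (hc ⟨(n, m), hm⟩)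
    have e : (Polynomial.C c * (Polynomial.X + 1) ^ c : Polynomial ℕ).eval n =
        c * (n + 1) ^ c := by simp
    rw [e]
    exact h1.proves

end Pool.Agent.TH672
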