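import Pool.Agent.TH672.T0

/-!
# Structures in which the true sentences hold
-/

set_option autoImplicit false

namespace Pool.Agent.TH672

open Fm

/-- The facts about the additional symbols. -/
def T1 (P : Form) : List (Fm Sy) :=
  [tC1, tC2 false, tC2 true, tV1, tV2, tF0, tF1 [false, true, false], tF2 [false, false, true],
   tF2 [false, true, true], tF3 [true, false, false], tF3 [true, false, true], tF6, tF7,
   tL1, tL2, tL3, tL4, tK0, tK0', tK1, tK2, tK3, tK4, tK5, tK6, tK7,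
   tD0, tD1, tD2, tD3, tD4, tD5, tD6, tD7, tD8, tQ0, tQ1, tQ2, tQ3, tQ4,
   tT1 .tm2 2, tT1 .tm3 3, tT1 .tm4 4, tT2 .tm2 2 false, tT2 .tm2 2 true, tT2 .tm3 3 false,
   tT2 .tm3 3 true, tT2 .tm4 4 false, tT2 .tm4 4 true, tN1, tN2 false, tN2 true,
   tR2 P.neg.str, tP P]

/-- The axioms of Robinson arithmetic (in a structure). -/
structure Rob {κ : Type} (S : Str κ) : Prop where
  z_ex : ∃ x, S.zero x
  z_un : ∀ x y, S.zero x → S.zero y → x = y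
  s_ex : ∀ x, ∃ y, S.succ x y
  s_un : ∀ x y z, S.succ x y → S.succ x z → y = z
  a_ex : ∀ x y, ∃ z, S.add x y z
  a_un : ∀ x y z w, S.add x y z → S.add x y w → z = w
  m_ex : ∀ x y, ∃ z, S.mul x y z
  m_un : ∀ x y z w, S.mul x y z → S.mul x y w → z = w
  s_nz : ∀ x y, S.succ x y → ¬ S.zero y
  s_inj : ∀ x y z, S.succ x z → S.succ y z → x = y
  pred : ∀ x, ¬ S.zero x → ∃ y, S.succ y x
  a_z : ∀ x y, S.zero y → S.add x y x
  a_s : ∀ x y y' w w', S.succ y y' → S.add x y w → S.succ w w' → S.add x y' w'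
  m_z : ∀ x y, S.zero y → S.mul x y y
  m_s : ∀ x y y' w w', S.succ y y' → S.mul x y w → S.add w x w' → S.mul x y' w'

theorem rob_of_sat {κ : Type} (S : Str κ) (v : ℕ → S.M)
    (h : ∀ φ ∈ robinson, Sat S (emb φ : Fm κ) v) : Rob S := by
  simp only [robinson, List.mem_cons, List.not_mem_nil, or_false, forall_eq_or_imp,
    forall_eq] at h
  obtain ⟨h1, h2, h3, h4, h5, h6, h7, h8, h9, h10, h11, h12, h13, h14, h15⟩ := h
  simp [emb, Form.ex, Form.neg, Form.or, upd, Fm.Sat] at h1 h2 h3 h4 h5 h6 h7 h8 h9 h10 h11 h12 h13 h14 h15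
  exact ⟨h1, h2, h3, h4, h5, h6, h7, h8, h9, fun x y z => h10 x y z, h11, h12, h13, h14, h15⟩

/-- The hypotheses about a structure. -/
structure Mod (P : Form) (S : Str Sy) : Prop where
  rob : Rob S
  c1 : ∀ x y, S.zero y → S.r3 .cat x y x
  c2 : ∀ (b : Bool) (x y w y' w' : S.M), S.r3 .cat x y w → App S b y y' →
    App S b w w' → S.r3 .cat x y' w'
  v1 : ∀ x u, S.zero x → StrV S [false] u → S.r2 .vs x u
  v2 : ∀ x u x' c u', S.r2 .vs x u → S.succ x x' → StrV S [true] c →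
    S.r3 .cat c u u' → S.r2 .vs x' u'
  f0 : ∀ y, StrV S [false, false, false] y → S.r2 .mem y y
  f1 : ∀ y x, P1 S [false, true, false] y x → S.r2 .mem y y
  f2 : ∀ y x x', P2 S [false, false, true] y x x' → S.r2 .mem y y
  f2' : ∀ y x x', P2 S [false, true, true] y x x' → S.r2 .mem y y
  f3 : ∀ y x x' x'', P3 S [true, false, false] y x x' x'' → S.r2 .mem y y
  f3' : ∀ y x x' x'', P3 S [true, false, true] y x x' x'' → S.r2 .mem y y
  f6 : ∀ y y1 y2, PI S y y1 y2 → S.r2 .mem y y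
  f7 : ∀ y x y1, PA S y x y1 → S.r2 .mem y y
  l1 : ∀ x, S.zero x → S.r1 .lc x
  l2 : ∀ x y, S.zero x → ¬ S.r2 .mem y x
  l3 : ∀ x y w, S.r1 .lc x → S.r2 .mem y y → S.r3 .cat x y w → S.r1 .lc w
  l4 : ∀ x y w u, S.r1 .lc x → S.r2 .mem y y → S.r3 .cat x y w →
    S.r2 .mem u w → S.r2 .mem u x ∨ u = y
  k0 : ∀ y s F, StrV S [false, false, false] y → S.r3 .cl y s F →
    S.r1 .at F ∧ ¬ S.r1 .tt F
  k0' : ∀ y, StrV S [false, false, false] y → ∃ s F, S.r3 .cl y s F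
  k1 : ∀ y x x' s F a b, P2 S [false, false, true] y x x' →
    S.r3 .cl y s F → S.r3 .vv s x a → S.r3 .vv s x' b → S.r1 .at F ∧ (S.r1 .tt F ↔ a = b)
  k2 : ∀ y x s F a, P1 S [false, true, false] y x →
    S.r3 .cl y s F → S.r3 .vv s x a → S.r1 .at F ∧ (S.r1 .tt F ↔ S.zero a)
  k3 : ∀ y x x' s F a b, P2 S [false, true, true] y x x' →
    S.r3 .cl y s F → S.r3 .vv s x a → S.r3 .vv s x' b → S.r1 .at F ∧ (S.r1 .tt F ↔ S.succ a b)
  k4 : ∀ y x x' x'' s F a b c, P3 S [true, false, false] y x x' x'' →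
    S.r3 .cl y s F → S.r3 .vv s x a → S.r3 .vv s x' b → S.r3 .vv s x'' c →
    S.r1 .at F ∧ (S.r1 .tt F ↔ S.add a b c)
  k5 : ∀ y x x' x'' s F a b c, P3 S [true, false, true] y x x' x'' →
    S.r3 .cl y s F → S.r3 .vv s x a → S.r3 .vv s x' b → S.r3 .vv s x'' c →
    S.r1 .at F ∧ (S.r1 .tt F ↔ S.mul a b c)
  k6 : ∀ y y1 y2 s F, PI S y y1 y2 → S.r3 .cl y s F →
    ∃ G H, S.r3 .cl y1 s G ∧ S.r3 .cl y2 s H ∧ S.r3 .im G H F
  k7 : ∀ y x y1 s F, PA S y x y1 → S.r3 .cl y s F →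
    ∃ G, S.r2 .al G F ∧ ∀ a H, S.r3 .ins G a H → ∃ s', S.r3 .vv s' x a ∧
      (∀ x' b, x' ≠ x → S.r3 .vv s x' b → S.r3 .vv s' x' b) ∧ S.r3 .cl y1 s' H
  d0 : ∀ k F, S.zero k → ¬ S.r2 .dp F k
  d1 : ∀ k F, S.r2 .dp F k → S.r1 .at F ∨ (∃ G H, S.r3 .im G H F) ∨ ∃ G, S.r2 .al G F
  d2 : ∀ F G H K, (S.r1 .at F → ¬ S.r3 .im G H F) ∧
    (S.r1 .at F → ¬ S.r2 .al G F) ∧ (S.r3 .im G H F → ¬ S.r2 .al K F)
  d3 : ∀ F G H G' H', (S.r3 .im G H F → S.r3 .im G' H' F → G = G' ∧ H = H') ∧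
    (S.r2 .al G F → S.r2 .al G' F → G = G')
  d4 : ∀ k k' F G H, S.succ k k' → S.r2 .dp F k' → S.r3 .im G H F →
    S.r2 .dp G k ∧ S.r2 .dp H k
  d5 : ∀ k k' F G a H, S.succ k k' → S.r2 .dp F k' → S.r2 .al G F →
    S.r3 .ins G a H → S.r2 .dp H k
  d6 : ∀ k k' F, S.succ k k' → S.r2 .dp F k → S.r2 .dp F k'
  d7 : ∀ F G a, S.r2 .al G F → ∃ H, S.r3 .ins G a H
  d8 : ∀ G a H H', S.r3 .ins G a H → S.r3 .ins G a H' → H = H'
  q0 : ∀ z l Q y, S.zero l → ¬ S.op .q z l Q y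
  q1 : ∀ z l l' Q y s F, S.succ l l' → S.op .q z l' Q y →
    S.r3 .cl y s F → S.r2 .mem y z ∨ cK S F ∨ cS S F ∨ cN S F ∨ cI S F ∨ cD S F ∨
      (S.r1 .at F ∧ S.r1 .tt F) ∨ cR S F ∨
      (∃ u w G H, S.op .q z l Q u ∧ S.op .q z l Q w ∧ S.r3 .cl u s G ∧ S.r3 .cl w s H ∧
        S.r3 .im G F H) ∨
      (∃ u G, S.op .q z l Q u ∧ S.r2 .al G F ∧ ∀ a H, S.r3 .ins G a H → ∃ s', S.r3 .cl u s' H)
  q2 : ∀ z l Q y s F, S.op .q z l Q y → S.r3 .cl y s F → S.r2 .dp F Q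
  q3 : ∀ z Q y, S.r3 .p z Q y → S.op .q z Q Q y
  q4 : ∀ z m y m', S.r3 .p z m y → S.succ m m' → S.r3 .p z m' y
  t1 : ∀ (i : Sy × ℕ), i ∈ [(Sy.tm2, 2), (Sy.tm3, 3), (Sy.tm4, 4)] →
    ∀ w n w', S.zero n → AppL S (hd i.2) w w' → S.r3 i.1 w n w'
  t2 : ∀ (i : Sy × ℕ), i ∈ [(Sy.tm2, 2), (Sy.tm3, 3), (Sy.tm4, 4)] → ∀ (b : Bool) w n w1 n' w2,
    S.r3 i.1 w n w1 → App S b n n' → AppL S (tmpl i.2 b) w1 w2 → S.r3 i.1 w n' w2
  n1 : ∀ u l, S.zero u → S.zero l → S.r2 .ln u l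
  n2 : ∀ (b : Bool) u l u' l', S.r2 .ln u l → App S b u u' → S.succ l l' → S.r2 .ln u' l'
  R2 : ∀ a u w1 w2 y w3 z l l1 l2 M q1 q2 q3,
    S.r1 .lc a → S.r3 .tm3 a u w1 → S.r3 .tm2 w1 a w2 → StrV S [false, false, false] y →
    S.r3 .tm4 w2 y w3 → AppL S P.neg.str w3 z → S.r2 .ln u l → S.succ l l1 → S.succ l1 l2 →
    S.mul l2 l2 M → S.mul M M q1 → S.mul q1 q1 q2 → S.mul q2 q2 q3 → S.r3 .p z M y →
    S.r3 .p a q3 y
  p1 : ∀ v : ℕ → S.M, ∀ z m y, Sat S (emb' P) (upd (upd (upd v 2 z) 3 m) 4 y) → S.r3 .p z m y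

/-- The basic list of sentences. -/
def T0 (P : Form) : List (Fm Sy) := robinson.map emb' ++ T1 P

theorem mod_of_sat {P : Form} {S : Str Sy} (h : ∀ φ ∈ T0 P, ∀ v, Sat S φ v) : Mod P S := by
  obtain ⟨v⟩ : Nonempty (ℕ → S.M) := ⟨fun _ => Classical.choice S.ne⟩
  have hr : Rob S := by
    obtain ⟨w⟩ : Nonempty (ℕ → S.M) := ⟨fun _ => Classical.choice S.ne⟩
    refine rob_of_sat S (w ∘ rf) fun φ hφ => ?_
    rw [← sat_emb']
    exact h _ (List.mem_append_left _ (List.mem_map_of_mem hφ)) w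
  have g : ∀ φ ∈ T1 P, Sat S φ v := fun φ hφ => h φ (List.mem_append_right _ hφ) v
  refine ⟨hr, (sC1 S v).1 (g _ (by simp [T1])), fun b => ?_, (sV1 S v).1 (g _ (by simp [T1])),
    (sV2 S v).1 (g _ (by simp [T1])), (sF0 S v).1 (g _ (by simp [T1])),
    (sF1 S v _).1 (g _ (by simp [T1])), (sF2 S v _).1 (g _ (by simp [T1])),
    (sF2 S v _).1 (g _ (by simp [T1])), (sF3 S v _).1 (g _ (by simp [T1])),
    (sF3 S v _).1 (g _ (by simp [T1])), (sF6 S v).1 (g _ (by simp [T1])),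
    (sF7 S v).1 (g _ (by simp [T1])), (sL1 S v).1 (g _ (by simp [T1])),
    (sL2 S v).1 (g _ (by simp [T1])), (sL3 S v).1 (g _ (by simp [T1])),
    (sL4 S v).1 (g _ (by simp [T1])), (sK0 S v).1 (g _ (by simp [T1])),
    (sK0' S v).1 (g _ (by simp [T1])), (sK1 S v).1 (g _ (by simp [T1])),
    (sK2 S v).1 (g _ (by simp [T1])), (sK3 S v).1 (g _ (by simp [T1])),
    (sK4 S v).1 (g _ (by simp [T1])), (sK5 S v).1 (g _ (by simp [T1])),
    (sK6 S v).1 (g _ (by simp [T1])), (sK7 S v).1 (g _ (by simp [T1])),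
    (sD0 S v).1 (g _ (by simp [T1])), (sD1 S v).1 (g _ (by simp [T1])),
    (sD2 S v).1 (g _ (by simp [T1])), (sD3 S v).1 (g _ (by simp [T1])),
    (sD4 S v).1 (g _ (by simp [T1])), (sD5 S v).1 (g _ (by simp [T1])),
    (sD6 S v).1 (g _ (by simp [T1])), (sD7 S v).1 (g _ (by simp [T1])),
    (sD8 S v).1 (g _ (by simp [T1])), (sQ0 S v).1 (g _ (by simp [T1])),
    (sQ1 S v).1 (g _ (by simp [T1])), (sQ2 S v).1 (g _ (by simp [T1])),
    (sQ3 S v).1 (g _ (by simp [T1])), (sQ4 S v).1 (g _ (by simp [T1])),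
    ?_, ?_, (sN1 S v).1 (g _ (by simp [T1])), fun b => ?_, (sR2 S v _).1 (g _ (by simp [T1])),
    fun v => (sP S v P).1 (h _ (List.mem_append_right _ (by simp [T1])) v)⟩
  · cases b
    · exact (sC2 S v _).1 (g _ (by simp [T1]))
    · exact (sC2 S v _).1 (g _ (by simp [T1]))
  · intro i hi
    simp only [List.mem_cons, List.not_mem_nil, or_false] at hi
    rcases hi with rfl | rfl | rfl
    · exact (sT1 S v _ _).1 (g _ (by simp [T1]))
    · exact (sT1 S v _ _).1 (g _ (by simp [T1]))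
    · exact (sT1 S v _ _).1 (g _ (by simp [T1]))
  · intro i hi b
    simp only [List.mem_cons, List.not_mem_nil, or_false] at hi
    cases b
    · rcases hi with rfl | rfl | rfl
      · exact (sT2 S v _ _ _).1 (g _ (by simp [T1]))
      · exact (sT2 S v _ _ _).1 (g _ (by simp [T1]))
      · exact (sT2 S v _ _ _).1 (g _ (by simp [T1]))
    · rcases hi with rfl | rfl | rfl
      · exact (sT2 S v _ _ _).1 (g _ (by simp [T1]))
      · exact (sT2 S v _ _ _).1 (g _ (by simp [T1]))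
      · exact (sT2 S v _ _ _).1 (g _ (by simp [T1]))
  · cases b
    · exact (sN2 S v _).1 (g _ (by simp [T1]))
    · exact (sN2 S v _).1 (g _ (by simp [T1]))

/-- The facts about the additional symbols, for the standard structure. -/
theorem sat_of_mod {P : Form} {S : Str Sy} (h : Mod P S) : ∀ φ ∈ T1 P, ∀ v, Sat S φ v := by
  intro φ hφ v
  simp only [T1, List.mem_cons, List.not_mem_nil, or_false] at hφ
  rcases hφ with rfl | rfl | rfl | rfl | rfl | rfl | rfl | rfl | rfl | rfl | rfl | rfl | rfl |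
    rfl | rfl | rfl | rfl | rfl | rfl | rfl | rfl | rfl | rfl | rfl | rfl | rfl |
    rfl | rfl | rfl | rfl | rfl | rfl | rfl | rfl | rfl | rfl | rfl | rfl | rfl | rfl |
    rfl | rfl | rfl | rfl | rfl | rfl | rfl | rfl | rfl | rfl | rfl | rfl | rfl | rfl
  · exact (sC1 S v).2 h.c1
  · exact (sC2 S v _).2 (h.c2 _)
  · exact (sC2 S v _).2 (h.c2 _)
  · exact (sV1 S v).2 h.v1
  · exact (sV2 S v).2 h.v2
  · exact (sF0 S v).2 h.f0
  · exact (sF1 S v _).2 h.f1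
  · exact (sF2 S v _).2 h.f2
  · exact (sF2 S v _).2 h.f2'
  · exact (sF3 S v _).2 h.f3
  · exact (sF3 S v _).2 h.f3'
  · exact (sF6 S v).2 h.f6
  · exact (sF7 S v).2 h.f7
  · exact (sL1 S v).2 h.l1
  · exact (sL2 S v).2 h.l2
  · exact (sL3 S v).2 h.l3
  · exact (sL4 S v).2 h.l4
  · exact (sK0 S v).2 h.k0
  · exact (sK0' S v).2 h.k0'
  · exact (sK1 S v).2 h.k1
  · exact (sK2 S v).2 h.k2
  · exact (sK3 S v).2 h.k3
  · exact (sK4 S v).2 h.k4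
  · exact (sK5 S v).2 h.k5
  · exact (sK6 S v).2 h.k6
  · exact (sK7 S v).2 h.k7
  · exact (sD0 S v).2 h.d0
  · exact (sD1 S v).2 h.d1
  · exact (sD2 S v).2 h.d2
  · exact (sD3 S v).2 h.d3
  · exact (sD4 S v).2 h.d4
  · exact (sD5 S v).2 h.d5
  · exact (sD6 S v).2 h.d6
  · exact (sD7 S v).2 h.d7
  · exact (sD8 S v).2 h.d8
  · exact (sQ0 S v).2 h.q0
  · exact (sQ1 S v).2 h.q1
  · exact (sQ2 S v).2 h.q2
  · exact (sQ3 S v).2 h.q3
  · exact (sQ4 S v).2 h.q4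
  · exact (sT1 S v _ _).2 (h.t1 (.tm2, 2) (by simp))
  · exact (sT1 S v _ _).2 (h.t1 (.tm3, 3) (by simp))
  · exact (sT1 S v _ _).2 (h.t1 (.tm4, 4) (by simp))
  · exact (sT2 S v _ _ _).2 (h.t2 (.tm2, 2) (by simp) _)
  · exact (sT2 S v _ _ _).2 (h.t2 (.tm2, 2) (by simp) _)
  · exact (sT2 S v _ _ _).2 (h.t2 (.tm3, 3) (by simp) _)
  · exact (sT2 S v _ _ _).2 (h.t2 (.tm3, 3) (by simp) _)
  · exact (sT2 S v _ _ _).2 (h.t2 (.tm4, 4) (by simp) _)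
  · exact (sT2 S v _ _ _).2 (h.t2 (.tm4, 4) (by simp) _)
  · exact (sN1 S v).2 h.n1
  · exact (sN2 S v _).2 (h.n2 _)
  · exact (sN2 S v _).2 (h.n2 _)
  · exact (sR2 S v _).2 h.R2
  · exact (sP S v P).2 (h.p1 v)

end Pool.Agent.TH672
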