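import Pool.Agent.TH672.PD
import Pool.Agent.TH672.Cl2

/-!
# Numerals, addition and multiplication with derivations of polynomial length
-/

set_option autoImplicit false

namespace Pool.Agent.TH672

open Form

/-- the data of the derivations -/
structure Setting where
  build ::
  hc : Complete Sy
  b : Sy → Form
  hb : Okι b
  P : Form
  hP : ∀ x, P.Free x → x = 2 ∨ x = 3 ∨ x = 4
  Γ : List Form
  hΓ : ∀ ψ ∈ T0 P, tr (mk b []) ψ ∈ Γ

theorem closed_emb' {φ : Form} (h : φ.Closed) : (emb' φ).Closed :=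
  rn_closed fun x hx => h x (free_emb.1 hx)

theorem robinson_closed' : ∀ φ ∈ robinson, φ.Closed := by
  intro φ hφ
  simp only [robinson, List.mem_cons, List.not_mem_nil, or_false] at hφ
  rcases hφ with rfl | rfl | rfl | rfl | rfl | rfl | rfl | rfl | rfl | rfl | rfl | rfl | rfl |
    rfl | rfl <;> intro x hx <;> simp [Form.Free, Form.ex, Form.neg, Form.or] at hx <;> omega

theorem closed_T0 (E : Setting) : ∀ φ ∈ T0 E.P, φ.Closed := by
  intro φ hφ
  rcases List.mem_append.1 hφ with h | h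
  · obtain ⟨ψ, h1, rfl⟩ := List.mem_map.1 h
    exact closed_emb' (robinson_closed' ψ h1)
  · exact closed_T1 E.P E.hP φ h

theorem av_T0 (E : Setting) : ∀ φ ∈ T0 E.P, Av φ := by
  intro φ hφ
  rcases List.mem_append.1 hφ with h | h
  · obtain ⟨ψ, h1, rfl⟩ := List.mem_map.1 h
    exact av_emb' ψ
  · exact av_T1 E.P φ h

theorem uses_T0 (P : Form) (j : ℕ) : ∀ φ ∈ T0 P, ¬ Uses (.o j) φ := by
  intro φ hφ
  rcases List.mem_append.1 hφ with h | h
  · obtain ⟨ψ, h1, rfl⟩ := List.mem_map.1 h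
    exact uses_emb' _ ψ
  · exact uses_T1 P j φ h

/-- sentences without the symbols `o j` -/
theorem tr_nouse {b : Sy → Form} {φ : Fm Sy} (h : ∀ j, ¬ Uses (.o j) φ) (l : List Form) :
    tr (mk b l) φ = tr (mk b []) φ := by
  refine tr_congr fun i hi => ?_
  cases i with
  | o j => exact absurd hi (h j)
  | _ => rfl

variable {J : Type} {sz : J → ℕ} {C : J → List Form} {Rs : List (J → Form)}

theorem Setting.t0 (E : Setting) : ∀ ψ ∈ T0 E.P, PD E.Γ sz C (trR E.b Rs ψ) := by
  intro ψ hψ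
  have h : trR E.b Rs ψ = fun _ => tr (mk E.b []) ψ := by
    funext j
    exact tr_nouse (fun j => uses_T0 E.P j ψ hψ) _
  rw [h]
  exact PD.ax _ (E.hΓ ψ hψ)

/-- The step rule, with the basic sentences. -/
theorem Setting.stepM (E : Setting) (hR : ∀ R ∈ Rs, Role sz R) (T : List (Fm Sy))
    (φ : Fm Sy) (hT : ∀ ψ ∈ T, ψ.Closed ∧ Av ψ) (hφ : φ.Closed) (hφa : Av φ)
    (h : ∀ (S : Str Sy) (v : ℕ → S.M), Mod E.P S → (∀ ψ ∈ T, Fm.Sat S ψ v) → Fm.Sat S φ v)
    (hp : ∀ ψ ∈ T, PD E.Γ sz C (trR E.b Rs ψ)) : PD E.Γ sz C (trR E.b Rs φ) := by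
  refine PD.step E.hc E.hb hR (T0 E.P ++ T) φ ?_ hφ hφa ?_ ?_
  · intro ψ hψ
    rcases List.mem_append.1 hψ with h | h
    · exact ⟨closed_T0 E ψ h, av_T0 E ψ h⟩
    · exact hT ψ h
  · intro S v hv
    refine h S v (mod_of_sat fun ψ hψ w => ?_) fun ψ hψ => hv ψ (List.mem_append_right _ hψ)
    rw [sat_congr (w := v)]
    · exact hv ψ (List.mem_append_left _ hψ)
    · exact fun x hx => absurd hx (closed_T0 E ψ hψ x)
  · intro ψ hψ
    rcases List.mem_append.1 hψ with h | h
    · exact E.t0 ψ h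
    · exact hp ψ h

/-! ### Chains of definitions -/

/-- a chain of definitions, along a list of bits -/
def Ch (b : Sy → Form) (F0 : Form) (D : Bool → Fm Sy) : List Bool → Form
  | [] => F0
  | a :: τ => cls (tr (mk b [Ch b F0 D τ]) (D a))

/-- the conditions for the definitions -/
structure OkD (D : Fm Sy) : Prop where
  av : Av D
  fr : ∀ x, D.Free x → 9 ≤ x ∧ x ≤ 12
  us : ∀ j, 1 ≤ j → ¬ Uses (.o j) D
  oc : nOcc D ≤ 1

theorem ch_ok {b : Sy → Form} (hb : Okι b) {F0 : Form} (h0 : OkF F0) {D : Bool → Fm Sy}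
    (hD : ∀ a, OkD (D a)) : ∀ τ, OkF (Ch b F0 D τ)
  | [] => h0
  | a :: τ => by
    intro x hx
    refine cls_ok (mk_ok hb ?_) (hD a).fr x hx
    intro R hR
    simp only [List.mem_cons, List.not_mem_nil, or_false] at hR
    rw [hR]
    exact ch_ok hb h0 hD τ

theorem ch_len (b : Sy → Form) (F0 : Form) {D : Bool → Fm Sy} (hD : ∀ a, OkD (D a)) :
    ∃ c, ∀ τ, (Ch b F0 D τ).len ≤ c * (τ.length + 1) := by
  obtain ⟨c, hc⟩ := tr_len b (D false)
  obtain ⟨d, hd⟩ := tr_len b (D true)
  refine ⟨c + d + F0.len + 203, fun τ => ?_⟩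
  induction τ with
  | nil => simp only [Ch, List.length_nil]; omega
  | cons a τ ih =>
    simp only [Ch, List.length_cons]
    have h1 := cls_len (tr (mk b [Ch b F0 D τ]) (D a))
    have h2 : (tr (mk b [Ch b F0 D τ]) (D a)).len ≤ c + d + max (Ch b F0 D τ).len 3 := by
      have h3 : ∀ R ∈ [Ch b F0 D τ], R.len ≤ max (Ch b F0 D τ).len 3 := by
        intro R hR
        simp only [List.mem_cons, List.not_mem_nil, or_false] at hR
        rw [hR]; exact le_max_left _ _
      have h4 : nOcc (D a) * max (Ch b F0 D τ).len 3 ≤ max (Ch b F0 D τ).len 3 := by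
        have := (hD a).oc
        calc nOcc (D a) * max (Ch b F0 D τ).len 3 ≤ 1 * max (Ch b F0 D τ).len 3 :=
              Nat.mul_le_mul_right _ this
          _ = _ := Nat.one_mul _
      cases a
      · have := hc _ _ h3 (le_max_right _ _); omega
      · have := hd _ _ h3 (le_max_right _ _); omega
    have h5 : 3 ≤ (c + d + F0.len + 203) * (τ.length + 1) := by nlinarith
    have h6 : max (Ch b F0 D τ).len 3 ≤ (c + d + F0.len + 203) * (τ.length + 1) := max_le ih h5
    rw [Nat.mul_succ (c + d + F0.len + 203) (τ.length + 1)]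
    omega

theorem ch_role {b : Sy → Form} (hb : Okι b) {F0 : Form} (h0 : OkF F0) {D : Bool → Fm Sy}
    (hD : ∀ a, OkD (D a)) : Role List.length (Ch b F0 D) := by
  refine ⟨?_, ch_ok hb h0 hD⟩
  obtain ⟨c, hc⟩ := ch_len b F0 hD
  exact ((Pb.const c).mul (Pb.size.add (Pb.const 1))).mono hc

theorem Setting.ch_def (E : Setting) {F0 : Form} (h0 : OkF F0) {D : Bool → Fm Sy}
    (hD : ∀ a, OkD (D a)) (a : Bool) {C : List Bool → List Form} :
    PD E.Γ List.length C (fun τ => tr (mk E.b [Ch E.b F0 D τ, Ch E.b F0 D (a :: τ)])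
      (defEq (.o 1) (D a))) := by
  have h := PD.def E.hc E.hb (Γ := E.Γ) (sz := List.length) (C := C) (Rs := [Ch E.b F0 D])
    (by
      intro R hR
      simp only [List.mem_cons, List.not_mem_nil, or_false] at hR
      rw [hR]; exact ch_role E.hb h0 hD) (D a) (hD a).av (hD a).fr
    (fun j hj => (hD a).us j (by simpa using hj))
  exact h

/-! ### Unary numerals -/

/-- the successor -/
def dN (n : Sy) : Fm Sy := .ex 20 (.and (f1 n 20) (.succ 20 9))

theorem okD_N : OkD (dN (.o 0)) := by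
  refine ⟨?_, ?_, ?_, ?_⟩
  · simp [dN, Av, ok]
  · intro x hx
    simp [dN, Fm.Free] at hx
    omega
  · intro j hj h
    simp [dN, uses_ex, uses_and, uses_f1, Uses] at h
    omega
  · simp [dN, nOcc, Fm.ex, Fm.and, Fm.neg, f1]

/-- the base -/
def Z0 : Form := cls (.zero 9)

theorem okF_Z0 : OkF Z0 := by
  intro x hx
  simp only [Z0, cls, Form.Free] at hx
  unfold ok
  omega

/-- the numeral of `k`, a formula of linear length -/
def Nf (b : Sy → Form) (k : ℕ) : Form := Ch b Z0 (fun _ => dN (.o 0)) (List.replicate k false)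

theorem Setting.nf_role (E : Setting) : Role id (Nf E.b) := by
  have h := ch_role E.hb okF_Z0 (D := fun _ => dN (.o 0)) (fun _ => okD_N)
  refine ⟨?_, fun k => h.2 _⟩
  exact h.1.comp (fun k : ℕ => List.replicate k false) (Pb.size.mono fun k => by simp)

/-- a role of the form `Nf (f j)` -/
theorem Setting.nf_role' (E : Setting) {f : J → ℕ} (hf : Pb sz f) :
    Role sz (fun j => Nf E.b (f j)) :=
  ⟨E.nf_role.1.comp f hf, fun j => E.nf_role.2 (f j)⟩

theorem Setting.nf_succ (E : Setting) {f : J → ℕ} (hf : Pb sz f) :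
    PD E.Γ sz C (fun j => tr (mk E.b [Nf E.b (f j), Nf E.b (f j + 1)])
      (defEq (.o 1) (dN (.o 0)))) := by
  have h := E.ch_def okF_Z0 (D := fun _ => dN (.o 0)) (fun _ => okD_N) false (C := fun _ => [])
  have h1 := h.comp (sz' := sz) (fun j : J => List.replicate (f j) false)
    (hf.mono fun k => by simp)
  exact h1.ctx (by simp)

/-! ### Meaning of the definitions -/

theorem sat_defEq {S : Str Sy} {o : Sy} {D : Fm Sy} {v : ℕ → S.M}
    (h : Fm.Sat S (defEq o D) v) (a b c d : S.M) :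
    S.op o a b c d ↔ Fm.Sat S D (upd (upd (upd (upd v 9 a) 10 b) 11 c) 12 d) := by
  simp only [defEq, Fm.sat_all, Fm.sat_iff, Fm.sat_op] at h
  have := h a b c d
  simpa [upd] using this

theorem sem_dN {S : Str Sy} {n n' : Sy} {v : ℕ → S.M} (h : Fm.Sat S (defEq n' (dN n)) v)
    (x : S.M) : S.r1 n' x ↔ ∃ k, S.r1 n k ∧ S.succ k x := by
  have := sat_defEq h x x x x
  simpa [dN, upd, Str.r1] using this

theorem closed_defEq {o : Sy} {D : Fm Sy} (hD : OkD D) : (defEq o D).Closed := by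
  intro x hx
  simp only [defEq, Fm.Free, free_iff'] at hx
  have := hD.fr x
  by_cases h : D.Free x
  · have := this h; omega
  · simp only [h, or_false] at hx; omega

theorem av_defEq {o : Sy} {D : Fm Sy} (hD : OkD D) : Av (defEq o D) := by
  simp only [defEq, Av, av_iff']
  exact ⟨by decide, by decide, by decide, by decide, ⟨by decide, by decide, by decide, by decide⟩,
    hD.av⟩

/-- `Z0` means zero -/
def fZ (n : Sy) : Fm Sy := alls [20] (.iff (f1 n 20) (.zero 20))

theorem sat_fZ (S : Str Sy) (n : Sy) (v : ℕ → S.M) :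
    Fm.Sat S (fZ n) v ↔ ∀ x, S.r1 n x ↔ S.zero x := by simp [fZ, upd]

end Pool.Agent.TH672
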