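import Pool.Agent.TH672.Num

/-!
# Addition and multiplication of numerals
-/

set_option autoImplicit false

namespace Pool.Agent.TH672

open Form

variable {J : Type} {sz : J → ℕ} {C : J → List Form} {Rs : List (J → Form)}

theorem role_Z0 : Role sz (fun _ : J => Z0) := ⟨Pb.const _, fun _ => okF_Z0⟩

theorem Setting.z0 (E : Setting) : PD E.Γ sz C (fun _ => tr (mk E.b [Z0]) (fZ (.o 0))) := by
  have h := PD.def E.hc E.hb (Γ := E.Γ) (sz := sz) (C := C) (Rs := []) (by simp) (.zero 9)
    (by simp [Av, ok]) (by intro x hx; simp [Fm.Free] at hx; omega) (by intro j _ h; exact h)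
  refine E.stepM (Rs := [fun _ => Z0]) ?_ [defEq (.o 0) (.zero 9)] (fZ (.o 0)) ?_ ?_ ?_ ?_ ?_
  · intro R hR
    simp only [List.mem_cons, List.not_mem_nil, or_false] at hR
    rw [hR]; exact role_Z0
  · intro ψ hψ
    simp only [List.mem_cons, List.not_mem_nil, or_false] at hψ
    rw [hψ]
    refine ⟨?_, ?_⟩
    · intro x hx; simp [defEq, Fm.Free] at hx; omega
    · simp [defEq, Av, ok]
  · intro x hx; simp [fZ, free_alls, Fm.Free] at hx
  · simp [fZ, av_alls, ok, Av]
  · intro S v hM hv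
    have h1 := hv _ (List.mem_cons_self ..)
    rw [sat_fZ]
    intro x
    have := sat_defEq h1 x x x x
    simpa [upd, Str.r1] using this
  · intro ψ hψ
    simp only [List.mem_cons, List.not_mem_nil, or_false] at hψ
    rw [hψ]
    exact h

/-- existence and uniqueness -/
def fEU (n : Sy) : Fm Sy := .and (exs [20] (f1 n 20)) (alls [20, 21] (imps [f1 n 20, f1 n 21]
  (.eq 20 21)))

theorem sat_fEU (S : Str Sy) (n : Sy) (v : ℕ → S.M) :
    Fm.Sat S (fEU n) v ↔ (∃ x, S.r1 n x) ∧ ∀ x y, S.r1 n x → S.r1 n y → x = y := by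
  simp [fEU, upd]

theorem closed_fEU (n : Sy) : (fEU n).Closed := by
  intro x hx; simp [fEU, free_alls, free_exs, Fm.Free] at hx; omega

theorem av_fEU (n : Sy) : Av (fEU n) := by simp [fEU, av_alls, av_exs, Av, ok]

theorem closed_fZ (n : Sy) : (fZ n).Closed := by
  intro x hx; simp [fZ, free_alls, Fm.Free] at hx
theorem av_fZ (n : Sy) : Av (fZ n) := by simp [fZ, av_alls, Av, ok]

/-- addition -/
def fAd (n0 n1 n2 : Sy) : Fm Sy := alls [20, 21, 22] (imps [f1 n0 20, f1 n1 21, .add 20 21 22]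
  (f1 n2 22))

theorem sat_fAd (S : Str Sy) (n0 n1 n2 : Sy) (v : ℕ → S.M) :
    Fm.Sat S (fAd n0 n1 n2) v ↔ ∀ x y w, S.r1 n0 x → S.r1 n1 y → S.add x y w → S.r1 n2 w := by
  simp [fAd, upd]

theorem closed_fAd (n0 n1 n2 : Sy) : (fAd n0 n1 n2).Closed := by
  intro x hx; simp [fAd, free_alls, Fm.Free] at hx; omega
theorem av_fAd (n0 n1 n2 : Sy) : Av (fAd n0 n1 n2) := by simp [fAd, av_alls, Av, ok]

/-- multiplication -/
def fMu (n0 n1 n2 : Sy) : Fm Sy := alls [20, 21, 22] (imps [f1 n0 20, f1 n1 21, .mul 20 21 22]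
  (f1 n2 22))

theorem sat_fMu (S : Str Sy) (n0 n1 n2 : Sy) (v : ℕ → S.M) :
    Fm.Sat S (fMu n0 n1 n2) v ↔ ∀ x y w, S.r1 n0 x → S.r1 n1 y → S.mul x y w → S.r1 n2 w := by
  simp [fMu, upd]

theorem closed_fMu (n0 n1 n2 : Sy) : (fMu n0 n1 n2).Closed := by
  intro x hx; simp [fMu, free_alls, Fm.Free] at hx; omega
theorem av_fMu (n0 n1 n2 : Sy) : Av (fMu n0 n1 n2) := by simp [fMu, av_alls, Av, ok]

theorem closed_dN (s j : ℕ) : (defEq (.o j) (dN (.o s))).Closed := by
  intro x hx; simp [defEq, dN, Fm.Free] at hx; omega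
theorem av_dN (s j : ℕ) : Av (defEq (.o j) (dN (.o s))) := by simp [defEq, dN, Av, ok]

/-- numerals exist and are unique -/
theorem Setting.eu (E : Setting) {f : J → ℕ} (hf : Pb sz f) :
    PD E.Γ sz C (fun j => tr (mk E.b [Nf E.b (f j)]) (fEU (.o 0))) := by
  have main : PD E.Γ (fun p : Unit × ℕ => 0 + p.2) (fun _ => [])
      (fun p => tr (mk E.b [Nf E.b p.2]) (fEU (.o 0))) := by
    refine PD.ind (J := Unit) (sz := fun _ => 0) (C := fun _ => [])
      (F := fun _ k => tr (mk E.b [Nf E.b k]) (fEU (.o 0))) ?_ ?_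
    · refine E.stepM (Rs := [fun _ => Z0]) ?_ [fZ (.o 0)] (fEU (.o 0)) ?_ (closed_fEU _)
        (av_fEU _) ?_ ?_
      · intro R hR
        simp only [List.mem_cons, List.not_mem_nil, or_false] at hR
        rw [hR]; exact role_Z0
      · intro ψ hψ
        simp only [List.mem_cons, List.not_mem_nil, or_false] at hψ
        rw [hψ]
        exact ⟨closed_fZ _, av_fZ _⟩
      · intro S v hM hv
        have h1 := (sat_fZ S _ v).1 (hv _ (List.mem_cons_self ..))
        rw [sat_fEU]
        simp only [h1]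
        exact ⟨hM.rob.z_ex, hM.rob.z_un⟩
      · intro ψ hψ
        simp only [List.mem_cons, List.not_mem_nil, or_false] at hψ
        rw [hψ]
        exact E.z0
    · refine E.stepM (Rs := [fun p : Unit × ℕ => Nf E.b (p.2 + 1), fun p => Nf E.b p.2]) ?_
        [fEU (.o 1), defEq (.o 0) (dN (.o 1))] (fEU (.o 0)) ?_ (closed_fEU _)
        (av_fEU _) ?_ ?_
      · intro R hR
        simp only [List.mem_cons, List.not_mem_nil, or_false] at hR
        rcases hR with rfl | rfl
        · exact E.nf_role' ((Pb.size.mono fun p => by simp).add (Pb.const 1))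
        · exact E.nf_role' (Pb.size.mono fun p => by simp)
      · intro ψ hψ
        simp only [List.mem_cons, List.not_mem_nil, or_false] at hψ
        rcases hψ with rfl | rfl
        · exact ⟨closed_fEU _, av_fEU _⟩
        · exact ⟨closed_dN _ _, av_dN _ _⟩
      · intro S v hM hv
        have h1 := (sat_fEU S _ v).1 (hv (fEU (.o 1)) (by simp))
        have h2 := sem_dN (hv (defEq (.o 0) (dN (.o 1))) (by simp))
        rw [sat_fEU]
        simp only [h2]
        obtain ⟨⟨x, hx⟩, h3⟩ := h1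
        obtain ⟨y, hy⟩ := hM.rob.s_ex x
        refine ⟨⟨y, x, hx, hy⟩, ?_⟩
        rintro y z ⟨k, h4, h5⟩ ⟨l, h6, h7⟩
        have := h3 _ _ h4 h6
        subst this
        exact hM.rob.s_un _ _ _ h5 h7
      · intro ψ hψ
        simp only [List.mem_cons, List.not_mem_nil, or_false] at hψ
        rcases hψ with rfl | rfl
        · exact PD.hyp fun p => List.mem_cons_self ..
        · exact E.nf_succ (f := fun p : Unit × ℕ => p.2) (Pb.size.mono fun p => by simp)
  have h1 := main.comp (sz' := sz) (fun j : J => ((), f j)) (by simpa using hf)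
  exact h1.ctx (by simp)

theorem Setting.roles (E : Setting) {fs : List (J → ℕ)} (h : ∀ f ∈ fs, Pb sz f) :
    ∀ R ∈ fs.map (fun f j => Nf E.b (f j)), Role sz R := by
  intro R hR
  obtain ⟨f, h1, rfl⟩ := List.mem_map.1 hR
  exact E.nf_role' (h f h1)

theorem Setting.ad (E : Setting) {f g : J → ℕ} (hf : Pb sz f) (hg : Pb sz g) :
    PD E.Γ sz C (fun j => tr (mk E.b [Nf E.b (f j), Nf E.b (g j), Nf E.b (f j + g j)])
      (fAd (.o 0) (.o 1) (.o 2))) := by
  have p1 : Pb (fun p : ℕ × ℕ => id p.1 + p.2) (fun p => p.1) := Pb.size.mono fun p => by simp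
  have p2 : Pb (fun p : ℕ × ℕ => id p.1 + p.2) (fun p => p.2) := Pb.size.mono fun p => by simp
  have main : PD E.Γ (fun p : ℕ × ℕ => id p.1 + p.2) (fun _ => [])
      (fun p => tr (mk E.b [Nf E.b p.1, Nf E.b p.2, Nf E.b (p.1 + p.2)])
        (fAd (.o 0) (.o 1) (.o 2))) := by
    refine PD.ind (J := ℕ) (sz := id) (C := fun _ => [])
      (F := fun i j => tr (mk E.b [Nf E.b i, Nf E.b j, Nf E.b (i + j)])
        (fAd (.o 0) (.o 1) (.o 2))) ?_ ?_
    · refine E.stepM (Rs := [fun i => Nf E.b i, fun _ => Z0]) ?_ [fZ (.o 1)]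
        (fAd (.o 0) (.o 1) (.o 0)) ?_ (closed_fAd _ _ _) (av_fAd _ _ _) ?_ ?_
      · intro R hR
        simp only [List.mem_cons, List.not_mem_nil, or_false] at hR
        rcases hR with rfl | rfl
        · exact E.nf_role' (Pb.size)
        · exact role_Z0
      · intro ψ hψ
        simp only [List.mem_cons, List.not_mem_nil, or_false] at hψ
        rw [hψ]
        exact ⟨closed_fZ _, av_fZ _⟩
      · intro S v hM hv
        have h1 := (sat_fZ S _ v).1 (hv (fZ (.o 1)) (by simp))
        rw [sat_fAd]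
        intro x y w hx hy hw
        rw [h1] at hy
        rwa [← hM.rob.a_un _ _ _ _ (hM.rob.a_z x y hy) hw]
      · intro ψ hψ
        simp only [List.mem_cons, List.not_mem_nil, or_false] at hψ
        rw [hψ]
        exact E.z0
    · refine E.stepM (Rs := [fun p : ℕ × ℕ => Nf E.b p.1, fun p => Nf E.b p.2, fun p => Nf E.b (p.1 + p.2),
        fun p => Nf E.b (p.2 + 1), fun p => Nf E.b (p.1 + p.2 + 1)]) ?_
        [fAd (.o 0) (.o 1) (.o 2), defEq (.o 3) (dN (.o 1)), defEq (.o 4) (dN (.o 2))]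
        (fAd (.o 0) (.o 3) (.o 4)) ?_ (closed_fAd _ _ _) (av_fAd _ _ _) ?_ ?_
      · refine E.roles (fs := [fun p : ℕ × ℕ => p.1, fun p => p.2, fun p => p.1 + p.2, fun p => p.2 + 1,
          fun p => p.1 + p.2 + 1]) ?_
        intro f hf
        simp only [List.mem_cons, List.not_mem_nil, or_false] at hf
        rcases hf with rfl | rfl | rfl | rfl | rfl
        · exact p1
        · exact p2
        · exact p1.add p2
        · exact p2.add (Pb.const 1)
        · exact (p1.add p2).add (Pb.const 1)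
      · intro ψ hψ
        simp only [List.mem_cons, List.not_mem_nil, or_false] at hψ
        rcases hψ with rfl | rfl | rfl
        · exact ⟨closed_fAd _ _ _, av_fAd _ _ _⟩
        · exact ⟨closed_dN _ _, av_dN _ _⟩
        · exact ⟨closed_dN _ _, av_dN _ _⟩
      · intro S v hM hv
        have h1 := (sat_fAd S _ _ _ v).1 (hv (fAd (.o 0) (.o 1) (.o 2)) (by simp))
        have h2 := sem_dN (hv (defEq (.o 3) (dN (.o 1))) (by simp))
        have h3 := sem_dN (hv (defEq (.o 4) (dN (.o 2))) (by simp))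
        rw [sat_fAd]
        intro x y' w' hx hy hw
        obtain ⟨y, h4, h5⟩ := (h2 _).1 hy
        obtain ⟨w, h6⟩ := hM.rob.a_ex x y
        obtain ⟨w2, h7⟩ := hM.rob.s_ex w
        have h8 := hM.rob.a_s _ _ _ _ _ h5 h6 h7
        have h9 := hM.rob.a_un _ _ _ _ hw h8
        subst h9
        exact (h3 _).2 ⟨w, h1 _ _ _ hx h4 h6, h7⟩
      · intro ψ hψ
        simp only [List.mem_cons, List.not_mem_nil, or_false] at hψ
        rcases hψ with rfl | rfl | rfl
        · exact PD.hyp fun p => List.mem_cons_self ..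
        · exact E.nf_succ p2
        · exact E.nf_succ (p1.add p2)
  have h1 := main.comp (sz' := sz) (fun j : J => (f j, g j)) (hf.add hg)
  exact h1.ctx (by simp)

theorem Setting.mu (E : Setting) {f g : J → ℕ} (hf : Pb sz f) (hg : Pb sz g) :
    PD E.Γ sz C (fun j => tr (mk E.b [Nf E.b (f j), Nf E.b (g j), Nf E.b (f j * g j)])
      (fMu (.o 0) (.o 1) (.o 2))) := by
  have p1 : Pb (fun p : ℕ × ℕ => id p.1 + p.2) (fun p => p.1) := Pb.size.mono fun p => by simp
  have p2 : Pb (fun p : ℕ × ℕ => id p.1 + p.2) (fun p => p.2) := Pb.size.mono fun p => by simp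
  have main : PD E.Γ (fun p : ℕ × ℕ => id p.1 + p.2) (fun _ => [])
      (fun p => tr (mk E.b [Nf E.b p.1, Nf E.b p.2, Nf E.b (p.1 * p.2)])
        (fMu (.o 0) (.o 1) (.o 2))) := by
    refine PD.ind (J := ℕ) (sz := id) (C := fun _ => [])
      (F := fun i j => tr (mk E.b [Nf E.b i, Nf E.b j, Nf E.b (i * j)])
        (fMu (.o 0) (.o 1) (.o 2))) ?_ ?_
    · refine E.stepM (Rs := [fun i => Nf E.b i, fun _ => Z0]) ?_ [fZ (.o 1)]
        (fMu (.o 0) (.o 1) (.o 1)) ?_ (closed_fMu _ _ _) (av_fMu _ _ _) ?_ ?_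
      · intro R hR
        simp only [List.mem_cons, List.not_mem_nil, or_false] at hR
        rcases hR with rfl | rfl
        · exact E.nf_role' (Pb.size)
        · exact role_Z0
      · intro ψ hψ
        simp only [List.mem_cons, List.not_mem_nil, or_false] at hψ
        rw [hψ]
        exact ⟨closed_fZ _, av_fZ _⟩
      · intro S v hM hv
        have h1 := (sat_fZ S _ v).1 (hv (fZ (.o 1)) (by simp))
        rw [sat_fMu]
        intro x y w hx hy hw
        have hy' := (h1 _).1 hy
        rwa [← hM.rob.m_un _ _ _ _ (hM.rob.m_z x y hy') hw]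
      · intro ψ hψ
        simp only [List.mem_cons, List.not_mem_nil, or_false] at hψ
        rw [hψ]
        exact E.z0
    · refine E.stepM (Rs := [fun p : ℕ × ℕ => Nf E.b p.1, fun p => Nf E.b p.2, fun p => Nf E.b (p.1 * p.2),
        fun p => Nf E.b (p.2 + 1), fun p => Nf E.b (p.1 * p.2 + p.1)]) ?_
        [fMu (.o 0) (.o 1) (.o 2), defEq (.o 3) (dN (.o 1)), fAd (.o 2) (.o 0) (.o 4)]
        (fMu (.o 0) (.o 3) (.o 4)) ?_ (closed_fMu _ _ _) (av_fMu _ _ _) ?_ ?_
      · refine E.roles (fs := [fun p : ℕ × ℕ => p.1, fun p => p.2, fun p => p.1 * p.2, fun p => p.2 + 1,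
          fun p => p.1 * p.2 + p.1]) ?_
        intro f hf
        simp only [List.mem_cons, List.not_mem_nil, or_false] at hf
        rcases hf with rfl | rfl | rfl | rfl | rfl
        · exact p1
        · exact p2
        · exact p1.mul p2
        · exact p2.add (Pb.const 1)
        · exact (p1.mul p2).add p1
      · intro ψ hψ
        simp only [List.mem_cons, List.not_mem_nil, or_false] at hψ
        rcases hψ with rfl | rfl | rfl
        · exact ⟨closed_fMu _ _ _, av_fMu _ _ _⟩
        · exact ⟨closed_dN _ _, av_dN _ _⟩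
        · exact ⟨closed_fAd _ _ _, av_fAd _ _ _⟩
      · intro S v hM hv
        have h1 := (sat_fMu S _ _ _ v).1 (hv (fMu (.o 0) (.o 1) (.o 2)) (by simp))
        have h2 := sem_dN (hv (defEq (.o 3) (dN (.o 1))) (by simp))
        have h3 := (sat_fAd S _ _ _ v).1 (hv (fAd (.o 2) (.o 0) (.o 4)) (by simp))
        rw [sat_fMu]
        intro x y' w' hx hy hw
        obtain ⟨y, h4, h5⟩ := (h2 _).1 hy
        obtain ⟨w, h6⟩ := hM.rob.m_ex x y
        obtain ⟨w2, h7⟩ := hM.rob.a_ex w x
        have h8 := hM.rob.m_s _ _ _ _ _ h5 h6 h7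
        have h9 := hM.rob.m_un _ _ _ _ hw h8
        subst h9
        exact h3 _ _ _ (h1 _ _ _ hx h4 h6) hx h7
      · intro ψ hψ
        simp only [List.mem_cons, List.not_mem_nil, or_false] at hψ
        rcases hψ with rfl | rfl | rfl
        · exact PD.hyp fun p => List.mem_cons_self ..
        · exact E.nf_succ p2
        · exact E.ad (p1.mul p2) p1
  have h1 := main.comp (sz' := sz) (fun j : J => (f j, g j)) (hf.add hg)
  exact h1.ctx (by simp)

end Pool.Agent.TH672
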