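import Pool.Agent.TH672.Sem
import Pool.Agent.TH672.Cl

/-!
# Derivations of polynomial length
-/

set_option autoImplicit false

namespace Pool.Agent.TH672

open Form

variable {J : Type}

/-- polynomially bounded in the size -/
def Pb (sz : J → ℕ) (f : J → ℕ) : Prop := ∃ c, ∀ j, f j ≤ c * (sz j + 1) ^ c

theorem pow_le_pow_succ' (n : ℕ) {a b : ℕ} (h : a ≤ b) : (n + 1) ^ a ≤ (n + 1) ^ b :=
  Nat.pow_le_pow_right (by omega) h

namespace Pb

variable {sz : J → ℕ} {f g : J → ℕ}

theorem mono (h : Pb sz g) (hfg : ∀ j, f j ≤ g j) : Pb sz f := by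
  obtain ⟨c, hc⟩ := h
  exact ⟨c, fun j => (hfg j).trans (hc j)⟩

theorem const (a : ℕ) : Pb sz (fun _ => a) :=
  ⟨a, fun j => Nat.le_mul_of_pos_right _ (Nat.pow_pos (by omega))⟩

theorem size : Pb sz sz := ⟨1, fun j => by rw [pow_one]; omega⟩

theorem add (h : Pb sz f) (h' : Pb sz g) : Pb sz (fun j => f j + g j) := by
  obtain ⟨c, hc⟩ := h
  obtain ⟨d, hd⟩ := h'
  refine ⟨c + d, fun j => ?_⟩
  rw [Nat.add_mul]
  refine Nat.add_le_add ((hc j).trans ?_) ((hd j).trans ?_)
  · exact Nat.mul_le_mul_left _ (pow_le_pow_succ' _ (by omega))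
  · exact Nat.mul_le_mul_left _ (pow_le_pow_succ' _ (by omega))

theorem mul (h : Pb sz f) (h' : Pb sz g) : Pb sz (fun j => f j * g j) := by
  obtain ⟨c, hc⟩ := h
  obtain ⟨d, hd⟩ := h'
  refine ⟨c * d + c + d, fun j => ?_⟩
  calc f j * g j ≤ (c * (sz j + 1) ^ c) * (d * (sz j + 1) ^ d) := Nat.mul_le_mul (hc j) (hd j)
    _ = (c * d) * (sz j + 1) ^ (c + d) := by rw [pow_add]; ring
    _ ≤ (c * d + c + d) * (sz j + 1) ^ (c * d + c + d) :=
      Nat.mul_le_mul (by omega) (pow_le_pow_succ' _ (by omega))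

theorem pow (h : Pb sz f) (k : ℕ) : Pb sz (fun j => f j ^ k) := by
  induction k with
  | zero => simpa using const 1
  | succ k ih => simpa only [pow_succ] using ih.mul h

/-- change of the index set -/
theorem comp {J' : Type} {sz' : J' → ℕ} (h : Pb sz f) (e : J' → J)
    (he : Pb sz' (fun j => sz (e j))) : Pb sz' (fun j => f (e j)) := by
  obtain ⟨c, hc⟩ := h
  have h1 : Pb sz' (fun j => c * (sz (e j) + 1) ^ c) :=
    (const c).mul ((he.add (const 1)).pow c)
  exact h1.mono fun j => hc (e j)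

end Pb

/-- Derivations of polynomial length from `Γ`, using the lines in `C j`. -/
def PD (Γ : List Form) (sz : J → ℕ) (C : J → List Form) (F : J → Form) : Prop :=
  ∃ f : J → ℕ, Pb sz f ∧ ∀ j, Ext Γ (C j) (f j) (F j)

namespace PD

variable {Γ : List Form} {sz : J → ℕ} {C : J → List Form} {F G : J → Form}

theorem hyp (h : ∀ j, F j ∈ C j) : PD Γ sz C F := ⟨fun _ => 0, Pb.const 0, fun j => Ext.hyp (h j)⟩

theorem ctx {C' : J → List Form} (h : PD Γ sz C F) (hC : ∀ j, ∀ φ ∈ C j, φ ∈ C' j) :
    PD Γ sz C' F := by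
  obtain ⟨f, h1, h2⟩ := h
  exact ⟨f, h1, fun j => (h2 j).ctx (hC j)⟩

theorem cut (h : PD Γ sz C F) (h' : PD Γ sz (fun j => F j :: C j) G) : PD Γ sz C G := by
  obtain ⟨f, h1, h2⟩ := h
  obtain ⟨g, h3, h4⟩ := h'
  exact ⟨_, h1.add h3, fun j => (h2 j).cut (h4 j)⟩

theorem const {K : ℕ} (h : ∀ j, Ext Γ (C j) K (F j)) : PD Γ sz C F := ⟨_, Pb.const K, h⟩

theorem ax (φ : Form) (h : φ ∈ Γ) : PD Γ sz C (fun _ => φ) :=
  ⟨_, Pb.const φ.len, fun _ => Ext.ax h⟩

/-- change of the index set -/
theorem comp {J' : Type} {sz' : J' → ℕ} (h : PD Γ sz C F) (e : J' → J)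
    (he : Pb sz' (fun j => sz (e j))) : PD Γ sz' (fun j => C (e j)) (fun j => F (e j)) := by
  obtain ⟨f, h1, h2⟩ := h
  exact ⟨_, h1.comp e he, fun j => h2 (e j)⟩

/-- several cuts -/
theorem cuts (Fs : List (J → Form)) (h : ∀ F ∈ Fs, PD Γ sz C F)
    (h' : PD Γ sz (fun j => Fs.map (fun F => F j) ++ C j) G) : PD Γ sz C G := by
  induction Fs generalizing C with
  | nil => simpa using h'
  | cons F Fs ih =>
    refine (h F (by simp)).cut (ih (fun H hH => ?_) ?_)
    · exact (h H (List.mem_cons_of_mem _ hH)).ctx fun j φ hφ => List.mem_cons_of_mem _ hφ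
    · refine h'.ctx fun j φ hφ => ?_
      simp only [List.map_cons, List.cons_append, List.mem_cons, List.mem_append] at hφ ⊢
      tauto

end PD

/-! ### Induction -/

/-- sums of polynomially many polynomial bounds -/
theorem pb_sum {sz : J → ℕ} {f : J × ℕ → ℕ} (h : Pb (fun p : J × ℕ => sz p.1 + p.2) f) :
    Pb (fun p : J × ℕ => sz p.1 + p.2) (fun p => ∑ i ∈ Finset.range p.2, f (p.1, i)) := by
  obtain ⟨c, hc⟩ := h
  have h1 : Pb (fun p : J × ℕ => sz p.1 + p.2)
      (fun p => (sz p.1 + p.2) * (c * (sz p.1 + p.2 + 1) ^ c)) :=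
    Pb.size.mul ((Pb.const c).mul ((Pb.size.add (Pb.const 1)).pow c))
  refine h1.mono fun p => ?_
  calc ∑ i ∈ Finset.range p.2, f (p.1, i)
      ≤ ∑ i ∈ Finset.range p.2, c * (sz p.1 + p.2 + 1) ^ c := by
        refine Finset.sum_le_sum fun i hi => (hc (p.1, i)).trans ?_
        have hi' := Finset.mem_range.1 hi
        exact Nat.mul_le_mul_left _ (Nat.pow_le_pow_left (by simp only; omega) _)
    _ = p.2 * (c * (sz p.1 + p.2 + 1) ^ c) := by simp
    _ ≤ _ := Nat.mul_le_mul_right _ (by omega)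

/-- Derivations by induction. -/
theorem PD.ind {Γ : List Form} {sz : J → ℕ} {C : J → List Form} {F : J → ℕ → Form}
    (h0 : PD Γ sz C (fun j => F j 0))
    (hs : PD Γ (fun p : J × ℕ => sz p.1 + p.2) (fun p => F p.1 p.2 :: C p.1)
      (fun p => F p.1 (p.2 + 1))) :
    PD Γ (fun p : J × ℕ => sz p.1 + p.2) (fun p => C p.1) (fun p => F p.1 p.2) := by
  obtain ⟨f, h1, h2⟩ := h0
  obtain ⟨g, h3, h4⟩ := hs
  refine ⟨fun p => f p.1 + ∑ i ∈ Finset.range p.2, g (p.1, i), ?_, ?_⟩
  · refine Pb.add ?_ (pb_sum h3)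
    exact h1.comp (fun p : J × ℕ => p.1) (Pb.size.mono fun p => by simp)
  · rintro ⟨j, k⟩
    induction k with
    | zero => simpa using h2 j
    | succ k ih =>
      refine (ih.cut (h4 (j, k))).le ?_
      simp only [Finset.sum_range_succ]
      omega

/-! ### Roles -/

/-- the interpretation of the symbols: `b` for the fixed symbols, the formulas in the list for the
symbols `o j` -/
def mk (b : Sy → Form) (l : List Form) : Sy → Form
  | .o j => l.getD j .bot
  | .p => b .p
  | .q => b .q
  | .im => b .im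
  | .al => b .al
  | .ins => b .ins
  | .at => b .at
  | .tt => b .tt
  | .dp => b .dp
  | .cl => b .cl
  | .vv => b .vv
  | .cat => b .cat
  | .vs => b .vs
  | .lc => b .lc
  | .mem => b .mem
  | .ln => b .ln
  | .tm2 => b .tm2
  | .tm3 => b .tm3
  | .tm4 => b .tm4

/-- the free variables are among `5, ..., 8` -/
def OkF (R : Form) : Prop := ∀ x, R.Free x → ¬ ok x

theorem mk_ok {b : Sy → Form} (hb : Okι b) {l : List Form} (hl : ∀ R ∈ l, OkF R) :
    Okι (mk b l) := by
  intro s x hx
  cases s with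
  | o j =>
    simp only [mk, List.getD_eq_getElem?_getD] at hx
    rcases h : l[j]? with _ | R
    · simp [h, Form.Free] at hx
    · simp only [h, Option.getD_some] at hx
      exact hl R (List.mem_of_getElem? h) x hx
  | _ => exact hb _ x hx

/-- a bound for the lengths of the fixed formulas -/
def blen (b : Sy → Form) : ℕ :=
  (b .p).len + (b .q).len + (b .im).len + (b .al).len + (b .ins).len + (b .at).len +
  (b .tt).len + (b .dp).len + (b .cl).len + (b .vv).len + (b .cat).len + (b .vs).len +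
  (b .lc).len + (b .mem).len + (b .ln).len + (b .tm2).len + (b .tm3).len + (b .tm4).len + 3

theorem mk_len (b : Sy → Form) (l : List Form) (s : Sy) :
    (mk b l s).len ≤ blen b + (l.map Form.len).sum := by
  cases s with
  | o j =>
    simp only [mk, List.getD_eq_getElem?_getD]
    rcases h : l[j]? with _ | R
    · simp only [Option.getD_none]
      have : Form.bot.len = 3 := rfl
      unfold blen
      omega
    · simp only [Option.getD_some]
      have h1 : R.len ≤ (l.map Form.len).sum :=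
        List.single_le_sum (by simp) _ (List.mem_map_of_mem (List.mem_of_getElem? h))
      omega
  | _ => simp only [mk, blen]; omega

/-- a role: polynomially long, with the correct free variables -/
def Role (sz : J → ℕ) (R : J → Form) : Prop := Pb sz (fun j => (R j).len) ∧ ∀ j, OkF (R j)

/-- translation with the roles `Rs` -/
def trR (b : Sy → Form) (Rs : List (J → Form)) (φ : Fm Sy) : J → Form :=
  fun j => tr (mk b (Rs.map fun R => R j)) φ

theorem pb_roles {b : Sy → Form} {sz : J → ℕ} {Rs : List (J → Form)} (h : ∀ R ∈ Rs, Role sz R) :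
    Pb sz (fun j => blen b + ((Rs.map fun R => R j).map Form.len).sum) := by
  refine (Pb.const _).add ?_
  induction Rs with
  | nil => simpa using Pb.const 0
  | cons R Rs ih =>
    simp only [List.map_cons, List.sum_cons]
    exact (h R (by simp)).1.add (ih fun R' hR' => h R' (List.mem_cons_of_mem _ hR'))

/-- The step rule. -/
theorem PD.step (hc : Complete Sy) {b : Sy → Form} (hb : Okι b) {Γ : List Form} {sz : J → ℕ}
    {C : J → List Form} {Rs : List (J → Form)} (hR : ∀ R ∈ Rs, Role sz R) (T : List (Fm Sy))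
    (φ : Fm Sy) (hT : ∀ ψ ∈ T, ψ.Closed ∧ Av ψ) (hφ : φ.Closed) (hφa : Av φ)
    (h : ∀ (S : Str Sy) (v : ℕ → S.M), (∀ ψ ∈ T, Fm.Sat S ψ v) → Fm.Sat S φ v)
    (hp : ∀ ψ ∈ T, PD Γ sz C (trR b Rs ψ)) : PD Γ sz C (trR b Rs φ) := by
  refine PD.cuts (T.map (trR b Rs)) ?_ ?_
  · intro F hF
    obtain ⟨ψ, h1, rfl⟩ := List.mem_map.1 hF
    exact hp ψ h1
  · obtain ⟨K, hK⟩ := TH672.step hc T φ (fun ψ hψ => (hT ψ hψ).1) hφ (fun ψ hψ => (hT ψ hψ).2) hφa h
    refine ⟨fun j => K * (blen b + ((Rs.map fun R => R j).map Form.len).sum + 1),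
      (Pb.const K).mul ((pb_roles hR).add (Pb.const 1)), fun j => ?_⟩
    refine hK _ _ _ _ (mk_ok hb ?_) (mk_len b _) ?_
    · intro R hR'
      obtain ⟨R', h1, rfl⟩ := List.mem_map.1 hR'
      exact (hR R' h1).2 j
    · intro ψ hψ
      refine List.mem_append_left _ ?_
      rw [List.map_map]
      exact List.mem_map.2 ⟨ψ, hψ, rfl⟩

/-- the formula that defines a new symbol -/
def newR (b : Sy → Form) (Rs : List (J → Form)) (D : Fm Sy) : J → Form :=
  fun j => cls (trR b Rs D j)

/-- new symbols may be introduced by definitions -/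
theorem PD.def (hc : Complete Sy) {b : Sy → Form} (hb : Okι b) {Γ : List Form} {sz : J → ℕ}
    {C : J → List Form} {Rs : List (J → Form)} (hR : ∀ R ∈ Rs, Role sz R) (D : Fm Sy)
    (hD : Av D) (hF : ∀ x, D.Free x → 9 ≤ x ∧ x ≤ 12) (hU : ∀ j, Rs.length ≤ j → ¬ Uses (.o j) D) :
    PD Γ sz C (trR b (Rs ++ [newR b Rs D]) (defEq (.o Rs.length) D)) := by
  obtain ⟨K, hK⟩ := defStep hc D hD hF
  refine ⟨fun j => K * (blen b + ((Rs.map fun R => R j).map Form.len).sum + 1),
    (Pb.const K).mul ((pb_roles hR).add (Pb.const 1)), fun j => ?_⟩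
  have h1 := hK (mk b (Rs.map fun R => R j)) _ Γ (C j) (mk_ok hb ?_) (mk_len b _)
  · have e : tr (mk b ((Rs ++ [newR b Rs D]).map fun R => R j)) D =
        tr (mk b (Rs.map fun R => R j)) D := by
      refine tr_congr fun i hi => ?_
      cases i with
      | o k =>
        have hk : k < Rs.length := by
          by_contra hk
          exact hU k (by omega) hi
        simp only [mk, List.map_append, List.getD_eq_getElem?_getD]
        rw [List.getElem?_append_left (by simpa using hk)]
      | _ => rfl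
    simp only [trR, defEq, tr, Fm.iff, Fm.and, Fm.neg, e]
    have e2 : mk b ((Rs ++ [newR b Rs D]).map fun R => R j) (.o Rs.length) =
        cls (tr (mk b (Rs.map fun R => R j)) D) := by
      simp [mk, List.getD_eq_getElem?_getD, newR, trR]
    rw [e2]
    exact h1
  · intro R hR'
    obtain ⟨R', h1, rfl⟩ := List.mem_map.1 hR'
    exact (hR R' h1).2 j

/-! ### Lengths -/

theorem cls_len (θ : Form) : (cls θ).len ≤ θ.len + 200 := by
  simp only [cls, Ext.len_all, Ext.len_imp]
  simp only [Form.len, Form.str, varStr, List.length_append, List.length_cons, List.length_nil,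
    List.length_replicate]
  omega

/-- the number of occurrences of the symbols `o j` -/
def nOcc : Fm Sy → ℕ
  | .op (.o _) _ _ _ _ => 1
  | .imp φ ψ => nOcc φ + nOcc ψ
  | .all _ φ => nOcc φ
  | _ => 0

/-- the length of the translation depends linearly on the lengths of the roles -/
theorem tr_len (b : Sy → Form) (φ : Fm Sy) : ∃ c, ∀ (l : List Form) (M : ℕ),
    (∀ R ∈ l, R.len ≤ M) → 3 ≤ M → (tr (mk b l) φ).len ≤ c + nOcc φ * M := by
  induction φ with
  | imp φ ψ ih ih' =>
    obtain ⟨c, hc⟩ := ih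
    obtain ⟨d, hd⟩ := ih'
    refine ⟨c + d + 3, fun l M h h3 => ?_⟩
    have h1 := hc l M h h3
    have h2 := hd l M h h3
    simp only [tr, Ext.len_imp, nOcc, Nat.add_mul]
    omega
  | all x φ ih =>
    obtain ⟨c, hc⟩ := ih
    refine ⟨c + x + 4, fun l M h h3 => ?_⟩
    have h1 := hc l M h h3
    simp only [tr, Ext.len_all, nOcc]
    omega
  | op i a b' c d =>
    refine ⟨(tr (mk b []) (.op i a b' c d)).len, fun l M h h3 => ?_⟩
    cases i with
    | o k =>
      simp only [tr, mk, nOcc, List.getD_eq_getElem?_getD]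
      have e : ∀ θ : Form, (wrap a b' c d θ).len = (wrap a b' c d .bot).len - 3 + θ.len := by
        intro θ
        simp only [wrap, Ext.len_all, Ext.len_imp]
        have : Form.bot.len = 3 := rfl
        omega
      have e3 : 3 ≤ (wrap a b' c d .bot).len := by
        simp only [wrap, Ext.len_all]; omega
      rcases h' : l[k]? with _ | R
      · simp
      · simp only [Option.getD_some, List.getElem?_nil, Option.getD_none]
        have h4 := h R (List.mem_of_getElem? h')
        rw [e]
        omega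
    | _ => exact Nat.le_add_right _ _
  | bot => exact ⟨_, fun l M _ _ => Nat.le_add_right (Form.bot).len _⟩
  | eq x y => exact ⟨_, fun l M _ _ => Nat.le_add_right (Form.eq x y).len _⟩
  | zero x => exact ⟨_, fun l M _ _ => Nat.le_add_right (Form.zero x).len _⟩
  | succ x y => exact ⟨_, fun l M _ _ => Nat.le_add_right (Form.succ x y).len _⟩
  | add x y z => exact ⟨_, fun l M _ _ => Nat.le_add_right (Form.add x y z).len _⟩
  | mul x y z => exact ⟨_, fun l M _ _ => Nat.le_add_right (Form.mul x y z).len _⟩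

end Pool.Agent.TH672
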