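import Pool.Agent.TH672.Defs

/-!
# Closed instances of formulas, and the relations between codes that are used
-/

set_option autoImplicit false

namespace Pool.Agent.TH672

open Form

/-- An argument place: a bound variable (de Bruijn index) or a number. -/
inductive Slot : Type
  | bd (i : ℕ) : Slot
  | par (a : ℕ) : Slot

/-- Formulas in which numbers are substituted for the free variables. The numbers `0, ..., 5` of
the atomic formulas stand for `⊥`, `x = y`, `Z x`, `S x y`, `A x y z` and `M x y z`. -/
inductive DB : Type
  | atom (k : ℕ) (a b c : Slot) : DB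
  | imp (f g : DB) : DB
  | all (f : DB) : DB

/-- The code of an argument place. -/
def Slot.code : Slot → ℕ
  | bd i => Nat.pair 0 i
  | par a => Nat.pair 1 a

/-- The code. -/
def DB.code : DB → ℕ
  | atom k a b c => Nat.pair 0 (Nat.pair k (Nat.pair a.code (Nat.pair b.code c.code)))
  | imp f g => Nat.pair 1 (Nat.pair f.code g.code)
  | all f => Nat.pair 2 f.code

/-- The depth. -/
def DB.depth : DB → ℕ
  | atom _ _ _ _ => 1
  | imp f g => max f.depth g.depth + 1
  | all f => f.depth + 1

/-- Put the number `a` for the bound variable `k`. -/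
def Slot.put (k a : ℕ) : Slot → Slot
  | bd i => if i = k then par a else bd i
  | par b => par b

/-- Put the number `a` for the (dangling) bound variable `k`. -/
def DB.put (a : ℕ) : ℕ → DB → DB
  | k, atom j s t u => atom j (s.put k a) (t.put k a) (u.put k a)
  | k, imp f g => imp (DB.put a k f) (DB.put a k g)
  | k, all f => all (DB.put a (k + 1) f)

/-- The argument place for the variable `u`, when `σ` is the list of the variables that are bound
(the innermost first) and `s` is the assignment. -/
def slot (s : ℕ → ℕ) (σ : List ℕ) (u : ℕ) : Slot :=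
  if u ∈ σ then .bd (σ.idxOf u) else .par (s u)

/-- The instance of a formula under the assignment `s`. -/
def clo (s : ℕ → ℕ) : Form → List ℕ → DB
  | bot, _ => .atom 0 (.par 0) (.par 0) (.par 0)
  | eq x y, σ => .atom 1 (slot s σ x) (slot s σ y) (.par 0)
  | zero x, σ => .atom 2 (slot s σ x) (.par 0) (.par 0)
  | succ x y, σ => .atom 3 (slot s σ x) (slot s σ y) (.par 0)
  | add x y z, σ => .atom 4 (slot s σ x) (slot s σ y) (slot s σ z)
  | mul x y z, σ => .atom 5 (slot s σ x) (slot s σ y) (slot s σ z)
  | imp φ ψ, σ => .imp (clo s φ σ) (clo s ψ σ)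
  | all x φ, σ => .all (clo s φ (x :: σ))

/-- The assignment with the code `s`: the codes are those of finite lists, with `0` for the empty
list and `⟨a, t⟩ + 1` for the list `a :: t`; variables not in the list have the value `0`. -/
def asg (s : ℕ) : ℕ → ℕ
  | 0 => if s = 0 then 0 else (s - 1).unpair.1
  | x + 1 => if s = 0 then 0 else asg (s - 1).unpair.2 x

/-- The first part of the string of `inst x n φ`. -/
def hd (x : ℕ) : List Bool := [true, true, true] ++ varStr x ++ [true, true, false] ++
  [false, true, false] ++ varStr x

/-- The string of `digit x b φ` is this string followed by the string of `φ`. -/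
def tmpl (x : ℕ) (b : Bool) : List Bool := ((digit x b bot).str).dropLast.dropLast.dropLast

/-- `F` is the implication of `G` and `H`. -/
def Rim (G H F : ℕ) : Prop := ∃ g h : DB, G = g.code ∧ H = h.code ∧ F = (DB.imp g h).code

/-- `F` is the generalization of `G`. -/
def Ral (G F : ℕ) : Prop := ∃ g : DB, G = g.code ∧ F = (DB.all g).code

/-- `H` arises from `G` when the number `a` is put for the bound variable `0`. -/
def Rin (G a H : ℕ) : Prop := ∃ g : DB, G = g.code ∧ H = (g.put a 0).code

/-- `F` is atomic. -/
def Rat (F : ℕ) : Prop := ∃ (k : ℕ) (a b c : Slot), F = (DB.atom k a b c).code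

/-- `F` is atomic and true. -/
def Rtt (F : ℕ) : Prop :=
  (∃ a, F = (DB.atom 1 (.par a) (.par a) (.par 0)).code) ∨
  (F = (DB.atom 2 (.par 0) (.par 0) (.par 0)).code) ∨
  (∃ a, F = (DB.atom 3 (.par a) (.par (a + 1)) (.par 0)).code) ∨
  (∃ a b, F = (DB.atom 4 (.par a) (.par b) (.par (a + b))).code) ∨
  (∃ a b, F = (DB.atom 5 (.par a) (.par b) (.par (a * b))).code)

/-- The depth of `F` is at most `k`. -/
def Rdp (F k : ℕ) : Prop := ∃ f : DB, F = f.code ∧ f.depth ≤ k

/-- `y` is the code of a formula and `F` is its instance under the assignment with the code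
`s`. -/
def Rcl (y s F : ℕ) : Prop := ∃ φ : Form, y = code [φ] ∧ F = (clo (asg s) φ []).code

/-- The value of the variable `x` under the assignment with the code `s` is `a`. -/
def Rvv (s x a : ℕ) : Prop := asg s x = a

/-- The string `z` is the concatenation of the strings `x` and `y`. -/
def Rcat (x y z : ℕ) : Prop := ∃ u w : List Bool, x = num u ∧ y = num w ∧ z = num (u ++ w)

/-- `u` is the string of the variable `x`. -/
def Rvs (x u : ℕ) : Prop := u = num (varStr x)

/-- `z` is the code of a list of formulas. -/
def Rlc (z : ℕ) : Prop := ∃ Γ : List Form, z = code Γ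

/-- `z` is the code of a list of formulas and `y` is the code of one of them. -/
def Rmem (y z : ℕ) : Prop := ∃ (Γ : List Form) (φ : Form), z = code Γ ∧ y = code [φ] ∧ φ ∈ Γ

/-- `l` is the number of the digits of `u`. -/
def Rln (u l : ℕ) : Prop := l = (digits u).length

/-- The string `w'` is the string `w` followed by the string of `inst x n φ` without the string of
`φ`. -/
def Rtm (x w n w' : ℕ) : Prop := w' = num (digits w ++ hd x ++ (digits n).flatMap (tmpl x))

/-- `y` is provable from the list `z` with proofs of length at most `m`. -/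
def Rp (z m y : ℕ) : Prop :=
  ∃ (Γ : List Form) (φ : Form), z = code Γ ∧ y = code [φ] ∧ Proves Γ m φ

end Pool.Agent.TH672
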