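import Pool.Agent.TH672.Mod

/-!
# The standard structure, and the sentences of the main argument
-/

set_option autoImplicit false

namespace Pool.Agent.TH672

open Fm

/-- The standard structure. -/
def Std : Str Sy where
  M := ℕ
  ne := ⟨0⟩
  zero a := a = 0
  succ a b := b = a + 1
  add a b c := a + b = c
  mul a b c := a * b = c
  op s a b c d := match s with
    | .p => Rp a b c
    | .q => Rp a b d ∧ b ≤ c
    | .im => Rim a b c
    | .al => Ral a b
    | .ins => Rin a b c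
    | .at => Rat a
    | .tt => Rtt a
    | .dp => Rdp a b
    | .cl => Rcl a b c
    | .vv => Rvv a b c
    | .cat => Rcat a b c
    | .vs => Rvs a b
    | .lc => Rlc a
    | .mem => Rmem a b
    | .ln => Rln a b
    | .tm2 => Rtm 2 a b c
    | .tm3 => Rtm 3 a b c
    | .tm4 => Rtm 4 a b c
    | .o _ => False

/-- `x` is a truth predicate for the closed instances of depth at most `k`, for `k` in `n`; the
second argument is `0` for false and not `0` for true. -/
def SemX (S : Str Sy) (n : S.M → Prop) (x : S.M → S.M → Prop) : Prop :=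
  ∀ k F, n k → S.r2 .dp F k →
    (∀ b c, (S.zero b ↔ S.zero c) → (x F b ↔ x F c)) ∧
    (∀ b c, S.zero b → ¬ S.zero c → (x F b ↔ ¬ x F c)) ∧
    ∀ c, ¬ S.zero c → (S.r1 .at F → (x F c ↔ S.r1 .tt F)) ∧
      (∀ G H, S.r3 .im G H F → (x F c ↔ (x G c → x H c))) ∧
      (∀ G, S.r2 .al G F → (x F c ↔ ∀ a H, S.r3 .ins G a H → x H c))

/-- the truth predicate for the next depth -/
def SemD (S : Str Sy) (x : S.M → S.M → Prop) (F b : S.M) : Prop :=
  ∃ c d r, (S.r1 .at F → (¬ S.zero b ↔ S.r1 .tt F)) ∧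
    (∀ G H, S.r3 .im G H F → (¬ S.zero b ↔ (¬ S.zero c → ¬ S.zero d))) ∧
    ∀ g e, ((∃ H, S.r3 .im g H F) ∧ e = c) ∨ ((∃ H, S.r3 .im H g F) ∧ e = d) ∨
      (∃ G, S.r2 .al G F ∧ ((¬ S.zero b ∧ ¬ S.zero e ∧ ∃ a, S.r3 .ins G a g) ∨
        (S.zero b ∧ S.zero e ∧ S.r3 .ins G r g))) → x g e

/-- all axioms in the list are true -/
def SemA (S : Str Sy) (A : List Form) (n : S.M → Prop) (x : S.M → S.M → Prop) : Prop :=
  ∀ a y s F K c, StrV S (strs A) a → n K → S.r2 .mem y a → S.r3 .cl y s F → S.r2 .dp F K →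
    ¬ S.zero c → x F c

/-- everything that is provable from the list `A` by proofs of length at most `k`, `k` in `l`, is
true -/
def SemC (S : Str Sy) (A : List Form) (n l : S.M → Prop) (x : S.M → S.M → Prop) : Prop :=
  ∀ a k K y s F c, StrV S (strs A) a → l k → n K → S.op .q a k K y → S.r3 .cl y s F →
    ¬ S.zero c → x F c

/-- the definition of the truth predicate for the next depth; `x` is the old predicate -/
def fD' (x : Sy) : Fm Sy := exs [20, 21, 22] (ands
  [.imp (f1 .at 9) (.iff (.neg (.zero 10)) (f1 .tt 9)),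
   alls [23, 24] (imps [f3 .im 23 24 9] (.iff (.neg (.zero 10))
     (.imp (.neg (.zero 20)) (.neg (.zero 21)))))]
  (alls [23, 24] (imps [.or (.and (exs [25] (f3 .im 23 25 9)) (.eq 24 20))
    (.or (.and (exs [25] (f3 .im 25 23 9)) (.eq 24 21))
      (exs [25] (.and (f2 .al 25 9) (.or (ands [.neg (.zero 10), .neg (.zero 24)]
        (exs [26] (f3 .ins 25 26 23))) (ands [.zero 10, .zero 24] (f3 .ins 25 22 23))))))]
    (f2 x 23 24))))

theorem sat_fD' (S : Str Sy) (x : Sy) (v : ℕ → S.M) :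
    Sat S (fD' x) v ↔ SemD S (S.r2 x) (v 9) (v 10) := by
  simp [fD', SemD, upd]

/-- the sentence for `SemX` -/
def fX (n x : Sy) : Fm Sy := alls [20, 21] (imps [f1 n 20, f2 .dp 21 20] (ands
  [alls [22, 23] (imps [.iff (.zero 22) (.zero 23)] (.iff (f2 x 21 22) (f2 x 21 23))),
   alls [22, 23] (imps [.zero 22, .neg (.zero 23)] (.iff (f2 x 21 22) (.neg (f2 x 21 23))))]
  (alls [22] (imps [.neg (.zero 22)] (ands
    [.imp (f1 .at 21) (.iff (f2 x 21 22) (f1 .tt 21)),
     alls [23, 24] (imps [f3 .im 23 24 21] (.iff (f2 x 21 22) (.imp (f2 x 23 22) (f2 x 24 22))))]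
    (alls [23] (imps [f2 .al 23 21] (.iff (f2 x 21 22)
      (alls [24, 25] (imps [f3 .ins 23 24 25] (f2 x 25 22)))))))))))

theorem sat_fX (S : Str Sy) (n x : Sy) (v : ℕ → S.M) :
    Sat S (fX n x) v ↔ SemX S (S.r1 n) (S.r2 x) := by
  simp [fX, SemX, upd]

/-- the sentence for `SemA` -/
def fA (A : List Form) (n x : Sy) : Fm Sy := alls [20, 21, 22, 23, 24, 25]
  (imps [isS (strs A) 20, f1 n 24, f2 .mem 21 20, f3 .cl 21 22 23, f2 .dp 23 24, .neg (.zero 25)]
    (f2 x 23 25))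

theorem sat_fA (S : Str Sy) (A : List Form) (n x : Sy) (v : ℕ → S.M) :
    Sat S (fA A n x) v ↔ SemA S A (S.r1 n) (S.r2 x) := by
  simp [fA, SemA, upd, sat_isS]

/-- the sentence for `SemC` -/
def fC (A : List Form) (n l x : Sy) : Fm Sy := alls [20, 21, 22, 23, 24, 25, 26]
  (imps [isS (strs A) 20, f1 l 21, f1 n 22, .op .q 20 21 22 23, f3 .cl 23 24 25, .neg (.zero 26)]
    (f2 x 25 26))

theorem sat_fC (S : Str Sy) (A : List Form) (n l x : Sy) (v : ℕ → S.M) :
    Sat S (fC A n l x) v ↔ SemC S A (S.r1 n) (S.r1 l) (S.r2 x) := by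
  simp [fC, SemC, upd, sat_isS]

end Pool.Agent.TH672
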