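import Pool.Agent.TH672.Sem
import Pool.Agent.TH894.J104

/-!
# Job 195 (MYC-6): truth of the sentences on strings in the standard structure
-/

set_option autoImplicit false

namespace Pool.Agent.TH672
open Fm

namespace J195

open R104

theorem app_std (b : Bool) (x y : ℕ) : App Std b x y ↔ y = 2 * x + if b then 2 else 1 := by
  cases b
  · simp only [App, Std, Bool.false_eq_true, if_false]
    constructor
    · rintro ⟨u, rfl, rfl⟩; omega
    · rintro rfl; exact ⟨x + x, rfl, by omega⟩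
  · simp only [App, Std, if_true]
    constructor
    · rintro ⟨u, w, rfl, rfl, rfl⟩; omega
    · rintro rfl; exact ⟨x + x, x + x + 1, rfl, rfl, by omega⟩

theorem appL_fold (σ : List Bool) : ∀ a e : ℕ, AppL Std σ a e ↔
    e = σ.foldl (fun n b => 2 * n + if b then 2 else 1) a := by
  induction σ with
  | nil => exact fun a e => ⟨fun h => Eq.symm h, fun h => Eq.symm h⟩
  | cons b σ ih =>
    intro a e
    constructor
    · rintro ⟨t, h1, h2⟩
      rw [(app_std b a t).1 h1] at h2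
      exact (ih _ _).1 h2
    · intro h
      exact ⟨_, (app_std b a _).2 rfl, (ih _ _).2 h⟩

theorem digits_app (b : Bool) (x : ℕ) : digits (2 * x + if b then 2 else 1) = digits x ++ [b] := by
  cases b
  · simpa using digits_odd x
  · simpa using digits_even x

/-! ### Unique readability -/

theorem varStr_pre : ∀ {x y : ℕ} {u w : List Bool}, varStr x ++ u = varStr y ++ w →
    x = y ∧ u = w := by
  intro x
  induction x with
  | zero =>
    intro y u w h
    cases y with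
    | zero => simpa [varStr] using h
    | succ y => simp [varStr, List.replicate_succ] at h
  | succ x ih =>
    intro y u w h
    cases y with
    | zero => simp [varStr, List.replicate_succ] at h
    | succ y =>
      have h' : varStr x ++ u = varStr y ++ w := by
        simpa [varStr, List.replicate_succ] using h
      obtain ⟨rfl, rfl⟩ := ih h'
      exact ⟨rfl, rfl⟩

theorem str_pre : ∀ {φ ψ : Form} {u w : List Bool}, φ.str ++ u = ψ.str ++ w → φ = ψ ∧ u = w := by
  intro φ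
  induction φ with
  | bot =>
    intro ψ u w h
    cases ψ <;> simp [Form.str] at h ⊢
    exact h
  | eq x y =>
    intro ψ u w h
    cases ψ <;> simp [Form.str] at h ⊢
    obtain ⟨rfl, h1⟩ := varStr_pre h
    obtain ⟨rfl, rfl⟩ := varStr_pre h1
    exact ⟨⟨rfl, rfl⟩, rfl⟩
  | zero x =>
    intro ψ u w h
    cases ψ <;> simp [Form.str] at h ⊢
    obtain ⟨rfl, h1⟩ := varStr_pre h
    exact ⟨rfl, h1⟩
  | succ x y =>
    intro ψ u w h
    cases ψ <;> simp [Form.str] at h ⊢
    obtain ⟨rfl, h1⟩ := varStr_pre h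
    obtain ⟨rfl, rfl⟩ := varStr_pre h1
    exact ⟨⟨rfl, rfl⟩, rfl⟩
  | add x y z =>
    intro ψ u w h
    cases ψ <;> simp [Form.str] at h ⊢
    obtain ⟨rfl, h1⟩ := varStr_pre h
    obtain ⟨rfl, h2⟩ := varStr_pre h1
    obtain ⟨rfl, rfl⟩ := varStr_pre h2
    exact ⟨⟨rfl, rfl, rfl⟩, rfl⟩
  | mul x y z =>
    intro ψ u w h
    cases ψ <;> simp [Form.str] at h ⊢
    obtain ⟨rfl, h1⟩ := varStr_pre h
    obtain ⟨rfl, h2⟩ := varStr_pre h1
    obtain ⟨rfl, rfl⟩ := varStr_pre h2
    exact ⟨⟨rfl, rfl, rfl⟩, rfl⟩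
  | imp φ₁ φ₂ ih₁ ih₂ =>
    intro ψ u w h
    cases ψ <;> simp [Form.str] at h ⊢
    obtain ⟨rfl, h1⟩ := ih₁ h
    obtain ⟨rfl, rfl⟩ := ih₂ h1
    exact ⟨⟨rfl, rfl⟩, rfl⟩
  | all x φ ih =>
    intro ψ u w h
    cases ψ <;> simp [Form.str] at h ⊢
    obtain ⟨rfl, h1⟩ := varStr_pre h
    obtain ⟨rfl, rfl⟩ := ih h1
    exact ⟨⟨rfl, rfl⟩, rfl⟩

theorem str_ne_nil (φ : Form) : φ.str ≠ [] := by
  cases φ <;> simp [Form.str]

theorem strs_cons (φ : Form) (Γ : List Form) : strs (φ :: Γ) = φ.str ++ strs Γ := rfl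

theorem strs_append (Γ Δ : List Form) : strs (Γ ++ Δ) = strs Γ ++ strs Δ := by
  simp [strs, List.flatMap_append]

theorem strs_single (φ : Form) : strs [φ] = φ.str := by simp [strs]

theorem strs_inj : ∀ {Γ Δ : List Form}, strs Γ = strs Δ → Γ = Δ
  | [], [], _ => rfl
  | [], φ :: Δ, h => by
    rw [strs_cons] at h
    have := str_ne_nil φ
    simp [strs] at h
    exact absurd h.1 this
  | φ :: Γ, [], h => by
    rw [strs_cons] at h
    have := str_ne_nil φ
    simp [strs] at h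
    exact absurd h.1 this
  | φ :: Γ, ψ :: Δ, h => by
    rw [strs_cons, strs_cons] at h
    obtain ⟨rfl, h1⟩ := str_pre h
    rw [strs_inj h1]

theorem code_inj {Γ Δ : List Form} (h : code Γ = code Δ) : Γ = Δ := strs_inj (num_inj h)

theorem code_one_inj {φ ψ : Form} (h : code [φ] = code [ψ]) : φ = ψ := by
  have := code_inj h
  simpa using this

/-- `y` is the code of a formula. -/
theorem mem_self (y : ℕ) : Rmem y y ↔ ∃ φ : Form, y = code [φ] := by
  constructor
  · rintro ⟨Γ, φ, _, h, _⟩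
    exact ⟨φ, h⟩
  · rintro ⟨φ, rfl⟩
    exact ⟨[φ], φ, rfl, rfl, by simp⟩

theorem cat_iff (u w : List Bool) (z : ℕ) : Rcat (num u) (num w) z ↔ z = num (u ++ w) :=
  Rcat_num u w z

end J195

open J195 R104

/-- helper for strings in the standard structure -/
theorem appL_std (σ : List Bool) (a e : ℕ) : AppL Std σ a e ↔ e = num (digits a ++ σ) := by
  rw [appL_fold, num_append, num_digits]

theorem strV_std (σ : List Bool) (e : ℕ) : StrV Std σ e ↔ e = num σ := by
  constructor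
  · rintro ⟨z, hz, h⟩
    have hz : z = (0 : ℕ) := hz
    subst hz
    exact (appL_fold σ 0 e).1 h
  · rintro rfl
    exact ⟨(0 : ℕ), rfl, (appL_fold _ _ _).2 rfl⟩

theorem std_c1 : ∀ x y, Std.zero y → Std.r3 .cat x y x := by
  intro x y hy
  have hy : y = (0 : ℕ) := hy
  subst hy
  exact ⟨digits x, [], (num_digits x).symm, rfl, by rw [List.append_nil]; exact (num_digits x).symm⟩

theorem std_c2 : ∀ (b : Bool) (x y w y' w' : Std.M), Std.r3 .cat x y w → App Std b y y' →
    App Std b w w' → Std.r3 .cat x y' w' := by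
  rintro b x y w y' w' ⟨u, v, rfl, rfl, rfl⟩ h1 h2
  have h1 := (app_std b (num v) y').1 h1
  have h2 := (app_std b (num (u ++ v)) w').1 h2
  refine ⟨u, v ++ [b], rfl, ?_, ?_⟩
  · rw [num_snoc]; exact h1
  · rw [← List.append_assoc, num_snoc]; exact h2

theorem std_v1 : ∀ x u, Std.zero x → StrV Std [false] u → Std.r2 .vs x u := by
  intro (x : ℕ) (u : ℕ) hx hu
  have hx : x = (0 : ℕ) := hx
  subst hx
  exact (strV_std _ _).1 hu

theorem std_v2 : ∀ x u x' c u', Std.r2 .vs x u → Std.succ x x' → StrV Std [true] c →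
    Std.r3 .cat c u u' → Std.r2 .vs x' u' := by
  intro (x : ℕ) (u : ℕ) (x' : ℕ) (c : ℕ) (u' : ℕ) h1 h2 h3 h4
  have h1 : u = num (varStr x) := h1
  have h2 : x' = x + 1 := h2
  have h3 : c = num [true] := (strV_std _ _).1 h3
  subst h1 h2 h3
  have h4 : u' = num ([true] ++ varStr x) := (cat_iff _ _ _).1 h4
  exact h4

theorem p1_std (t : List Bool) (y x : ℕ) : P1 Std t y x ↔ y = num (t ++ varStr x) := by
  constructor
  · rintro ⟨(c : ℕ), (u : ℕ), h1, h2, h3⟩
    have h1 : c = num t := (strV_std _ _).1 h1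
    have h2 : u = num (varStr x) := h2
    subst h1 h2
    exact (cat_iff _ _ _).1 h3
  · rintro rfl
    exact ⟨num t, num (varStr x), (strV_std _ _).2 rfl, rfl, (cat_iff _ _ _).2 rfl⟩

theorem p2_std (t : List Bool) (y x x' : ℕ) : P2 Std t y x x' ↔
    y = num (t ++ varStr x ++ varStr x') := by
  constructor
  · rintro ⟨(c : ℕ), (u : ℕ), (u' : ℕ), (w : ℕ), h1, h2, h3, h4, h5⟩
    have h1 : c = num t := (strV_std _ _).1 h1
    have h2 : u = num (varStr x) := h2
    have h3 : u' = num (varStr x') := h3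
    subst h1 h2 h3
    have h4 : w = num (t ++ varStr x) := (cat_iff _ _ _).1 h4
    subst h4
    exact (cat_iff _ _ _).1 h5
  · rintro rfl
    exact ⟨num t, num (varStr x), num (varStr x'), num (t ++ varStr x), (strV_std _ _).2 rfl, rfl,
      rfl, (cat_iff _ _ _).2 rfl, (cat_iff _ _ _).2 rfl⟩

theorem p3_std (t : List Bool) (y x x' x'' : ℕ) : P3 Std t y x x' x'' ↔
    y = num (t ++ varStr x ++ varStr x' ++ varStr x'') := by
  constructor
  · rintro ⟨(c : ℕ), (u : ℕ), (u' : ℕ), (w : ℕ), (u'' : ℕ), (w' : ℕ), h1, h2, h3, h4, h5, h6, h7⟩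
    have h1 : c = num t := (strV_std _ _).1 h1
    have h2 : u = num (varStr x) := h2
    have h3 : u' = num (varStr x') := h3
    have h4 : u'' = num (varStr x'') := h4
    subst h1 h2 h3 h4
    have h5 : w = num (t ++ varStr x) := (cat_iff _ _ _).1 h5
    subst h5
    have h6 : w' = num (t ++ varStr x ++ varStr x') := (cat_iff _ _ _).1 h6
    subst h6
    exact (cat_iff _ _ _).1 h7
  · rintro rfl
    exact ⟨num t, num (varStr x), num (varStr x'), num (t ++ varStr x), num (varStr x''),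
      num (t ++ varStr x ++ varStr x'), (strV_std _ _).2 rfl, rfl,
      rfl, rfl, (cat_iff _ _ _).2 rfl, (cat_iff _ _ _).2 rfl, (cat_iff _ _ _).2 rfl⟩

theorem pi_std (y y1 y2 : ℕ) : PI Std y y1 y2 ↔ ∃ φ ψ : Form, y1 = code [φ] ∧ y2 = code [ψ] ∧
    y = code [φ.imp ψ] := by
  constructor
  · rintro ⟨(c : ℕ), (w : ℕ), h1, h2, h3, h4, h5⟩
    have h1 : c = num [true, true, false] := (strV_std _ _).1 h1
    obtain ⟨φ, rfl⟩ := (mem_self y1).1 h2
    obtain ⟨ψ, rfl⟩ := (mem_self y2).1 h3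
    subst h1
    have h4 : w = num ([true, true, false] ++ strs [φ]) := (cat_iff _ _ _).1 h4
    subst h4
    have h5 : y = num ([true, true, false] ++ strs [φ] ++ strs [ψ]) := (cat_iff _ _ _).1 h5
    refine ⟨φ, ψ, rfl, rfl, ?_⟩
    rw [h5, strs_single, strs_single, code_single]
    rfl
  · rintro ⟨φ, ψ, rfl, rfl, rfl⟩
    refine ⟨num [true, true, false], num ([true, true, false] ++ strs [φ]), (strV_std _ _).2 rfl,
      (mem_self _).2 ⟨φ, rfl⟩, (mem_self _).2 ⟨ψ, rfl⟩, (cat_iff _ _ _).2 rfl,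
      (cat_iff _ _ _).2 ?_⟩
    rw [strs_single, strs_single, code_single]
    rfl

theorem pa_std (y x y1 : ℕ) : PA Std y x y1 ↔ ∃ φ : Form, y1 = code [φ] ∧
    y = code [φ.all x] := by
  constructor
  · rintro ⟨(c : ℕ), (u : ℕ), (w : ℕ), h1, h2, h3, h4, h5⟩
    have h1 : c = num [true, true, true] := (strV_std _ _).1 h1
    have h2 : u = num (varStr x) := h2
    obtain ⟨φ, rfl⟩ := (mem_self y1).1 h3
    subst h1 h2
    have h4 : w = num ([true, true, true] ++ varStr x) := (cat_iff _ _ _).1 h4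
    subst h4
    have h5 : y = num ([true, true, true] ++ varStr x ++ strs [φ]) := (cat_iff _ _ _).1 h5
    refine ⟨φ, rfl, ?_⟩
    rw [h5, strs_single, code_single]
    rfl
  · rintro ⟨φ, rfl, rfl⟩
    refine ⟨num [true, true, true], num (varStr x), num ([true, true, true] ++ varStr x),
      (strV_std _ _).2 rfl, rfl, (mem_self _).2 ⟨φ, rfl⟩, (cat_iff _ _ _).2 rfl,
      (cat_iff _ _ _).2 ?_⟩
    rw [strs_single, code_single]
    rfl

theorem std_f0 : ∀ y, StrV Std [false, false, false] y → Std.r2 .mem y y := by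
  intro (y : ℕ) h
  exact (mem_self y).2 ⟨.bot, by rw [code_single]; exact (strV_std _ _).1 h⟩

theorem std_f1 : ∀ y x, P1 Std [false, true, false] y x → Std.r2 .mem y y := by
  intro (y : ℕ) (x : ℕ) h
  exact (mem_self y).2 ⟨.zero x, by rw [code_single]; exact (p1_std _ _ _).1 h⟩

theorem std_f2 : ∀ y x x', P2 Std [false, false, true] y x x' → Std.r2 .mem y y := by
  intro (y : ℕ) (x : ℕ) (x' : ℕ) h
  exact (mem_self y).2 ⟨.eq x x', by rw [code_single]; exact (p2_std _ _ _ _).1 h⟩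

theorem std_f2' : ∀ y x x', P2 Std [false, true, true] y x x' → Std.r2 .mem y y := by
  intro (y : ℕ) (x : ℕ) (x' : ℕ) h
  exact (mem_self y).2 ⟨.succ x x', by rw [code_single]; exact (p2_std _ _ _ _).1 h⟩

theorem std_f3 : ∀ y x x' x'', P3 Std [true, false, false] y x x' x'' → Std.r2 .mem y y := by
  intro (y : ℕ) (x : ℕ) (x' : ℕ) (x'' : ℕ) h
  exact (mem_self y).2 ⟨.add x x' x'', by rw [code_single]; exact (p3_std _ _ _ _ _).1 h⟩

theorem std_f3' : ∀ y x x' x'', P3 Std [true, false, true] y x x' x'' → Std.r2 .mem y y := by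
  intro (y : ℕ) (x : ℕ) (x' : ℕ) (x'' : ℕ) h
  exact (mem_self y).2 ⟨.mul x x' x'', by rw [code_single]; exact (p3_std _ _ _ _ _).1 h⟩

theorem std_f6 : ∀ y y1 y2, PI Std y y1 y2 → Std.r2 .mem y y := by
  intro (y : ℕ) (y1 : ℕ) (y2 : ℕ) h
  obtain ⟨φ, ψ, _, _, h⟩ := (pi_std _ _ _).1 h
  exact (mem_self y).2 ⟨_, h⟩

theorem std_f7 : ∀ y x y1, PA Std y x y1 → Std.r2 .mem y y := by
  intro (y : ℕ) (x : ℕ) (y1 : ℕ) h
  obtain ⟨φ, _, h⟩ := (pa_std _ _ _).1 h
  exact (mem_self y).2 ⟨_, h⟩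

theorem std_l1 : ∀ x, Std.zero x → Std.r1 .lc x := by
  intro (x : ℕ) hx
  exact ⟨[], hx⟩

theorem std_l2 : ∀ x y, Std.zero x → ¬ Std.r2 .mem y x := by
  rintro (x : ℕ) (y : ℕ) hx ⟨Γ, φ, h1, h2, h3⟩
  have hx : x = code [] := hx
  have := code_inj (h1.symm.trans hx)
  subst this
  simp at h3

theorem std_l3 : ∀ x y w, Std.r1 .lc x → Std.r2 .mem y y → Std.r3 .cat x y w → Std.r1 .lc w := by
  rintro (x : ℕ) (y : ℕ) (w : ℕ) ⟨Γ, rfl⟩ h1 h2
  obtain ⟨φ, rfl⟩ := (mem_self y).1 h1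
  have h3 : w = num (strs Γ ++ strs [φ]) := (cat_iff _ _ _).1 h2
  exact ⟨Γ ++ [φ], by rw [h3, ← strs_append]; rfl⟩

theorem std_l4 : ∀ x y w u, Std.r1 .lc x → Std.r2 .mem y y → Std.r3 .cat x y w →
    Std.r2 .mem u w → Std.r2 .mem u x ∨ u = y := by
  rintro (x : ℕ) (y : ℕ) (w : ℕ) (u : ℕ) ⟨Γ, rfl⟩ h1 h2 ⟨Δ, ψ, h4, rfl, h5⟩
  obtain ⟨φ, rfl⟩ := (mem_self y).1 h1
  have h3 : w = num (strs Γ ++ strs [φ]) := (cat_iff _ _ _).1 h2
  rw [← strs_append] at h3
  have h6 : Δ = Γ ++ [φ] := code_inj (h4.symm.trans h3)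
  subst h6
  rcases List.mem_append.1 h5 with h | h
  · exact Or.inl ⟨Γ, ψ, rfl, rfl, h⟩
  · simp at h
    subst h
    exact Or.inr rfl

theorem tm_std195 (i : Sy × ℕ) (hi : i ∈ [(Sy.tm2, 2), (Sy.tm3, 3), (Sy.tm4, 4)]) (w n w' : ℕ) :
    Std.r3 i.1 w n w' ↔ Rtm i.2 w n w' := by
  simp only [List.mem_cons, List.not_mem_nil, or_false] at hi
  rcases hi with rfl | rfl | rfl <;> exact Iff.rfl

theorem std_t1 : ∀ (i : Sy × ℕ), i ∈ [(Sy.tm2, 2), (Sy.tm3, 3), (Sy.tm4, 4)] →
    ∀ w n w', Std.zero n → AppL Std (hd i.2) w w' → Std.r3 i.1 w n w' := by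
  intro i hi (w : ℕ) (n : ℕ) (w' : ℕ) hn h
  refine (tm_std195 i hi _ _ _).2 ?_
  have hn : n = (0 : ℕ) := hn
  subst hn
  have h : w' = num (digits w ++ hd i.2) := (appL_std _ _ _).1 h
  unfold Rtm
  rw [digits_zero, List.flatMap_nil, List.append_nil]
  exact h

theorem std_t2 : ∀ (i : Sy × ℕ), i ∈ [(Sy.tm2, 2), (Sy.tm3, 3), (Sy.tm4, 4)] → ∀ (b : Bool) w n w1 n' w2,
    Std.r3 i.1 w n w1 → App Std b n n' → AppL Std (tmpl i.2 b) w1 w2 → Std.r3 i.1 w n' w2 := by
  intro i hi b (w : ℕ) (n : ℕ) (w1 : ℕ) (n' : ℕ) (w2 : ℕ) h1 h2 h3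
  have h1 : w1 = num (digits w ++ hd i.2 ++ (digits n).flatMap (tmpl i.2)) :=
    (tm_std195 i hi _ _ _).1 h1
  have h2 : n' = 2 * n + if b then 2 else 1 := (app_std _ _ _).1 h2
  have h3 : w2 = num (digits w1 ++ tmpl i.2 b) := (appL_std _ _ _).1 h3
  refine (tm_std195 i hi _ _ _).2 ?_
  show w2 = num (digits w ++ hd i.2 ++ (digits n').flatMap (tmpl i.2))
  rw [h3, h1, h2, digits_app, digits_num, List.flatMap_append]
  simp

theorem std_n1 : ∀ u l, Std.zero u → Std.zero l → Std.r2 .ln u l := by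
  intro (u : ℕ) (l : ℕ) hu hl
  have hu : u = (0 : ℕ) := hu
  have hl : l = (0 : ℕ) := hl
  subst hu hl
  show (0 : ℕ) = (digits 0).length
  rw [digits_zero]; rfl

theorem std_n2 : ∀ (b : Bool) u l u' l', Std.r2 .ln u l → App Std b u u' → Std.succ l l' →
    Std.r2 .ln u' l' := by
  intro b (u : ℕ) (l : ℕ) (u' : ℕ) (l' : ℕ) h1 h2 h3
  have h2 : u' = 2 * u + if b then 2 else 1 := (app_std _ _ _).1 h2
  have h1 : l = (digits u).length := h1
  have h3 : l' = l + 1 := h3
  show l' = (digits u').length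
  rw [h3, h1, h2, digits_app]
  simp

/-- The string of `digit x b φ`. -/
theorem str_digit (x : ℕ) (b : Bool) (φ : Form) : (digit x b φ).str = tmpl x b ++ φ.str := by
  have key : ∀ φ : Form, ∃ T : List Bool, ∀ φ : Form, (digit x b φ).str = T ++ φ.str := by
    intro _
    cases b
    · refine ⟨[true, true, true] ++ varStr 0 ++ ([true, true, false] ++ (Form.add x x 0).str ++
        ([true, true, true] ++ varStr x ++ ([true, true, false] ++ (Form.succ 0 x).str))), ?_⟩
      intro φ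
      simp [digit, Form.str]
    · refine ⟨[true, true, true] ++ varStr 0 ++ ([true, true, false] ++ (Form.add x x 0).str ++
        ([true, true, true] ++ varStr 1 ++ ([true, true, false] ++ (Form.succ 0 1).str ++
        ([true, true, true] ++ varStr x ++ ([true, true, false] ++ (Form.succ 1 x).str))))), ?_⟩
      intro φ
      simp [digit, Form.str]
  obtain ⟨T, hT⟩ := key φ
  have h0 : tmpl x b = T := by
    have e : T ++ [false, false, false] = ((T ++ [false]) ++ [false]) ++ [false] := by simp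
    unfold tmpl
    rw [hT]
    show (T ++ [false, false, false]).dropLast.dropLast.dropLast = T
    rw [e, List.dropLast_concat, List.dropLast_concat, List.dropLast_concat]
  rw [h0, hT]

/-- The string of `inst x n φ`. -/
theorem str_inst195 (x n : ℕ) (φ : Form) :
    (inst x n φ).str = hd x ++ (digits n).flatMap (tmpl x) ++ φ.str := by
  have h : ∀ l : List Bool, (l.foldr (digit x) φ).str = l.flatMap (tmpl x) ++ φ.str := by
    intro l
    induction l with
    | nil => rfl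
    | cons b l ih =>
      rw [List.foldr_cons, str_digit, ih, List.flatMap_cons, List.append_assoc]
  simp only [inst, Form.str, h, hd, List.append_assoc]

end Pool.Agent.TH672
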