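import Pool.Agent.TH672.Num2

/-!
# Numerals for strings, the truth predicates, and the sentences that are derived
-/

set_option autoImplicit false

namespace Pool.Agent.TH672

open Form

/-- case distinctions with finitely many cases -/
theorem PD.split {J : Type} {Γ : List Form} {sz : J → ℕ} {C : J → List Form} {F : J → Form}
    {α : Type} [Fintype α] (s : J → α)
    (h : ∀ a, PD Γ (fun j : {j // s j = a} => sz j.1) (fun j => C j.1) (fun j => F j.1)) :
    PD Γ sz C F := by
  choose f hf hE using h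
  choose c hc using hf
  refine ⟨fun j => (∑ a, c a) * (sz j + 1) ^ (∑ a, c a), ⟨_, fun j => le_rfl⟩, fun j => ?_⟩
  refine (hE (s j) ⟨j, rfl⟩).le ((hc (s j) ⟨j, rfl⟩).trans ?_)
  have h1 : c (s j) ≤ ∑ a, c a := Finset.single_le_sum (fun _ _ => Nat.zero_le _) (Finset.mem_univ _)
  exact Nat.mul_le_mul h1 (pow_le_pow_succ' _ h1)

/-- `y` followed by the digit `a` -/
def dY (a : Bool) (y : Sy) : Fm Sy := .ex 20 (.and (f1 y 20) (apf a 20 9))

theorem okD_Y (a : Bool) : OkD (dY a (.o 0)) := by
  refine ⟨?_, ?_, ?_, ?_⟩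
  · simp [dY, av_apf, ok]
  · intro x hx
    simp [dY, free_apf] at hx
    omega
  · intro j hj h
    simp [dY, uses_ex, uses_and, uses_f1, uses_apf] at h
    omega
  · cases a <;> simp [dY, nOcc, Fm.ex, Fm.and, Fm.neg, f1, apf]

/-- the formula for the number with the digits `σ`, of linear length -/
def Yf (b : Sy → Form) (σ : List Bool) : Form := Ch b Z0 (fun a => dY a (.o 0)) σ.reverse

theorem sem_dY {S : Str Sy} {y y' : Sy} {a : Bool} {v : ℕ → S.M}
    (h : Fm.Sat S (defEq y' (dY a y)) v) (x : S.M) : S.r1 y' x ↔ ∃ k, S.r1 y k ∧ App S a k x := by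
  have := sat_defEq h x x x x
  simpa [dY, upd, Str.r1, sat_apf] using this

theorem closed_dY (a : Bool) (s j : ℕ) : (defEq (.o j) (dY a (.o s))).Closed := by
  intro x hx; simp [defEq, dY, Fm.Free, free_apf] at hx; omega
theorem av_dY (a : Bool) (s j : ℕ) : Av (defEq (.o j) (dY a (.o s))) := by
  simp [defEq, dY, Av, ok, av_apf]

theorem okD_X : OkD (fD' (.o 0)) := by
  refine ⟨?_, ?_, ?_, ?_⟩
  · simp [fD', av_exs, av_alls, Av, ok]
  · intro x hx
    simp [fD', free_exs, free_alls, Fm.Free] at hx
    omega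
  · intro j hj h
    simp [fD', uses_exs, uses_alls, uses_imps_cons, uses_imps_nil, uses_ands_cons, uses_ands_nil,
      uses_neg, uses_and, uses_or, uses_iff, uses_f1, uses_f2, uses_f3, Uses] at h
    omega
  · simp [fD', nOcc, Fm.ex, Fm.and, Fm.neg, Fm.or, Fm.iff, f1, f2, f3, exs, alls, imps, ands]

/-- the truth predicate for the depths at most `k` -/
def Xf (b : Sy → Form) (k : ℕ) : Form :=
  Ch b Form.bot (fun _ => fD' (.o 0)) (List.replicate k false)

variable {J : Type} {sz : J → ℕ} {C : J → List Form}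

theorem Setting.yf_role' (E : Setting) {f : J → List Bool} (hf : Pb sz fun j => (f j).length) :
    Role sz (fun j => Yf E.b (f j)) := by
  have h := ch_role E.hb okF_Z0 (D := fun a => dY a (.o 0)) okD_Y
  exact ⟨h.1.comp (fun j => (f j).reverse) (by simpa using hf), fun j => h.2 _⟩

theorem Setting.yf_succ (E : Setting) (a : Bool) {f : J → List Bool}
    (hf : Pb sz fun j => (f j).length) :
    PD E.Γ sz C (fun j => tr (mk E.b [Yf E.b (f j), Yf E.b (f j ++ [a])])
      (defEq (.o 1) (dY a (.o 0)))) := by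
  have h := E.ch_def okF_Z0 (D := fun a => dY a (.o 0)) okD_Y a (C := fun _ => [])
  have h1 := h.comp (sz' := sz) (fun j : J => (f j).reverse) (by simpa using hf)
  have h2 : ∀ j, Yf E.b (f j ++ [a]) = Ch E.b Z0 (fun a => dY a (.o 0)) (a :: (f j).reverse) := by
    intro j; simp [Yf]
  simp only [h2]
  exact h1.ctx (by simp)

theorem Setting.xf_role' (E : Setting) {f : J → ℕ} (hf : Pb sz f) :
    Role sz (fun j => Xf E.b (f j)) := by
  have h := ch_role E.hb (F0 := Form.bot) (by intro x hx; exact absurd hx (by simp [Form.Free]))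
    (D := fun _ => fD' (.o 0)) (fun _ => okD_X)
  exact ⟨h.1.comp (fun j => List.replicate (f j) false) (by simpa using hf), fun j => h.2 _⟩

theorem Setting.xf_succ (E : Setting) {f : J → ℕ} (hf : Pb sz f) :
    PD E.Γ sz C (fun j => tr (mk E.b [Xf E.b (f j), Xf E.b (f j + 1)])
      (defEq (.o 1) (fD' (.o 0)))) := by
  have h := E.ch_def (F0 := Form.bot) (by intro x hx; exact absurd hx (by simp [Form.Free]))
    (D := fun _ => fD' (.o 0)) (fun _ => okD_X) false (C := fun _ => [])
  have h1 := h.comp (sz' := sz) (fun j : J => List.replicate (f j) false) (by simpa using hf)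
  exact h1.ctx (by simp)

/-- `y'` is `y` followed by the digits `σ` -/
def fRR (σ : List Bool) (y y' : Sy) : Fm Sy := alls [20] (.iff (f1 y' 20)
  (exs [21] (.and (f1 y 21) (appS σ 21 20))))

theorem sat_fRR (S : Str Sy) (σ : List Bool) (y y' : Sy) (v : ℕ → S.M) :
    Fm.Sat S (fRR σ y y') v ↔ ∀ z, S.r1 y' z ↔ ∃ w, S.r1 y w ∧ AppL S σ w z := by
  simp [fRR, upd, sat_appS]

/-- the relation between a number, the string of the instance and the number of digits -/
def fKK (A : List Form) (u w l : Sy) : Fm Sy := alls [20, 21, 22, 23]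
  (imps [isS (strs A) 20, f1 u 21, f1 w 22, f1 l 23] (.and (f3 .tm3 20 21 22) (f2 .ln 21 23)))

theorem sat_fKK (S : Str Sy) (A : List Form) (u w l : Sy) (v : ℕ → S.M) :
    Fm.Sat S (fKK A u w l) v ↔ ∀ a e f g, StrV S (strs A) a → S.r1 u e → S.r1 w f → S.r1 l g →
      S.r3 .tm3 a e f ∧ S.r2 .ln e g := by
  simp [fKK, upd, sat_isS]

/-- no contradiction is provable from `A` by proofs of length at most `k`, `k` in `n` -/
def fCon (A : List Form) (n : Sy) : Fm Sy := alls [20, 21, 22]
  (imps [isS (strs A) 20, f1 n 21, isS [false, false, false] 22] (.neg (f3 .p 20 21 22)))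

theorem sat_fCon (S : Str Sy) (A : List Form) (n : Sy) (v : ℕ → S.M) :
    Fm.Sat S (fCon A n) v ↔ ∀ a k y, StrV S (strs A) a → S.r1 n k →
      StrV S [false, false, false] y → ¬ S.r3 .p a k y := by
  simp [fCon, upd, sat_isS]

/-- no contradiction is provable from the list with the code `z` by proofs of length at most `k`,
`k` in `n` -/
def fCon' (z n : Sy) : Fm Sy := alls [20, 21, 22]
  (imps [f1 z 20, f1 n 21, isS [false, false, false] 22] (.neg (f3 .p 20 21 22)))

theorem sat_fCon' (S : Str Sy) (z n : Sy) (v : ℕ → S.M) :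
    Fm.Sat S (fCon' z n) v ↔ ∀ a k y, S.r1 z a → S.r1 n k →
      StrV S [false, false, false] y → ¬ S.r3 .p a k y := by
  simp [fCon', upd, sat_isS]

/-- one symbol implies the other -/
def fImp (y n : Sy) : Fm Sy := alls [20] (imps [f1 y 20] (f1 n 20))

theorem sat_fImp (S : Str Sy) (y n : Sy) (v : ℕ → S.M) :
    Fm.Sat S (fImp y n) v ↔ ∀ x, S.r1 y x → S.r1 n x := by simp [fImp, upd]

/-- the formula `R` (with free variable `5`), applied to the variable `x` -/
def At1 (R : Form) (x : ℕ) : Form := wrap x x x x R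

/-- the translation depends only on the interpretation of the symbols that are used -/
theorem tr_isS (ι : Sy → Form) (σ : List Bool) (z : ℕ) :
    tr ι (isS σ z) = tr (fun _ => Form.bot) (isS σ z) :=
  tr_congr fun i hi => absurd hi (uses_isS i σ z)

theorem tr_appS (ι : Sy → Form) (σ : List Bool) (w z : ℕ) :
    tr ι (appS σ w z) = tr (fun _ => Form.bot) (appS σ w z) :=
  tr_congr fun i hi => absurd hi (uses_appS i σ w z)

end Pool.Agent.TH672
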