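import Pool.Agent.TH672.DefEq
import Pool.Agent.TH672.Rel

/-!
# The symbols, auxiliary formulas and their meaning
-/

set_option autoImplicit false

namespace Pool.Agent.TH672

open Fm

/-- the additional symbols -/
inductive Sy : Type
  | p | q | im | al | ins | at | tt | dp | cl | vv | cat | vs | lc | mem | ln | tm2 | tm3 | tm4
  | o (j : ℕ)

instance : Countable Sy := by
  have : Function.Injective (fun s : Sy => match s with
    | .p => 0 | .q => 1 | .im => 2 | .al => 3 | .ins => 4 | .at => 5 | .tt => 6 | .dp => 7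
    | .cl => 8 | .vv => 9 | .cat => 10 | .vs => 11 | .lc => 12 | .mem => 13 | .ln => 14
    | .tm2 => 15 | .tm3 => 16 | .tm4 => 17 | .o j => j + 18) := by
    intro a b h
    cases a <;> cases b <;> simp at h ⊢ <;> omega
  exact this.countable

/-- one argument -/
def f1 (s : Sy) (a : ℕ) : Fm Sy := .op s a a a a
/-- two arguments -/
def f2 (s : Sy) (a b : ℕ) : Fm Sy := .op s a b b b
/-- three arguments -/
def f3 (s : Sy) (a b c : ℕ) : Fm Sy := .op s a b c c

/-- one argument -/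
def Str.r1 (S : Str Sy) (s : Sy) (a : S.M) : Prop := S.op s a a a a
/-- two arguments -/
def Str.r2 (S : Str Sy) (s : Sy) (a b : S.M) : Prop := S.op s a b b b
/-- three arguments -/
def Str.r3 (S : Str Sy) (s : Sy) (a b c : S.M) : Prop := S.op s a b c c

@[simp] theorem sat_f1 (S : Str Sy) (s : Sy) (a : ℕ) (v : ℕ → S.M) :
    Sat S (f1 s a) v ↔ S.r1 s (v a) := Iff.rfl
@[simp] theorem sat_f2 (S : Str Sy) (s : Sy) (a b : ℕ) (v : ℕ → S.M) :
    Sat S (f2 s a b) v ↔ S.r2 s (v a) (v b) := Iff.rfl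
@[simp] theorem sat_f3 (S : Str Sy) (s : Sy) (a b c : ℕ) (v : ℕ → S.M) :
    Sat S (f3 s a b c) v ↔ S.r3 s (v a) (v b) (v c) := Iff.rfl

@[simp] theorem free_f1 (s : Sy) (a x : ℕ) : (f1 s a).Free x ↔ x = a := by simp [f1, Fm.Free]
@[simp] theorem free_f2 (s : Sy) (a b x : ℕ) : (f2 s a b).Free x ↔ x = a ∨ x = b := by
  simp [f2, Fm.Free]
@[simp] theorem free_f3 (s : Sy) (a b c x : ℕ) : (f3 s a b c).Free x ↔ x = a ∨ x = b ∨ x = c := by
  simp [f3, Fm.Free]

/-- several universal quantifiers -/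
def alls : List ℕ → Fm Sy → Fm Sy
  | [], φ => φ
  | x :: l, φ => .all x (alls l φ)

/-- several premises -/
def imps : List (Fm Sy) → Fm Sy → Fm Sy
  | [], φ => φ
  | ψ :: l, φ => .imp ψ (imps l φ)

@[simp] theorem sat_alls_nil (S : Str Sy) (φ : Fm Sy) (v : ℕ → S.M) :
    Sat S (alls [] φ) v ↔ Sat S φ v := Iff.rfl
@[simp] theorem sat_alls_cons (S : Str Sy) (x : ℕ) (l : List ℕ) (φ : Fm Sy) (v : ℕ → S.M) :
    Sat S (alls (x :: l) φ) v ↔ ∀ a, Sat S (alls l φ) (upd v x a) := Iff.rfl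
@[simp] theorem sat_imps_nil (S : Str Sy) (φ : Fm Sy) (v : ℕ → S.M) :
    Sat S (imps [] φ) v ↔ Sat S φ v := Iff.rfl
@[simp] theorem sat_imps_cons (S : Str Sy) (ψ : Fm Sy) (l : List (Fm Sy)) (φ : Fm Sy)
    (v : ℕ → S.M) : Sat S (imps (ψ :: l) φ) v ↔ (Sat S ψ v → Sat S (imps l φ) v) := Iff.rfl

theorem free_alls {x : ℕ} {φ : Fm Sy} : ∀ {l : List ℕ}, (alls l φ).Free x ↔ x ∉ l ∧ φ.Free x
  | [] => by simp [alls]
  | y :: l => by simp [alls, Fm.Free, free_alls, and_assoc]

@[simp] theorem free_imps_nil {x : ℕ} {φ : Fm Sy} : (imps [] φ).Free x ↔ φ.Free x := Iff.rfl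
@[simp] theorem free_imps_cons {x : ℕ} {φ ψ : Fm Sy} {l : List (Fm Sy)} :
    (imps (ψ :: l) φ).Free x ↔ ψ.Free x ∨ (imps l φ).Free x := Iff.rfl

theorem av_alls {φ : Fm Sy} : ∀ {l : List ℕ}, Av (alls l φ) ↔ (∀ x ∈ l, ok x) ∧ Av φ
  | [] => by simp [alls]
  | y :: l => by simp [alls, Av, av_alls, and_assoc]

@[simp] theorem av_imps_nil {φ : Fm Sy} : Av (imps [] φ) ↔ Av φ := Iff.rfl
@[simp] theorem av_imps_cons {φ ψ : Fm Sy} {l : List (Fm Sy)} :
    Av (imps (ψ :: l) φ) ↔ Av ψ ∧ Av (imps l φ) := Iff.rfl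

@[simp] theorem av_f1 (s : Sy) (a : ℕ) : Av (f1 s a) ↔ ok a := by simp [f1, Av]
@[simp] theorem av_f2 (s : Sy) (a b : ℕ) : Av (f2 s a b) ↔ ok a ∧ ok b := by simp [f2, Av]
@[simp] theorem av_f3 (s : Sy) (a b c : ℕ) : Av (f3 s a b c) ↔ ok a ∧ ok b ∧ ok c := by
  simp [f3, Av]

section freelemmas
variable {κ : Type} (φ ψ : Fm κ) (x y : ℕ)
@[simp] theorem free_neg' : (Fm.neg φ).Free x ↔ φ.Free x := by simp [Fm.neg, Fm.Free]
@[simp] theorem free_and' : (Fm.and φ ψ).Free x ↔ φ.Free x ∨ ψ.Free x := by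
  simp [Fm.and, Fm.neg, Fm.Free]
@[simp] theorem free_or' : (Fm.or φ ψ).Free x ↔ φ.Free x ∨ ψ.Free x := by
  simp [Fm.or, Fm.neg, Fm.Free]
@[simp] theorem free_iff' : (Fm.iff φ ψ).Free x ↔ φ.Free x ∨ ψ.Free x := by
  simp only [Fm.iff, free_and', Fm.Free]; tauto
@[simp] theorem free_ex' : (Fm.ex y φ).Free x ↔ x ≠ y ∧ φ.Free x := by
  simp [Fm.ex, Fm.neg, Fm.Free]
@[simp] theorem av_neg' : Av (Fm.neg φ) ↔ Av φ := by simp [Fm.neg, Av]
@[simp] theorem av_and' : Av (Fm.and φ ψ) ↔ Av φ ∧ Av ψ := by simp [Fm.and, Fm.neg, Av]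
@[simp] theorem av_or' : Av (Fm.or φ ψ) ↔ Av φ ∧ Av ψ := by simp [Fm.or, Fm.neg, Av]
@[simp] theorem av_iff' : Av (Fm.iff φ ψ) ↔ Av φ ∧ Av ψ := by
  simp only [Fm.iff, av_and', Av]; tauto
@[simp] theorem av_ex' : Av (Fm.ex y φ) ↔ ok y ∧ Av φ := by simp [Fm.ex, Fm.neg, Av]
end freelemmas

/-- `y` is `2 x + 1` or `2 x + 2` (in the structure) -/
def App {κ : Type} (S : Str κ) (b : Bool) (x y : S.M) : Prop :=
  if b then ∃ u w, S.add x x u ∧ S.succ u w ∧ S.succ w y else ∃ u, S.add x x u ∧ S.succ u y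

/-- `c` arises from `a` by appending the digits `σ` -/
def AppL {κ : Type} (S : Str κ) : List Bool → S.M → S.M → Prop
  | [], a, c => a = c
  | b :: σ, a, c => ∃ t, App S b a t ∧ AppL S σ t c

/-- `e` is the number with the digits `σ` -/
def StrV {κ : Type} (S : Str κ) (σ : List Bool) (e : S.M) : Prop := ∃ z, S.zero z ∧ AppL S σ z e

/-- the formula for `App` -/
def apf (b : Bool) (x y : ℕ) : Fm Sy :=
  if b then .ex 90 (.ex 91 (.and (.add x x 90) (.and (.succ 90 91) (.succ 91 y))))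
  else .ex 90 (.and (.add x x 90) (.succ 90 y))

theorem sat_apf (S : Str Sy) (b : Bool) {x y : ℕ} (hx : x < 90) (hy : y < 90) (v : ℕ → S.M) :
    Sat S (apf b x y) v ↔ App S b (v x) (v y) := by
  have h1 : x ≠ 90 := by omega
  have h2 : y ≠ 90 := by omega
  have h3 : x ≠ 91 := by omega
  have h4 : y ≠ 91 := by omega
  cases b <;> simp [apf, App, upd, h1, h2, h3, h4]

theorem free_apf (b : Bool) {x y : ℕ} (hx : x < 90) (hy : y < 90) (z : ℕ) :
    (apf b x y).Free z ↔ z = x ∨ z = y := by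
  cases b <;> simp [apf, Fm.Free] <;> omega

theorem av_apf (b : Bool) (x y : ℕ) : Av (apf b x y) ↔ ok x ∧ ok y := by
  have h1 : ok 90 := by decide
  have h2 : ok 91 := by decide
  cases b <;> simp [apf, Av, h1, h2]

/-- the formula for `AppL` -/
def appS : List Bool → ℕ → ℕ → Fm Sy
  | [], w, z => .eq w z
  | b :: σ, w, z => .ex (if w = 80 then 81 else 80) (.and (apf b w (if w = 80 then 81 else 80))
      (appS σ (if w = 80 then 81 else 80) z))

theorem sat_appS (S : Str Sy) : ∀ (σ : List Bool) {w z : ℕ}, w < 82 → z < 80 → ∀ (v : ℕ → S.M),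
    (Sat S (appS σ w z) v ↔ AppL S σ (v w) (v z))
  | [], w, z, _, _, v => by simp [appS, AppL]
  | b :: σ, w, z, hw, hz, v => by
    have h1 : (if w = 80 then 81 else 80) < 82 := by split_ifs <;> omega
    have h2 : w ≠ (if w = 80 then 81 else 80) := by split_ifs <;> omega
    have h3 : z ≠ (if w = 80 then 81 else 80) := by split_ifs <;> omega
    simp only [appS, AppL, sat_ex, sat_and]
    refine exists_congr fun t => ?_
    rw [sat_apf S b (by omega) (by omega), sat_appS S σ h1 hz, upd_ne _ _ h2, upd_ne _ _ h3,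
      upd_same]

theorem free_appS : ∀ (σ : List Bool) {w z : ℕ}, w < 82 → z < 80 → ∀ x,
    ((appS σ w z).Free x ↔ x = w ∨ x = z)
  | [], w, z, _, _, x => by simp [appS, Fm.Free]
  | b :: σ, w, z, hw, hz, x => by
    have h1 : (if w = 80 then 81 else 80) < 82 := by split_ifs <;> omega
    have h2 : w ≠ (if w = 80 then 81 else 80) := by split_ifs <;> omega
    have h3 : z ≠ (if w = 80 then 81 else 80) := by split_ifs <;> omega
    simp only [appS, free_ex', free_and', free_apf b (show w < 90 by omega)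
      (show (if w = 80 then 81 else 80) < 90 by omega), free_appS σ h1 hz]
    constructor
    · rintro ⟨h, (rfl | h') | h' | rfl⟩
      · exact Or.inl rfl
      · exact absurd h' h
      · exact absurd h' h
      · exact Or.inr rfl
    · rintro (rfl | rfl)
      · exact ⟨h2, Or.inl (Or.inl rfl)⟩
      · exact ⟨h3, Or.inr (Or.inr rfl)⟩

theorem av_appS : ∀ (σ : List Bool) {w z : ℕ}, ok w → ok z → Av (appS σ w z)
  | [], w, z, hw, hz => ⟨hw, hz⟩
  | b :: σ, w, z, hw, hz => by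
    have h1 : ok (if w = 80 then 81 else 80) := by split_ifs <;> decide
    simp only [appS, av_ex', av_and', av_apf]
    exact ⟨h1, ⟨hw, h1⟩, av_appS σ h1 hz⟩

/-- the formula for `StrV` -/
def isS (σ : List Bool) (z : ℕ) : Fm Sy := .ex 79 (.and (.zero 79) (appS σ 79 z))

theorem sat_isS (S : Str Sy) (σ : List Bool) {z : ℕ} (hz : z < 79) (v : ℕ → S.M) :
    Sat S (isS σ z) v ↔ StrV S σ (v z) := by
  simp only [isS, sat_ex, sat_and, sat_zero, StrV]
  refine exists_congr fun t => ?_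
  rw [sat_appS S σ (by omega) (by omega), upd_same, upd_ne _ _ (by omega)]

theorem free_isS (σ : List Bool) {z : ℕ} (hz : z < 79) (x : ℕ) : (isS σ z).Free x ↔ x = z := by
  simp only [isS, free_ex', free_and', Fm.Free, free_appS σ (show 79 < 82 by omega)
    (show z < 80 by omega)]
  constructor
  · rintro ⟨h, h' | h' | h'⟩
    · exact absurd h' h
    · exact absurd h' h
    · exact h'
  · rintro rfl
    exact ⟨by omega, Or.inr (Or.inr rfl)⟩

theorem av_isS (σ : List Bool) {z : ℕ} (hz : ok z) : Av (isS σ z) := by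
  simp only [isS, av_ex', av_and', Av]
  exact ⟨by decide, by decide, av_appS σ (by decide) hz⟩

/-! ### Embedding of the official formulas -/

/-- the embedding -/
def emb {κ : Type} : Form → Fm κ
  | .bot => .bot
  | .eq x y => .eq x y
  | .zero x => .zero x
  | .succ x y => .succ x y
  | .add x y z => .add x y z
  | .mul x y z => .mul x y z
  | .imp φ ψ => .imp (emb φ) (emb ψ)
  | .all x φ => .all x (emb φ)

theorem tr_emb {κ : Type} (ι : κ → Form) : ∀ φ : Form, tr ι (emb φ) = φ := by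
  intro φ
  induction φ <;> simp_all [emb, tr]

theorem free_emb {κ : Type} {x : ℕ} : ∀ {φ : Form}, (emb φ : Fm κ).Free x ↔ φ.Free x := by
  intro φ
  induction φ <;> simp_all [emb, Fm.Free, Form.Free]

/-- the standard renaming: `5`, `6`, `7`, `8` are avoided -/
def rf (x : ℕ) : ℕ := if x < 5 then x else x + 4

theorem rf_inj : Function.Injective rf := by
  intro x y e
  simp only [rf] at e
  split_ifs at e <;> omega

theorem rf_ok (x : ℕ) : ok (rf x) := by
  simp only [rf, ok]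
  split_ifs <;> omega

/-- the embedding, bound variables are renamed -/
def emb' (φ : Form) : Fm Sy := rn rf (emb φ)

theorem av_emb' (φ : Form) : Av (emb' φ) := rn_av rf_ok _

theorem sat_emb' (S : Str Sy) (φ : Form) (v : ℕ → S.M) :
    Sat S (emb' φ) v ↔ Sat S (emb φ) (v ∘ rf) := sat_rn rf_inj

end Pool.Agent.TH672
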