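import Pool.Agent.TH672.Sy

/-!
# The list of true sentences about the additional symbols
-/

set_option autoImplicit false

namespace Pool.Agent.TH672

open Fm

/-- several existential quantifiers -/
def exs : List ℕ → Fm Sy → Fm Sy
  | [], φ => φ
  | x :: l, φ => .ex x (exs l φ)

/-- conjunctions -/
def ands : List (Fm Sy) → Fm Sy → Fm Sy
  | [], φ => φ
  | ψ :: l, φ => .and ψ (ands l φ)

@[simp] theorem sat_exs_nil (S : Str Sy) (φ : Fm Sy) (v : ℕ → S.M) :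
    Sat S (exs [] φ) v ↔ Sat S φ v := Iff.rfl
@[simp] theorem sat_exs_cons (S : Str Sy) (x : ℕ) (l : List ℕ) (φ : Fm Sy) (v : ℕ → S.M) :
    Sat S (exs (x :: l) φ) v ↔ ∃ a, Sat S (exs l φ) (upd v x a) := by simp [exs]
@[simp] theorem sat_ands_nil (S : Str Sy) (φ : Fm Sy) (v : ℕ → S.M) :
    Sat S (ands [] φ) v ↔ Sat S φ v := Iff.rfl
@[simp] theorem sat_ands_cons (S : Str Sy) (ψ : Fm Sy) (l : List (Fm Sy)) (φ : Fm Sy)
    (v : ℕ → S.M) : Sat S (ands (ψ :: l) φ) v ↔ (Sat S ψ v ∧ Sat S (ands l φ) v) := by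
  simp [ands]

theorem free_exs {x : ℕ} {φ : Fm Sy} : ∀ {l : List ℕ}, (exs l φ).Free x ↔ x ∉ l ∧ φ.Free x
  | [] => by simp [exs]
  | y :: l => by simp [exs, free_exs, and_assoc]

@[simp] theorem free_ands_nil {x : ℕ} {φ : Fm Sy} : (ands [] φ).Free x ↔ φ.Free x := Iff.rfl
@[simp] theorem free_ands_cons {x : ℕ} {φ ψ : Fm Sy} {l : List (Fm Sy)} :
    (ands (ψ :: l) φ).Free x ↔ ψ.Free x ∨ (ands l φ).Free x := by simp [ands]

theorem av_exs {φ : Fm Sy} : ∀ {l : List ℕ}, Av (exs l φ) ↔ (∀ x ∈ l, ok x) ∧ Av φ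
  | [] => by simp [exs]
  | y :: l => by simp [exs, av_exs, and_assoc]

@[simp] theorem av_ands_nil {φ : Fm Sy} : Av (ands [] φ) ↔ Av φ := Iff.rfl
@[simp] theorem av_ands_cons {φ ψ : Fm Sy} {l : List (Fm Sy)} :
    Av (ands (ψ :: l) φ) ↔ Av ψ ∧ Av (ands l φ) := by simp [ands]

variable (S : Str Sy) (v : ℕ → S.M)

/-! ### Concatenation and strings of variables -/

def tC1 : Fm Sy := alls [20, 21] (imps [.zero 21] (f3 .cat 20 21 20))
theorem sC1 : Sat S tC1 v ↔ ∀ x y, S.zero y → S.r3 .cat x y x := by simp [tC1, upd]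

def tC2 (b : Bool) : Fm Sy := alls [20, 21, 22, 23, 24]
  (imps [f3 .cat 20 21 22, apf b 21 23, apf b 22 24] (f3 .cat 20 23 24))
theorem sC2 (b : Bool) : Sat S (tC2 b) v ↔ ∀ x y w y' w', S.r3 .cat x y w → App S b y y' →
    App S b w w' → S.r3 .cat x y' w' := by simp [tC2, upd, sat_apf]

def tV1 : Fm Sy := alls [20, 21] (imps [.zero 20, isS [false] 21] (f2 .vs 20 21))
theorem sV1 : Sat S tV1 v ↔ ∀ x u, S.zero x → StrV S [false] u → S.r2 .vs x u := by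
  simp [tV1, upd, sat_isS]

def tV2 : Fm Sy := alls [20, 21, 22, 23, 24]
  (imps [f2 .vs 20 21, .succ 20 22, isS [true] 23, f3 .cat 23 21 24] (f2 .vs 22 24))
theorem sV2 : Sat S tV2 v ↔ ∀ x u x' c u', S.r2 .vs x u → S.succ x x' → StrV S [true] c →
    S.r3 .cat c u u' → S.r2 .vs x' u' := by simp [tV2, upd, sat_isS]

/-! ### Strings of formulas -/

def tF0 : Fm Sy := alls [20] (imps [isS [false, false, false] 20] (f2 .mem 20 20))
theorem sF0 : Sat S tF0 v ↔ ∀ y, StrV S [false, false, false] y → S.r2 .mem y y := by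
  simp [tF0, upd, sat_isS]

/-- premises: `y` (variable 20) is the string with the tag `t` and the variables with the numbers
21, ... -/
def pre1 (t : List Bool) : List (Fm Sy) := [isS t 30, f2 .vs 21 31, f3 .cat 30 31 20]
def pre2 (t : List Bool) : List (Fm Sy) :=
  [isS t 30, f2 .vs 21 31, f2 .vs 22 32, f3 .cat 30 31 33, f3 .cat 33 32 20]
def pre3 (t : List Bool) : List (Fm Sy) :=
  [isS t 30, f2 .vs 21 31, f2 .vs 22 32, f2 .vs 23 34, f3 .cat 30 31 33, f3 .cat 33 32 35,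
    f3 .cat 35 34 20]

/-- `y` is the string with the tag `t` and the variable `x` -/
def P1 (t : List Bool) (y x : S.M) : Prop := ∃ c u, StrV S t c ∧ S.r2 .vs x u ∧ S.r3 .cat c u y
def P2 (t : List Bool) (y x x' : S.M) : Prop :=
  ∃ c u u' w, StrV S t c ∧ S.r2 .vs x u ∧ S.r2 .vs x' u' ∧ S.r3 .cat c u w ∧ S.r3 .cat w u' y
def P3 (t : List Bool) (y x x' x'' : S.M) : Prop :=
  ∃ c u u' w u'' w', StrV S t c ∧ S.r2 .vs x u ∧ S.r2 .vs x' u' ∧ S.r2 .vs x'' u'' ∧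
    S.r3 .cat c u w ∧ S.r3 .cat w u' w' ∧ S.r3 .cat w' u'' y
/-- `y` is the string of the implication of the formulas with the strings `y1`, `y2` -/
def PI (y y1 y2 : S.M) : Prop := ∃ c w, StrV S [true, true, false] c ∧ S.r2 .mem y1 y1 ∧
  S.r2 .mem y2 y2 ∧ S.r3 .cat c y1 w ∧ S.r3 .cat w y2 y
/-- `y` is the string of the generalization with the variable `x` of the formula with the
string `y1` -/
def PA (y x y1 : S.M) : Prop := ∃ c u w, StrV S [true, true, true] c ∧ S.r2 .vs x u ∧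
  S.r2 .mem y1 y1 ∧ S.r3 .cat c u w ∧ S.r3 .cat w y1 y

def tF1 (t : List Bool) : Fm Sy := alls [20, 21, 30, 31] (imps (pre1 t) (f2 .mem 20 20))
theorem sF1 (t : List Bool) : Sat S (tF1 t) v ↔ ∀ y x, P1 S t y x → S.r2 .mem y y := by
  simp [tF1, upd, sat_isS, pre1]
  constructor
  · rintro h y x ⟨c, u, h1, h2, h3⟩
    exact h y x c u h1 h2 h3
  · intro h y x c u h1 h2 h3
    exact h y x ⟨c, u, h1, h2, h3⟩

def tF2 (t : List Bool) : Fm Sy := alls [20, 21, 22, 30, 31, 32, 33] (imps (pre2 t) (f2 .mem 20 20))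
theorem sF2 (t : List Bool) : Sat S (tF2 t) v ↔ ∀ y x x', P2 S t y x x' → S.r2 .mem y y := by
  simp [tF2, upd, sat_isS, pre2]
  constructor
  · rintro h y x x' ⟨c, u, u', w, h1, h2, h3, h4, h5⟩
    exact h y x x' c u u' w h1 h2 h3 h4 h5
  · intro h y x x' c u u' w h1 h2 h3 h4 h5
    exact h y x x' ⟨c, u, u', w, h1, h2, h3, h4, h5⟩

def tF3 (t : List Bool) : Fm Sy :=
  alls [20, 21, 22, 23, 30, 31, 32, 33, 34, 35] (imps (pre3 t) (f2 .mem 20 20))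
theorem sF3 (t : List Bool) : Sat S (tF3 t) v ↔ ∀ y x x' x'', P3 S t y x x' x'' →
    S.r2 .mem y y := by
  simp [tF3, upd, sat_isS, pre3]
  constructor
  · rintro h y x x' x'' ⟨c, u, u', w, u'', w', h1, h2, h3, h4, h5, h6, h7⟩
    exact h y x x' x'' c u u' w u'' w' h1 h2 h3 h4 h5 h6 h7
  · intro h y x x' x'' c u u' w u'' w' h1 h2 h3 h4 h5 h6 h7
    exact h y x x' x'' ⟨c, u, u', w, u'', w', h1, h2, h3, h4, h5, h6, h7⟩

def preI : List (Fm Sy) := [isS [true, true, false] 30, f2 .mem 21 21, f2 .mem 22 22,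
  f3 .cat 30 21 31, f3 .cat 31 22 20]
def preA : List (Fm Sy) := [isS [true, true, true] 30, f2 .vs 21 31, f2 .mem 22 22,
  f3 .cat 30 31 32, f3 .cat 32 22 20]

def tF6 : Fm Sy := alls [20, 21, 22, 30, 31] (imps preI (f2 .mem 20 20))
theorem sF6 : Sat S tF6 v ↔ ∀ y y1 y2, PI S y y1 y2 → S.r2 .mem y y := by
  simp [tF6, upd, sat_isS, preI]
  constructor
  · rintro h y y1 y2 ⟨c, w, h1, h2, h3, h4, h5⟩
    exact h y y1 y2 c w h1 h2 h3 h4 h5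
  · intro h y y1 y2 c w h1 h2 h3 h4 h5
    exact h y y1 y2 ⟨c, w, h1, h2, h3, h4, h5⟩

def tF7 : Fm Sy := alls [20, 21, 22, 30, 31, 32] (imps preA (f2 .mem 20 20))
theorem sF7 : Sat S tF7 v ↔ ∀ y x y1, PA S y x y1 → S.r2 .mem y y := by
  simp [tF7, upd, sat_isS, preA]
  constructor
  · rintro h y x y1 ⟨c, u, w, h1, h2, h3, h4, h5⟩
    exact h y x y1 c u w h1 h2 h3 h4 h5
  · intro h y x y1 c u w h1 h2 h3 h4 h5
    exact h y x y1 ⟨c, u, w, h1, h2, h3, h4, h5⟩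

/-! ### Lists -/

def tL1 : Fm Sy := alls [20] (imps [.zero 20] (f1 .lc 20))
theorem sL1 : Sat S tL1 v ↔ ∀ x, S.zero x → S.r1 .lc x := by simp [tL1, upd]

def tL2 : Fm Sy := alls [20, 21] (imps [.zero 20] (.neg (f2 .mem 21 20)))
theorem sL2 : Sat S tL2 v ↔ ∀ x y, S.zero x → ¬ S.r2 .mem y x := by simp [tL2, upd]

def tL3 : Fm Sy := alls [20, 21, 22] (imps [f1 .lc 20, f2 .mem 21 21, f3 .cat 20 21 22] (f1 .lc 22))
theorem sL3 : Sat S tL3 v ↔ ∀ x y w, S.r1 .lc x → S.r2 .mem y y → S.r3 .cat x y w →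
    S.r1 .lc w := by simp [tL3, upd]

def tL4 : Fm Sy := alls [20, 21, 22, 23] (imps [f1 .lc 20, f2 .mem 21 21, f3 .cat 20 21 22,
  f2 .mem 23 22] (.or (f2 .mem 23 20) (.eq 23 21)))
theorem sL4 : Sat S tL4 v ↔ ∀ x y w u, S.r1 .lc x → S.r2 .mem y y → S.r3 .cat x y w →
    S.r2 .mem u w → S.r2 .mem u x ∨ u = y := by simp [tL4, upd]

/-! ### Closed instances -/

def tK0 : Fm Sy := alls [20, 25, 26] (imps [isS [false, false, false] 20, f3 .cl 20 25 26]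
  (.and (f1 .at 26) (.neg (f1 .tt 26))))
theorem sK0 : Sat S tK0 v ↔ ∀ y s F, StrV S [false, false, false] y → S.r3 .cl y s F →
    S.r1 .at F ∧ ¬ S.r1 .tt F := by simp [tK0, upd, sat_isS]

def tK0' : Fm Sy := alls [20] (imps [isS [false, false, false] 20] (exs [25, 26] (f3 .cl 20 25 26)))
theorem sK0' : Sat S tK0' v ↔ ∀ y, StrV S [false, false, false] y → ∃ s F, S.r3 .cl y s F := by
  simp [tK0', upd, sat_isS]

def tK1 : Fm Sy := alls [20, 21, 22, 25, 26, 27, 28, 30, 31, 32, 33]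
  (imps (pre2 [false, false, true] ++ [f3 .cl 20 25 26, f3 .vv 25 21 27, f3 .vv 25 22 28])
    (.and (f1 .at 26) (.iff (f1 .tt 26) (.eq 27 28))))
theorem sK1 : Sat S tK1 v ↔ ∀ y x x' s F a b, P2 S [false, false, true] y x x' →
    S.r3 .cl y s F → S.r3 .vv s x a → S.r3 .vv s x' b → S.r1 .at F ∧ (S.r1 .tt F ↔ a = b) := by
  simp [tK1, upd, sat_isS, pre2]
  constructor
  · rintro h y x x' s F a b ⟨c, u, u', w, h1, h2, h3, h4, h5⟩ h6 h7 h8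
    exact h y x x' s F a b c u u' w h1 h2 h3 h4 h5 h6 h7 h8
  · intro h y x x' s F a b c u u' w h1 h2 h3 h4 h5 h6 h7 h8
    exact h y x x' s F a b ⟨c, u, u', w, h1, h2, h3, h4, h5⟩ h6 h7 h8

def tK2 : Fm Sy := alls [20, 21, 25, 26, 27, 30, 31]
  (imps (pre1 [false, true, false] ++ [f3 .cl 20 25 26, f3 .vv 25 21 27])
    (.and (f1 .at 26) (.iff (f1 .tt 26) (.zero 27))))
theorem sK2 : Sat S tK2 v ↔ ∀ y x s F a, P1 S [false, true, false] y x →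
    S.r3 .cl y s F → S.r3 .vv s x a → S.r1 .at F ∧ (S.r1 .tt F ↔ S.zero a) := by
  simp [tK2, upd, sat_isS, pre1]
  constructor
  · rintro h y x s F a ⟨c, u, h1, h2, h3⟩ h6 h7
    exact h y x s F a c u h1 h2 h3 h6 h7
  · intro h y x s F a c u h1 h2 h3 h6 h7
    exact h y x s F a ⟨c, u, h1, h2, h3⟩ h6 h7

def tK3 : Fm Sy := alls [20, 21, 22, 25, 26, 27, 28, 30, 31, 32, 33]
  (imps (pre2 [false, true, true] ++ [f3 .cl 20 25 26, f3 .vv 25 21 27, f3 .vv 25 22 28])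
    (.and (f1 .at 26) (.iff (f1 .tt 26) (.succ 27 28))))
theorem sK3 : Sat S tK3 v ↔ ∀ y x x' s F a b, P2 S [false, true, true] y x x' →
    S.r3 .cl y s F → S.r3 .vv s x a → S.r3 .vv s x' b → S.r1 .at F ∧ (S.r1 .tt F ↔ S.succ a b) := by
  simp [tK3, upd, sat_isS, pre2]
  constructor
  · rintro h y x x' s F a b ⟨c, u, u', w, h1, h2, h3, h4, h5⟩ h6 h7 h8
    exact h y x x' s F a b c u u' w h1 h2 h3 h4 h5 h6 h7 h8
  · intro h y x x' s F a b c u u' w h1 h2 h3 h4 h5 h6 h7 h8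
    exact h y x x' s F a b ⟨c, u, u', w, h1, h2, h3, h4, h5⟩ h6 h7 h8

def tK4 : Fm Sy := alls [20, 21, 22, 23, 25, 26, 27, 28, 29, 30, 31, 32, 33, 34, 35]
  (imps (pre3 [true, false, false] ++ [f3 .cl 20 25 26, f3 .vv 25 21 27, f3 .vv 25 22 28,
    f3 .vv 25 23 29]) (.and (f1 .at 26) (.iff (f1 .tt 26) (.add 27 28 29))))
theorem sK4 : Sat S tK4 v ↔ ∀ y x x' x'' s F a b c, P3 S [true, false, false] y x x' x'' →
    S.r3 .cl y s F → S.r3 .vv s x a → S.r3 .vv s x' b → S.r3 .vv s x'' c →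
    S.r1 .at F ∧ (S.r1 .tt F ↔ S.add a b c) := by
  simp [tK4, upd, sat_isS, pre3]
  constructor
  · rintro h y x x' x'' s F a b c ⟨d, u, u', w, u'', w', h1, h2, h3, h4, h5, h6, h7⟩ h8 h9 h10 h11
    exact h y x x' x'' s F a b c d u u' w u'' w' h1 h2 h3 h4 h5 h6 h7 h8 h9 h10 h11
  · intro h y x x' x'' s F a b c d u u' w u'' w' h1 h2 h3 h4 h5 h6 h7 h8 h9 h10 h11
    exact h y x x' x'' s F a b c ⟨d, u, u', w, u'', w', h1, h2, h3, h4, h5, h6, h7⟩ h8 h9 h10 h11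

def tK5 : Fm Sy := alls [20, 21, 22, 23, 25, 26, 27, 28, 29, 30, 31, 32, 33, 34, 35]
  (imps (pre3 [true, false, true] ++ [f3 .cl 20 25 26, f3 .vv 25 21 27, f3 .vv 25 22 28,
    f3 .vv 25 23 29]) (.and (f1 .at 26) (.iff (f1 .tt 26) (.mul 27 28 29))))
theorem sK5 : Sat S tK5 v ↔ ∀ y x x' x'' s F a b c, P3 S [true, false, true] y x x' x'' →
    S.r3 .cl y s F → S.r3 .vv s x a → S.r3 .vv s x' b → S.r3 .vv s x'' c →
    S.r1 .at F ∧ (S.r1 .tt F ↔ S.mul a b c) := by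
  simp [tK5, upd, sat_isS, pre3]
  constructor
  · rintro h y x x' x'' s F a b c ⟨d, u, u', w, u'', w', h1, h2, h3, h4, h5, h6, h7⟩ h8 h9 h10 h11
    exact h y x x' x'' s F a b c d u u' w u'' w' h1 h2 h3 h4 h5 h6 h7 h8 h9 h10 h11
  · intro h y x x' x'' s F a b c d u u' w u'' w' h1 h2 h3 h4 h5 h6 h7 h8 h9 h10 h11
    exact h y x x' x'' s F a b c ⟨d, u, u', w, u'', w', h1, h2, h3, h4, h5, h6, h7⟩ h8 h9 h10 h11

def tK6 : Fm Sy := alls [20, 21, 22, 25, 26, 30, 31] (imps (preI ++ [f3 .cl 20 25 26])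
  (exs [40, 41] (ands [f3 .cl 21 25 40, f3 .cl 22 25 41] (f3 .im 40 41 26))))
theorem sK6 : Sat S tK6 v ↔ ∀ y y1 y2 s F, PI S y y1 y2 → S.r3 .cl y s F →
    ∃ G H, S.r3 .cl y1 s G ∧ S.r3 .cl y2 s H ∧ S.r3 .im G H F := by
  simp [tK6, upd, sat_isS, preI]
  constructor
  · rintro h y y1 y2 s F ⟨c, w, h1, h2, h3, h4, h5⟩ h6
    exact h y y1 y2 s F c w h1 h2 h3 h4 h5 h6
  · intro h y y1 y2 s F c w h1 h2 h3 h4 h5 h6
    exact h y y1 y2 s F ⟨c, w, h1, h2, h3, h4, h5⟩ h6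

def tK7 : Fm Sy := alls [20, 21, 22, 25, 26, 30, 31, 32] (imps (preA ++ [f3 .cl 20 25 26])
  (exs [40] (.and (f2 .al 40 26) (alls [41, 42] (imps [f3 .ins 40 41 42]
    (exs [43] (ands [f3 .vv 43 21 41, alls [44, 45] (imps [.neg (.eq 44 21), f3 .vv 25 44 45]
      (f3 .vv 43 44 45))] (f3 .cl 22 43 42))))))))
theorem sK7 : Sat S tK7 v ↔ ∀ y x y1 s F, PA S y x y1 → S.r3 .cl y s F →
    ∃ G, S.r2 .al G F ∧ ∀ a H, S.r3 .ins G a H → ∃ s', S.r3 .vv s' x a ∧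
      (∀ x' b, x' ≠ x → S.r3 .vv s x' b → S.r3 .vv s' x' b) ∧ S.r3 .cl y1 s' H := by
  simp [tK7, upd, sat_isS, preA]
  constructor
  · rintro h y x y1 s F ⟨c, u, w, h1, h2, h3, h4, h5⟩ h6
    exact h y x y1 s F c u w h1 h2 h3 h4 h5 h6
  · intro h y x y1 s F c u w h1 h2 h3 h4 h5 h6
    exact h y x y1 s F ⟨c, u, w, h1, h2, h3, h4, h5⟩ h6

/-! ### Shapes and depths -/

def tD0 : Fm Sy := alls [20, 21] (imps [.zero 20] (.neg (f2 .dp 21 20)))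
theorem sD0 : Sat S tD0 v ↔ ∀ k F, S.zero k → ¬ S.r2 .dp F k := by simp [tD0, upd]

def tD1 : Fm Sy := alls [20, 21] (imps [f2 .dp 21 20] (.or (f1 .at 21)
  (.or (exs [22, 23] (f3 .im 22 23 21)) (exs [22] (f2 .al 22 21)))))
theorem sD1 : Sat S tD1 v ↔ ∀ k F, S.r2 .dp F k → S.r1 .at F ∨ (∃ G H, S.r3 .im G H F) ∨
    ∃ G, S.r2 .al G F := by simp [tD1, upd]

def tD2 : Fm Sy := alls [20, 21, 22, 23] (ands [imps [f1 .at 20] (.neg (f3 .im 21 22 20)),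
  imps [f1 .at 20] (.neg (f2 .al 21 20))] (imps [f3 .im 21 22 20] (.neg (f2 .al 23 20))))
theorem sD2 : Sat S tD2 v ↔ ∀ F G H K, (S.r1 .at F → ¬ S.r3 .im G H F) ∧
    (S.r1 .at F → ¬ S.r2 .al G F) ∧ (S.r3 .im G H F → ¬ S.r2 .al K F) := by simp [tD2, upd]

def tD3 : Fm Sy := alls [20, 21, 22, 23, 24] (.and (imps [f3 .im 21 22 20, f3 .im 23 24 20]
  (.and (.eq 21 23) (.eq 22 24))) (imps [f2 .al 21 20, f2 .al 23 20] (.eq 21 23)))
theorem sD3 : Sat S tD3 v ↔ ∀ F G H G' H', (S.r3 .im G H F → S.r3 .im G' H' F → G = G' ∧ H = H') ∧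
    (S.r2 .al G F → S.r2 .al G' F → G = G') := by simp [tD3, upd]

def tD4 : Fm Sy := alls [20, 21, 22, 23, 24] (imps [.succ 20 21, f2 .dp 22 21, f3 .im 23 24 22]
  (.and (f2 .dp 23 20) (f2 .dp 24 20)))
theorem sD4 : Sat S tD4 v ↔ ∀ k k' F G H, S.succ k k' → S.r2 .dp F k' → S.r3 .im G H F →
    S.r2 .dp G k ∧ S.r2 .dp H k := by simp [tD4, upd]

def tD5 : Fm Sy := alls [20, 21, 22, 23, 24, 25] (imps [.succ 20 21, f2 .dp 22 21, f2 .al 23 22,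
  f3 .ins 23 24 25] (f2 .dp 25 20))
theorem sD5 : Sat S tD5 v ↔ ∀ k k' F G a H, S.succ k k' → S.r2 .dp F k' → S.r2 .al G F →
    S.r3 .ins G a H → S.r2 .dp H k := by simp [tD5, upd]

def tD6 : Fm Sy := alls [20, 21, 22] (imps [.succ 20 21, f2 .dp 22 20] (f2 .dp 22 21))
theorem sD6 : Sat S tD6 v ↔ ∀ k k' F, S.succ k k' → S.r2 .dp F k → S.r2 .dp F k' := by
  simp [tD6, upd]

def tD7 : Fm Sy := alls [20, 21, 22] (imps [f2 .al 21 20] (exs [23] (f3 .ins 21 22 23)))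
theorem sD7 : Sat S tD7 v ↔ ∀ F G a, S.r2 .al G F → ∃ H, S.r3 .ins G a H := by simp [tD7, upd]

def tD8 : Fm Sy := alls [20, 21, 22, 23] (imps [f3 .ins 20 21 22, f3 .ins 20 21 23] (.eq 22 23))
theorem sD8 : Sat S tD8 v ↔ ∀ G a H H', S.r3 .ins G a H → S.r3 .ins G a H' → H = H' := by
  simp [tD8, upd]

/-! ### Provability -/

def tQ0 : Fm Sy := alls [20, 21, 22, 23] (imps [.zero 21] (.neg (.op .q 20 21 22 23)))
theorem sQ0 : Sat S tQ0 v ↔ ∀ z l Q y, S.zero l → ¬ S.op .q z l Q y := by simp [tQ0, upd]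

/-- `F` has the form `G → (H → G)` -/
def cK (F : S.M) : Prop := ∃ G H K, S.r3 .im H G K ∧ S.r3 .im G K F
def cS (F : S.M) : Prop := ∃ G H K HK A GH GK B, S.r3 .im H K HK ∧ S.r3 .im G HK A ∧
  S.r3 .im G H GH ∧ S.r3 .im G K GK ∧ S.r3 .im GH GK B ∧ S.r3 .im A B F
def cN (F : S.M) : Prop := ∃ G B N M, S.r1 .at B ∧ ¬ S.r1 .tt B ∧ S.r3 .im G B N ∧
  S.r3 .im N B M ∧ S.r3 .im M G F
def cI (F : S.M) : Prop := ∃ G A a H, S.r2 .al G A ∧ S.r3 .ins G a H ∧ S.r3 .im A H F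
def cD (F : S.M) : Prop := ∃ G H I A B K C, S.r3 .im G H I ∧ S.r2 .al I A ∧ S.r2 .al H B ∧
  S.r3 .im K B C ∧ S.r3 .im A C F ∧ ∀ a I', S.r3 .ins I a I' → ∃ H', S.r3 .ins H a H' ∧
    S.r3 .im K H' I'
def cR (F : S.M) : Prop := ∃ E G H I, S.r1 .at E ∧ (S.r1 .tt E → G = H) ∧ S.r3 .im G H I ∧
  S.r3 .im E I F

def fK : Fm Sy := exs [30, 31, 32] (ands [f3 .im 31 30 32] (f3 .im 30 32 26))
def fS : Fm Sy := exs [30, 31, 32, 33, 34, 35, 36, 37] (ands [f3 .im 31 32 33, f3 .im 30 33 34,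
  f3 .im 30 31 35, f3 .im 30 32 36, f3 .im 35 36 37] (f3 .im 34 37 26))
def fN : Fm Sy := exs [30, 31, 32, 33] (ands [f1 .at 31, .neg (f1 .tt 31), f3 .im 30 31 32,
  f3 .im 32 31 33] (f3 .im 33 30 26))
def fI : Fm Sy := exs [30, 31, 32, 33] (ands [f2 .al 30 31, f3 .ins 30 32 33] (f3 .im 31 33 26))
def fD : Fm Sy := exs [30, 31, 32, 33, 34, 35, 36] (ands [f3 .im 30 31 32, f2 .al 32 33,
  f2 .al 31 34, f3 .im 35 34 36, f3 .im 33 36 26] (alls [37, 38] (imps [f3 .ins 32 37 38]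
    (exs [39] (.and (f3 .ins 31 37 39) (f3 .im 35 39 38))))))
def fR : Fm Sy := exs [30, 31, 32, 33] (ands [f1 .at 30, .imp (f1 .tt 30) (.eq 31 32),
  f3 .im 31 32 33] (f3 .im 30 33 26))
def fMP : Fm Sy := exs [30, 31, 32, 33] (ands [.op .q 20 21 23 30, .op .q 20 21 23 31,
  f3 .cl 30 25 32, f3 .cl 31 25 33] (f3 .im 32 26 33))
def fG : Fm Sy := exs [30, 31] (ands [.op .q 20 21 23 30, f2 .al 31 26] (alls [32, 33]
  (imps [f3 .ins 31 32 33] (exs [34] (f3 .cl 30 34 33)))))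

def tQ1 : Fm Sy := alls [20, 21, 22, 23, 24, 25, 26] (imps [.succ 21 22, .op .q 20 22 23 24,
  f3 .cl 24 25 26] (.or (f2 .mem 24 20) (.or fK (.or fS (.or fN (.or fI (.or fD
    (.or (.and (f1 .at 26) (f1 .tt 26)) (.or fR (.or fMP fG))))))))))
theorem sQ1 : Sat S tQ1 v ↔ ∀ z l l' Q y s F, S.succ l l' → S.op .q z l' Q y →
    S.r3 .cl y s F → S.r2 .mem y z ∨ cK S F ∨ cS S F ∨ cN S F ∨ cI S F ∨ cD S F ∨
      (S.r1 .at F ∧ S.r1 .tt F) ∨ cR S F ∨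
      (∃ u w G H, S.op .q z l Q u ∧ S.op .q z l Q w ∧ S.r3 .cl u s G ∧ S.r3 .cl w s H ∧
        S.r3 .im G F H) ∨
      (∃ u G, S.op .q z l Q u ∧ S.r2 .al G F ∧ ∀ a H, S.r3 .ins G a H → ∃ s', S.r3 .cl u s' H) := by
  simp [tQ1, upd, fK, fS, fN, fI, fD, fR, fMP, fG, cK, cS, cN, cI, cD, cR]

def tQ2 : Fm Sy := alls [20, 21, 23, 24, 25, 26] (imps [.op .q 20 21 23 24, f3 .cl 24 25 26]
  (f2 .dp 26 23))
theorem sQ2 : Sat S tQ2 v ↔ ∀ z l Q y s F, S.op .q z l Q y → S.r3 .cl y s F →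
    S.r2 .dp F Q := by simp [tQ2, upd]

def tQ3 : Fm Sy := alls [20, 21, 22] (imps [f3 .p 20 21 22] (.op .q 20 21 21 22))
theorem sQ3 : Sat S tQ3 v ↔ ∀ z Q y, S.r3 .p z Q y → S.op .q z Q Q y := by simp [tQ3, upd]

def tQ4 : Fm Sy := alls [20, 21, 22, 23] (imps [f3 .p 20 21 22, .succ 21 23] (f3 .p 20 23 22))
theorem sQ4 : Sat S tQ4 v ↔ ∀ z m y m', S.r3 .p z m y → S.succ m m' → S.r3 .p z m' y := by
  simp [tQ4, upd]

/-! ### Strings of the instances -/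

def tT1 (s : Sy) (x : ℕ) : Fm Sy := alls [20, 21, 22] (imps [.zero 21, appS (hd x) 20 22]
  (f3 s 20 21 22))
theorem sT1 (s : Sy) (x : ℕ) : Sat S (tT1 s x) v ↔ ∀ w n w', S.zero n → AppL S (hd x) w w' →
    S.r3 s w n w' := by simp [tT1, upd, sat_appS]

def tT2 (s : Sy) (x : ℕ) (b : Bool) : Fm Sy := alls [20, 21, 22, 23, 24]
  (imps [f3 s 20 21 22, apf b 21 23, appS (tmpl x b) 22 24] (f3 s 20 23 24))
theorem sT2 (s : Sy) (x : ℕ) (b : Bool) : Sat S (tT2 s x b) v ↔ ∀ w n w1 n' w2,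
    S.r3 s w n w1 → App S b n n' → AppL S (tmpl x b) w1 w2 → S.r3 s w n' w2 := by
  simp [tT2, upd, sat_appS, sat_apf]

def tN1 : Fm Sy := alls [20, 21] (imps [.zero 20, .zero 21] (f2 .ln 20 21))
theorem sN1 : Sat S tN1 v ↔ ∀ u l, S.zero u → S.zero l → S.r2 .ln u l := by simp [tN1, upd]

def tN2 (b : Bool) : Fm Sy := alls [20, 21, 22, 23] (imps [f2 .ln 20 21, apf b 20 22, .succ 21 23]
  (f2 .ln 22 23))
theorem sN2 (b : Bool) : Sat S (tN2 b) v ↔ ∀ u l u' l', S.r2 .ln u l → App S b u u' →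
    S.succ l l' → S.r2 .ln u' l' := by simp [tN2, upd, sat_apf]

/-- the reduction axiom -/
def tR2 (σ : List Bool) : Fm Sy :=
  alls [20, 21, 22, 23, 24, 25, 26, 27, 28, 29, 30, 31, 32, 33]
  (imps [f1 .lc 20, f3 .tm3 20 21 22, f3 .tm2 22 20 23, isS [false, false, false] 24,
    f3 .tm4 23 24 25, appS σ 25 26, f2 .ln 21 27, .succ 27 28, .succ 28 29, .mul 29 29 30,
    .mul 30 30 31, .mul 31 31 32, .mul 32 32 33, f3 .p 26 30 24] (f3 .p 20 33 24))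
theorem sR2 (σ : List Bool) : Sat S (tR2 σ) v ↔ ∀ a u w1 w2 y w3 z l l1 l2 M q1 q2 q3,
    S.r1 .lc a → S.r3 .tm3 a u w1 → S.r3 .tm2 w1 a w2 → StrV S [false, false, false] y →
    S.r3 .tm4 w2 y w3 → AppL S σ w3 z → S.r2 .ln u l → S.succ l l1 → S.succ l1 l2 →
    S.mul l2 l2 M → S.mul M M q1 → S.mul q1 q1 q2 → S.mul q2 q2 q3 → S.r3 .p z M y →
    S.r3 .p a q3 y := by
  simp [tR2, upd, sat_isS, sat_appS]

/-- the official provability formula implies the symbol -/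
def tP (P : Form) : Fm Sy := alls [2, 3, 4] (imps [emb' P] (f3 .p 2 3 4))
theorem sP (P : Form) : Sat S (tP P) v ↔ ∀ z m y, Sat S (emb' P) (upd (upd (upd v 2 z) 3 m) 4 y) →
    S.r3 .p z m y := by simp [tP, upd]

end Pool.Agent.TH672
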