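import Pool.Agent.TH672.Fm
import Pool.Agent.TH672.UD

/-!
# The translation of formulas with additional symbols
-/

set_option autoImplicit false

namespace Pool.Agent.TH672

open Form

theorem subst_self (x : ℕ) : ∀ φ : Form, φ.subst x x = φ := by
  have hr : ∀ u, ren x x u = u := fun u => by unfold ren; split_ifs with h <;> simp [h]
  intro φ
  induction φ <;> simp_all [Form.subst]

theorem subst_of_not_free {x : ℕ} (y : ℕ) : ∀ {φ : Form}, ¬ φ.Free x → φ.subst x y = φ := by
  have hr : ∀ u, x ≠ u → ren x y u = u := fun u h => by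
    unfold ren; rw [if_neg (fun h' => h h'.symm)]
  intro φ
  induction φ with
  | bot => intro _; rfl
  | eq u v => intro h; simp only [Form.Free, not_or] at h; simp [Form.subst, hr _ h.1, hr _ h.2]
  | zero u => intro h; simp only [Form.Free] at h; simp [Form.subst, hr _ h]
  | succ u v => intro h; simp only [Form.Free, not_or] at h; simp [Form.subst, hr _ h.1, hr _ h.2]
  | add u v w =>
    intro h; simp only [Form.Free, not_or] at h
    simp [Form.subst, hr _ h.1, hr _ h.2.1, hr _ h.2.2]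
  | mul u v w =>
    intro h; simp only [Form.Free, not_or] at h
    simp [Form.subst, hr _ h.1, hr _ h.2.1, hr _ h.2.2]
  | imp φ ψ ih ih' =>
    intro h; simp only [Form.Free, not_or] at h
    simp [Form.subst, ih h.1, ih' h.2]
  | all u φ ih =>
    intro h
    simp only [Form.Free, not_and] at h
    unfold Form.subst
    split_ifs with hu
    · rfl
    · rw [ih]
      intro hf
      exact h (fun e => hu e.symm) hf

theorem freeFor_self (x : ℕ) : ∀ φ : Form, φ.FreeFor x x := by
  intro φ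
  induction φ with
  | imp φ ψ ih ih' => exact ⟨ih, ih'⟩
  | all u φ ih =>
    unfold Form.FreeFor
    by_cases h : u = x
    · exact Or.inl h
    · exact Or.inr (Or.inr ⟨h, ih⟩)
  | _ => trivial

theorem freeFor_of_not_free {x : ℕ} (y : ℕ) : ∀ {φ : Form}, ¬ φ.Free x → φ.FreeFor y x := by
  intro φ
  induction φ with
  | imp φ ψ ih ih' =>
    intro h; simp only [Form.Free, not_or] at h
    exact ⟨ih h.1, ih' h.2⟩
  | all u φ ih =>
    intro h
    simp only [Form.Free, not_and] at h
    unfold Form.FreeFor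
    by_cases hu : u = x
    · exact Or.inl hu
    · exact Or.inr (Or.inl (h (fun e => hu e.symm)))
  | _ => intro _; trivial

/-- `θ` with the arguments `a`, `b`, `c`, `d` in the places `5`, `6`, `7`, `8` -/
def wrap (a b c d : ℕ) (θ : Form) : Form :=
  all 5 ((Form.eq 5 a).imp (all 6 ((Form.eq 6 b).imp (all 7 ((Form.eq 7 c).imp
    (all 8 ((Form.eq 8 d).imp θ)))))))

variable {κ : Type}

/-- the translation -/
def tr (ι : κ → Form) : Fm κ → Form
  | .bot => .bot
  | .eq x y => .eq x y
  | .zero x => .zero x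
  | .succ x y => .succ x y
  | .add x y z => .add x y z
  | .mul x y z => .mul x y z
  | .op i a b c d => wrap a b c d (ι i)
  | .imp φ ψ => .imp (tr ι φ) (tr ι ψ)
  | .all x φ => .all x (tr ι φ)

/-- not one of `5`, `6`, `7`, `8` -/
def ok (x : ℕ) : Prop := x < 5 ∨ 8 < x

instance (x : ℕ) : Decidable (ok x) := inferInstanceAs (Decidable (x < 5 ∨ 8 < x))

/-- the variables `5`, `6`, `7`, `8` do not occur -/
def Av : Fm κ → Prop
  | .bot => _root_.True
  | .eq x y => ok x ∧ ok y
  | .zero x => ok x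
  | .succ x y => ok x ∧ ok y
  | .add x y z => ok x ∧ ok y ∧ ok z
  | .mul x y z => ok x ∧ ok y ∧ ok z
  | .op _ a b c d => ok a ∧ ok b ∧ ok c ∧ ok d
  | .imp φ ψ => Av φ ∧ Av ψ
  | .all x φ => ok x ∧ Av φ

/-- `ι i` has only the free variables `5`, `6`, `7`, `8` -/
def Okι (ι : κ → Form) : Prop := ∀ i x, (ι i).Free x → ¬ ok x

theorem tr_free {ι : κ → Form} (hι : Okι ι) {x : ℕ} (hx : ok x) :
    ∀ {φ : Fm κ}, (tr ι φ).Free x ↔ φ.Free x := by
  have hι' : ∀ i, ¬ (ι i).Free x := fun i h => hι i x h hx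
  intro φ
  induction φ with
  | op i a b c d =>
    have h5 : x ≠ 5 := by unfold ok at hx; omega
    have h6 : x ≠ 6 := by unfold ok at hx; omega
    have h7 : x ≠ 7 := by unfold ok at hx; omega
    have h8 : x ≠ 8 := by unfold ok at hx; omega
    simp [tr, wrap, Form.Free, Fm.Free, h5, h6, h7, h8, hι']
  | imp φ ψ ih ih' => simp [tr, Form.Free, Fm.Free, ih, ih']
  | all u φ ih => simp [tr, Form.Free, Fm.Free, ih]
  | _ => simp [tr, Form.Free, Fm.Free]

theorem ren_ok {x y u : ℕ} (hy : ok y) (hu : ok u) : ok (ren x y u) := by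
  unfold ren; split_ifs <;> assumption

theorem ren_ne {x y u : ℕ} (h : u ≠ x) : ren x y u = u := by
  unfold ren; rw [if_neg h]

theorem tr_subst {ι : κ → Form} (hι : Okι ι) {x y : ℕ} (hx : ok x) :
    ∀ {φ : Fm κ}, Av φ → tr ι (φ.subst x y) = (tr ι φ).subst x y := by
  have hι' : ∀ i, ¬ (ι i).Free x := fun i h => hι i x h hx
  have h5 : (5 : ℕ) ≠ x := by unfold ok at hx; omega
  have h6 : (6 : ℕ) ≠ x := by unfold ok at hx; omega
  have h7 : (7 : ℕ) ≠ x := by unfold ok at hx; omega
  have h8 : (8 : ℕ) ≠ x := by unfold ok at hx; omega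
  intro φ
  induction φ with
  | op i a b c d =>
    intro _
    simp [tr, wrap, Fm.subst, Form.subst, h5, h6, h7, h8, ren_ne h5, ren_ne h6, ren_ne h7,
      ren_ne h8, subst_of_not_free y (hι' i)]
  | imp φ ψ ih ih' => intro h; simp [tr, Form.subst, Fm.subst, ih h.1, ih' h.2]
  | all u φ ih =>
    intro h
    simp only [tr, Form.subst, Fm.subst]
    split_ifs
    · rfl
    · simp [tr, ih h.2]
  | _ => intro _; simp [tr, Form.subst, Fm.subst]

theorem tr_freeFor {ι : κ → Form} (hι : Okι ι) {x y : ℕ} (hx : ok x) (hy : ok y) :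
    ∀ {φ : Fm κ}, φ.FreeFor y x → (tr ι φ).FreeFor y x := by
  have hι' : ∀ i, ¬ (ι i).Free x := fun i h => hι i x h hx
  have h5 : (5 : ℕ) ≠ y := by unfold ok at hy; omega
  have h6 : (6 : ℕ) ≠ y := by unfold ok at hy; omega
  have h7 : (7 : ℕ) ≠ y := by unfold ok at hy; omega
  have h8 : (8 : ℕ) ≠ y := by unfold ok at hy; omega
  intro φ
  induction φ with
  | op i a b c d =>
    intro _
    simp only [tr, wrap, Form.FreeFor]
    exact Or.inr (Or.inr ⟨h5, trivial, Or.inr (Or.inr ⟨h6, trivial, Or.inr (Or.inr ⟨h7, trivial,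
      Or.inr (Or.inr ⟨h8, trivial, freeFor_of_not_free y (hι' i)⟩)⟩)⟩)⟩)
  | imp φ ψ ih ih' => intro h; exact ⟨ih h.1, ih' h.2⟩
  | all u φ ih =>
    intro h
    simp only [tr, Form.FreeFor, Fm.FreeFor] at h ⊢
    rcases h with h | h | h
    · exact Or.inl h
    · exact Or.inr (Or.inl (fun hf => h ((tr_free hι hx).1 hf)))
    · exact Or.inr (Or.inr ⟨h.1, ih h.2⟩)
  | _ => intro _; trivial

/-! ### Uniform bounds -/

variable {J : Type}

theorem ub_tr {N : J → ℕ} {ι : J → κ → Form} (hN : ∀ j i, (ι j i).len ≤ N j) :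
    ∀ φ : Fm κ, UB N (fun j => tr (ι j) φ) := by
  intro φ
  induction φ with
  | op i a b c d =>
    have h : UB N (fun j => ι j i) := ⟨1, fun j => by
      have h1 := hN j i
      show (ι j i).len ≤ 1 * (N j + 1)
      omega⟩
    exact ((UB.const (Form.eq 5 a)).imp (((UB.const (Form.eq 6 b)).imp
      (((UB.const (Form.eq 7 c)).imp (((UB.const (Form.eq 8 d)).imp h).all 8)).all 7)).all 6)).all 5
  | imp φ ψ ih ih' => exact ih.imp ih'
  | all u φ ih => exact ih.all u
  | bot => exact UB.const _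
  | eq => exact UB.const _
  | zero => exact UB.const _
  | succ => exact UB.const _
  | add => exact UB.const _
  | mul => exact UB.const _

section repl

variable {Γ C : J → List Form} {N : J → ℕ}

theorem nd_symm {Δ : List (J → Form)} {x y : ℕ} (h : ND Γ C N Δ (fun _ => Form.eq x y)) :
    ND Γ C N Δ (fun _ => Form.eq y x) := by
  have h1 : ND Γ C N Δ (fun _ => (Form.eq x y).imp ((Form.eq x x).imp (Form.eq y x))) :=
    ND.log h.1 (UB.const _) fun j => LogAx.repl _ _ _ _ (.eq (Or.inr ⟨rfl, rfl⟩) (Or.inl rfl))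
  have h2 : ND Γ C N Δ (fun _ => Form.eq x x) := ND.log h.1 (UB.const _) fun j => LogAx.refl _
  exact (h1.mp h).mp h2

theorem nd_trans {Δ : List (J → Form)} {x y z : ℕ} (h : ND Γ C N Δ (fun _ => Form.eq x y))
    (h' : ND Γ C N Δ (fun _ => Form.eq y z)) : ND Γ C N Δ (fun _ => Form.eq x z) := by
  have h1 : ND Γ C N Δ (fun _ => (Form.eq y z).imp ((Form.eq x y).imp (Form.eq x z))) :=
    ND.log h.1 (UB.const _) fun j => LogAx.repl _ _ _ _ (.eq (Or.inl rfl) (Or.inr ⟨rfl, rfl⟩))
  exact (h1.mp h').mp h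

theorem nd_sw {Δ : List (J → Form)} {x y a a' s : ℕ} (h : ND Γ C N Δ (fun _ => Form.eq x y))
    (hs : Sw x y a a') (h' : ND Γ C N Δ (fun _ => Form.eq s a')) :
    ND Γ C N Δ (fun _ => Form.eq s a) := by
  rcases hs with rfl | ⟨rfl, rfl⟩
  · exact h'
  · exact nd_trans h' (nd_symm h)

theorem nd_inst {Δ : List (J → Form)} {F : J → Form} {x : ℕ} (y : ℕ)
    (hf : ∀ j, (F j).FreeFor y x) (hb : UB N (fun j => (F j).subst x y))
    (h : ND Γ C N Δ (fun j => Form.all x (F j))) : ND Γ C N Δ (fun j => (F j).subst x y) :=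
  (ND.log h.1 (h.2.1.imp hb) fun j => LogAx.inst x y _ (hf j)).mp h

theorem nd_inst_self {Δ : List (J → Form)} {F : J → Form} {x : ℕ}
    (h : ND Γ C N Δ (fun j => Form.all x (F j))) : ND Γ C N Δ F := by
  have h1 := nd_inst (Γ := Γ) (C := C) (N := N) (Δ := Δ) (F := F) (x := x) x
    (fun j => freeFor_self x _) (by simpa only [subst_self] using h.2.1.of_all) h
  simpa only [subst_self] using h1

theorem nd_one {Δ : List (J → Form)} {F : J → Form} {s a : ℕ}
    (h : ND Γ C N Δ (fun j => Form.all s ((Form.eq s a).imp (F j))))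
    (h' : ND Γ C N Δ (fun _ => Form.eq s a)) : ND Γ C N Δ F :=
  (nd_inst_self h).mp h'

theorem nd_repl {θ : J → Form} (hθ : UB N θ) {x y a b c d a' b' c' d' : ℕ} (hx : ok x) (hy : ok y)
    (ha : ok a) (hb : ok b) (hc : ok c) (hd : ok d) (ha' : ok a') (hb' : ok b') (hc' : ok c')
    (sa : Sw x y a a') (sb : Sw x y b b') (sc : Sw x y c c') (sd : Sw x y d d') :
    UD Γ C N (fun j => (Form.eq x y).imp ((wrap a b c d (θ j)).imp (wrap a' b' c' d' (θ j)))) := by
  have ubW : ∀ a b c d, UB N (fun j => wrap a b c d (θ j)) := fun a b c d =>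
    ((UB.const (Form.eq 5 a)).imp (((UB.const (Form.eq 6 b)).imp
      (((UB.const (Form.eq 7 c)).imp (((UB.const (Form.eq 8 d)).imp hθ).all 8)).all 7)).all 6)).all 5
  have nE : ∀ s, ¬ ok s → ¬ (Form.eq x y).Free s := by
    intro s hs h
    simp only [Form.Free] at h
    rcases h with rfl | rfl
    · exact hs hx
    · exact hs hy
  have nA : ∀ s t a, ¬ ok s → ok a → s ≠ t → ¬ (Form.eq t a).Free s := by
    intro s t a hs ha ht h
    simp only [Form.Free] at h
    rcases h with rfl | rfl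
    · exact ht rfl
    · exact hs ha
  have nW : ∀ s j, ¬ ok s → ¬ (wrap a b c d (θ j)).Free s := by
    intro s j hs h
    have h1 : s = 5 ∨ s = 6 ∨ s = 7 ∨ s = 8 := by unfold ok at hs; omega
    have e1 : s ≠ a := fun e => hs (e ▸ ha)
    have e2 : s ≠ b := fun e => hs (e ▸ hb)
    have e3 : s ≠ c := fun e => hs (e ▸ hc)
    have e4 : s ≠ d := fun e => hs (e ▸ hd)
    simp only [wrap, Form.Free] at h
    rcases h1 with rfl | rfl | rfl | rfl <;> simp_all
  have h5 : ¬ ok 5 := by decide
  have h6 : ¬ ok 6 := by decide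
  have h7 : ¬ ok 7 := by decide
  have h8 : ¬ ok 8 := by decide
  apply ND.ud
  apply ND.intro
  apply ND.intro
  refine ND.gen 5 ?_ (ND.intro (ND.gen 6 ?_ (ND.intro (ND.gen 7 ?_ (ND.intro (ND.gen 8 ?_
    (ND.intro ?_)))))))
  · intro G hG j
    simp only [List.mem_cons, List.not_mem_nil, or_false] at hG
    rcases hG with rfl | rfl
    · exact nW _ _ h5
    · exact nE _ h5
  · intro G hG j
    simp only [List.mem_cons, List.not_mem_nil, or_false] at hG
    rcases hG with rfl | rfl | rfl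
    · exact nA _ _ _ h6 ha' (by decide)
    · exact nW _ _ h6
    · exact nE _ h6
  · intro G hG j
    simp only [List.mem_cons, List.not_mem_nil, or_false] at hG
    rcases hG with rfl | rfl | rfl | rfl
    · exact nA _ _ _ h7 hb' (by decide)
    · exact nA _ _ _ h7 ha' (by decide)
    · exact nW _ _ h7
    · exact nE _ h7
  · intro G hG j
    simp only [List.mem_cons, List.not_mem_nil, or_false] at hG
    rcases hG with rfl | rfl | rfl | rfl | rfl
    · exact nA _ _ _ h8 hc' (by decide)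
    · exact nA _ _ _ h8 hb' (by decide)
    · exact nA _ _ _ h8 ha' (by decide)
    · exact nW _ _ h8
    · exact nE _ h8
  · set Δ : List (J → Form) := [fun _ => Form.eq 8 d', fun _ => Form.eq 7 c',
      fun _ => Form.eq 6 b', fun _ => Form.eq 5 a', fun j => wrap a b c d (θ j),
      fun _ => Form.eq x y] with hΔ
    have hU : ∀ G ∈ Δ, UB N G := by
      intro G hG
      simp only [hΔ, List.mem_cons, List.not_mem_nil, or_false] at hG
      rcases hG with rfl | rfl | rfl | rfl | rfl | rfl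
      · exact UB.const _
      · exact UB.const _
      · exact UB.const _
      · exact UB.const _
      · exact ubW _ _ _ _
      · exact UB.const _
    have e : ND Γ C N Δ (fun _ => Form.eq x y) := ND.hyp hU (by simp [hΔ])
    have w : ND Γ C N Δ (fun j => wrap a b c d (θ j)) := ND.hyp hU (by simp [hΔ])
    have s5 : ND Γ C N Δ (fun _ => Form.eq 5 a) := nd_sw e sa (ND.hyp hU (by simp [hΔ]))
    have s6 : ND Γ C N Δ (fun _ => Form.eq 6 b) := nd_sw e sb (ND.hyp hU (by simp [hΔ]))
    have s7 : ND Γ C N Δ (fun _ => Form.eq 7 c) := nd_sw e sc (ND.hyp hU (by simp [hΔ]))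
    have s8 : ND Γ C N Δ (fun _ => Form.eq 8 d) := nd_sw e sd (ND.hyp hU (by simp [hΔ]))
    exact nd_one (nd_one (nd_one (nd_one w s5) s6) s7) s8

end repl

end Pool.Agent.TH672
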